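import Pool.Agent.Lib.MP_29e17e_pr.Y.Cm

set_option autoImplicit false
set_option linter.unusedSectionVars false

/-! Rows 29c-A1 .. A7: comparison of a finite graph (the torus) with a local covering (a large box). The cluster of the root is explored edge by edge, with lifts. -/

open Finset

namespace Pool.Agent.PERC29.QQ

open Pool.Agent.PERC29 Pool.Agent.PERC29.AE

variable {V : Type} [Fintype V] [DecidableEq V] {E : Type} [Fintype E] [DecidableEq E]
  {V' : Type} [Fintype V'] [DecidableEq V'] {E' : Type} [Fintype E'] [DecidableEq E']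
  {ends : E → Sym2 V} {ends' : E' → Sym2 V'} {π : V' → V} {ρ : E' → E} {ht : V' → ℕ} {o : V'}

/-- The graph `(V', E')` is a covering of `(V, E)` near `o`: at the vertices of height less than `|V|`. -/
structure Cov (ends : E → Sym2 V) (ends' : E' → Sym2 V') (π : V' → V) (ρ : E' → E) (ht : V' → ℕ) (o : V') : Prop where
  proj : ∀ e', ends (ρ e') = (ends' e').map π
  root : ht o = 0
  step : ∀ e' x z, ends' e' = s(x, z) → ht z ≤ ht x + 1
  lift : ∀ x : V', ht x < Fintype.card V → ∀ e w, ends e = s(π x, w) → ∃ e' z, ends' e' = s(x, z) ∧ π z = w ∧ ρ e' = e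
  star : ∀ x z z' e1 e2, ends' e1 = s(x, z) → ends' e2 = s(x, z') → ρ e1 = ρ e2 → e1 = e2
  inj : Function.Injective ends'
  noloop : ∀ e w, ends e ≠ s(w, w)

/-- The triple `(e', x, z)`: an edge from `x ∈ S` to `z`, whose image has not been examined. -/
def Av (ends' : E' → Sym2 V') (ρ : E' → E) (S : Finset V') (R : Finset E) (t : E' × V' × V') : Prop :=
  t.2.1 ∈ S ∧ ends' t.1 = s(t.2.1, t.2.2) ∧ ρ t.1 ∉ R

open scoped Classical in
/-- The exploration: `k` steps from the state `(S, R)`; `S` is the set of lifts which have been found, `R` the set of the edges which have been examined. -/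
noncomputable def expl (ends' : E' → Sym2 V') (π : V' → V) (ρ : E' → E) (ω : E → Bool) : ℕ → Finset V' → Finset E → Finset V'
  | 0, S, _ => S
  | k + 1, S, R => if h : ∃ t, Av ends' ρ S R t then
      expl ends' π ρ ω k (if ω (ρ h.choose.1) = true ∧ π h.choose.2.2 ∉ S.image π then insert h.choose.2.2 S else S)
        (insert (ρ h.choose.1) R)
    else S

lemma expl_none (ω : E → Bool) (k : ℕ) {S : Finset V'} {R : Finset E} (h : ¬ ∃ t, Av ends' ρ S R t) :
    expl ends' π ρ ω (k + 1) S R = S := by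
  rw [expl, dif_neg h]

lemma expl_some {S : Finset V'} {R : Finset E} (h : ∃ t, Av ends' ρ S R t) :
    ∃ t, Av ends' ρ S R t ∧ ∀ (ω : E → Bool) (k : ℕ), expl ends' π ρ ω (k + 1) S R =
      expl ends' π ρ ω k (if ω (ρ t.1) = true ∧ π t.2.2 ∉ S.image π then insert t.2.2 S else S) (insert (ρ t.1) R) := by
  classical
  refine ⟨h.choose, h.choose_spec, fun ω k => ?_⟩
  rw [expl, dif_pos h]

/-- The lift of the cluster of `π o`. -/
noncomputable def Sf (ends' : E' → Sym2 V') (π : V' → V) (ρ : E' → E) (o : V') (ω : E → Bool) : Finset V' :=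
  expl ends' π ρ ω (Fintype.card E) {o} ∅

/-- Row A1. The exploration from `(S, R)` does not look at the edges of `R`. Induction on `k`, for all `S`, `R` (`expl_some`; the new `R` is larger). -/
lemma expl_dep (k : ℕ) (S : Finset V') (R : Finset E) (ω ω' : E → Bool) (h : ∀ e, e ∉ R → ω e = ω' e) :
    expl ends' π ρ ω k S R = expl ends' π ρ ω' k S R := by
  induction k generalizing S R with
  | zero => rfl
  | succ k ih =>
    by_cases hh : ∃ t, Av ends' ρ S R t
    · obtain ⟨t, ht, hs⟩ := expl_some (π := π) hh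
      rw [hs, hs, h (ρ t.1) ht.2.2]
      exact ih _ _ (fun e he => h e (fun h2 => he (Finset.mem_insert_of_mem h2)))
    · rw [expl_none ω k hh, expl_none ω' k hh]

/-- Row A1. One step of the exploration, for expectations: `Ex_split` for the edge `ρ t.1`, `expl_dep`. -/
lemma expl_Ex (p : ℝ) (f : Finset V' → ℝ) {S : Finset V'} {R : Finset E} (h : ∃ t, Av ends' ρ S R t) :
    ∃ t, Av ends' ρ S R t ∧ ∀ k : ℕ, Ex p (fun ω => f (expl ends' π ρ ω (k + 1) S R)) =
      p * Ex p (fun ω => f (expl ends' π ρ ω k (if π t.2.2 ∉ S.image π then insert t.2.2 S else S) (insert (ρ t.1) R))) +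
      (1 - p) * Ex p (fun ω => f (expl ends' π ρ ω k S (insert (ρ t.1) R))) := by
  obtain ⟨t, ht, hs⟩ := expl_some (π := π) h
  refine ⟨t, ht, fun k => ?_⟩
  have key : ∀ ω : E → Bool, f (expl ends' π ρ ω (k + 1) S R) = if ω (ρ t.1) = true
      then f (expl ends' π ρ ω k (if π t.2.2 ∉ S.image π then insert t.2.2 S else S) (insert (ρ t.1) R))
      else f (expl ends' π ρ ω k S (insert (ρ t.1) R)) := by
    intro ω
    rw [hs]
    by_cases h1 : ω (ρ t.1) = true
    · rw [if_pos h1]
      simp only [h1, true_and]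
    · rw [if_neg h1, if_neg (fun h2 => h1 h2.1)]
  have hdep : ∀ (T : Finset V') (ω ω' : E → Bool), (∀ e' ≠ ρ t.1, ω e' = ω' e') →
      f (expl ends' π ρ ω k T (insert (ρ t.1) R)) = f (expl ends' π ρ ω' k T (insert (ρ t.1) R)) := by
    intro T ω ω' hw
    rw [expl_dep k T (insert (ρ t.1) R) ω ω']
    intro e he
    exact hw e (fun h2 => he (h2 ▸ Finset.mem_insert_self _ _))
  rw [Ex_congr key]
  exact Ex_split p (ρ t.1) _ _ (hdep _) (hdep _)

/-- The invariants of the exploration, for row A2. -/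
private structure A2_inv (ends : E → Sym2 V) (π : V' → V) (ht : V' → ℕ) (o : V') (ω : E → Bool) (S : Finset V') (R : Finset E) : Prop where
  root : o ∈ S
  inj : Set.InjOn π S
  hgt : ∀ x ∈ S, ht x + 1 ≤ S.card
  sub : ∀ x ∈ S, π x ∈ cu ends ω (π o)
  opn : ∀ e ∈ R, ω e = true → ∀ a b, ends e = s(a, b) → a ∈ S.image π

private lemma A2_step (hc : Cov ends ends' π ρ ht o) {ω : E → Bool} {S : Finset V'} {R : Finset E} (hi : A2_inv ends π ht o ω S R)
    {t : E' × V' × V'} (htt : Av ends' ρ S R t) :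
    A2_inv ends π ht o ω (if ω (ρ t.1) = true ∧ π t.2.2 ∉ S.image π then insert t.2.2 S else S) (insert (ρ t.1) R) := by
  obtain ⟨e', x, z⟩ := t
  obtain ⟨hx, he, hR⟩ := htt
  simp only at hx he hR ⊢
  have hpe : ends (ρ e') = s(π x, π z) := by rw [hc.proj, he]; rfl
  split_ifs with hcase
  · obtain ⟨hop, hz⟩ := hcase
    have hzS : z ∉ S := fun h => hz (Finset.mem_image_of_mem π h)
    have hzc : π z ∈ cu ends ω (π o) := by
      have h1 := hi.sub x hx
      rw [mem_cu] at h1 ⊢
      exact Relation.ReflTransGen.tail h1 ⟨trivial, trivial, ρ e', hop, hpe⟩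
    refine ⟨Finset.mem_insert_of_mem hi.root, ?_, ?_, ?_, ?_⟩
    · rw [Finset.coe_insert, Set.injOn_insert (by exact_mod_cast hzS)]
      refine ⟨hi.inj, ?_⟩
      rintro ⟨y, hy, hyz⟩
      exact hz (hyz ▸ Finset.mem_image_of_mem π (by exact_mod_cast hy))
    · intro y hy
      rw [Finset.card_insert_of_notMem hzS]
      rcases Finset.mem_insert.1 hy with rfl | hy
      · have h1 := hc.step e' x y he
        have h2 := hi.hgt x hx
        omega
      · have h2 := hi.hgt y hy
        omega
    · intro y hy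
      rcases Finset.mem_insert.1 hy with rfl | hy
      · exact hzc
      · exact hi.sub y hy
    · intro e heR hop' a b hab
      rw [Finset.image_insert]
      rcases Finset.mem_insert.1 heR with rfl | heR
      · rw [hpe] at hab
        rcases Sym2.eq_iff.1 hab with ⟨h1, -⟩ | ⟨-, h1⟩
        · rw [← h1]
          exact Finset.mem_insert_of_mem (Finset.mem_image_of_mem π hx)
        · rw [← h1]
          exact Finset.mem_insert_self _ _
      · exact Finset.mem_insert_of_mem (hi.opn e heR hop' a b hab)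
  · refine ⟨hi.root, hi.inj, hi.hgt, hi.sub, ?_⟩
    intro e heR hop' a b hab
    rcases Finset.mem_insert.1 heR with rfl | heR
    · have hz : π z ∈ S.image π := by
        by_contra hz
        exact hcase ⟨hop', hz⟩
      rw [hpe] at hab
      rcases Sym2.eq_iff.1 hab with ⟨h1, -⟩ | ⟨-, h1⟩
      · rw [← h1]
        exact Finset.mem_image_of_mem π hx
      · rw [← h1]
        exact hz
    · exact hi.opn e heR hop' a b hab

private lemma A2_end (hc : Cov ends ends' π ρ ht o) (ω : E → Bool) (k : ℕ) : ∀ (S : Finset V') (R : Finset E), A2_inv ends π ht o ω S R →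
    (Finset.univ \ R).card ≤ k → ∃ R' : Finset E, A2_inv ends π ht o ω (expl ends' π ρ ω k S R) R' ∧
      ∀ x ∈ expl ends' π ρ ω k S R, ∀ e b, ends e = s(π x, b) → e ∈ R' := by
  induction k with
  | zero =>
    intro S R hi hR
    refine ⟨R, hi, fun x _ e b _ => ?_⟩
    by_contra he
    have h1 : e ∈ Finset.univ \ R := Finset.mem_sdiff.2 ⟨Finset.mem_univ e, he⟩
    have h2 := Finset.card_pos.2 ⟨e, h1⟩
    omega
  | succ k ih =>
    intro S R hi hR
    by_cases h : ∃ t, Av ends' ρ S R t
    · obtain ⟨t, htt, h2⟩ := expl_some (π := π) h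
      rw [h2 ω k]
      refine ih _ _ (A2_step hc hi htt) ?_
      have h3 : (Finset.univ \ insert (ρ t.1) R).card < (Finset.univ \ R).card := by
        refine Finset.card_lt_card ⟨Finset.sdiff_subset_sdiff (le_refl _) (Finset.subset_insert _ _), fun hsub => ?_⟩
        have h4 : ρ t.1 ∈ Finset.univ \ R := Finset.mem_sdiff.2 ⟨Finset.mem_univ _, htt.2.2⟩
        exact (Finset.mem_sdiff.1 (hsub h4)).2 (Finset.mem_insert_self _ _)
      omega
    · rw [expl_none ω k h]
      refine ⟨R, hi, fun x hx e b hab => ?_⟩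
      have h1 : ht x < Fintype.card V := by
        have h2 := hi.hgt x hx
        have h3 : (S.image π).card = S.card := Finset.card_image_of_injOn hi.inj
        have h4 : (S.image π).card ≤ Fintype.card V := Finset.card_le_univ _
        omega
      obtain ⟨e', z, he', -, hre⟩ := hc.lift x h1 e b hab
      by_contra heR
      exact h ⟨(e', x, z), hx, he', by rw [hre]; exact heR⟩

/-- Row A2. The invariants: `o ∈ S`, `π` injective on `S`, `ht x + 1 ≤ |S|` for `x ∈ S` (so `ht x < |V|` as `|S| = |S.image π| ≤ |V|`), `π x ∈ cu ω (π o)` for `x ∈ S`, and `a ∈ S.image π` for every end `a` of an open edge `e ∈ R`; they are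
kept by a step (`Cov.proj`, `Cov.step`). After `|E|` steps, or when no edge is available (induction on `k` with `|univ \ R| ≤ k`), every edge `e` with an end in `S.image π` is in `R` (`Cov.lift`; `ends e = s(π x, w)`), so the set `S.image π` is closed
under open edges, and it contains `π o`: it contains `cu ω (π o)`. -/
theorem Sf_cl (hc : Cov ends ends' π ρ ht o) (ω : E → Bool) :
    Set.InjOn π (Sf ends' π ρ o ω) ∧ (Sf ends' π ρ o ω).image π = cu ends ω (π o) := by
  have h0 : A2_inv ends π ht o ω {o} ∅ := by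
    refine ⟨Finset.mem_singleton_self o, ?_, ?_, ?_, ?_⟩
    · rw [Finset.coe_singleton]
      exact Set.injOn_singleton π o
    · intro x hx
      rw [Finset.mem_singleton.1 hx, hc.root, Finset.card_singleton]
    · intro x hx
      rw [Finset.mem_singleton.1 hx]
      exact self_mem_cu ω (π o)
    · intro e he
      exact absurd he (Finset.notMem_empty e)
  obtain ⟨R', hi, hcl⟩ := A2_end (ρ := ρ) (ends' := ends') hc ω (Fintype.card E) {o} ∅ h0 (Finset.card_le_univ _)
  refine ⟨hi.inj, Finset.Subset.antisymm ?_ ?_⟩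
  · intro v hv
    obtain ⟨x, hx, rfl⟩ := Finset.mem_image.1 hv
    exact hi.sub x hx
  · intro v hv
    rw [mem_cu] at hv
    induction hv with
    | refl => exact Finset.mem_image_of_mem π hi.root
    | @tail c d _ hcd ih =>
      obtain ⟨-, -, e, hop, hab⟩ := hcd
      obtain ⟨x, hx, hxc⟩ := Finset.mem_image.1 ih
      have heR : e ∈ R' := hcl x hx e d (by rw [hxc]; exact hab)
      exact hi.opn e heR hop d c (by rw [hab, Sym2.eq_swap])

/-- Row A3. All edges which are examined touch the cluster: induction on `k` for two configurations which agree on `tch ends (cu ends ω (π o))`, with the invariant `π x ∈ cu ends ω (π o)` for `x ∈ S`. -/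
theorem Sf_loc (hc : Cov ends ends' π ρ ht o) (F : Finset V' → ℝ) : Lcx ends (π o) (fun ω => F (Sf ends' π ρ o ω)) := by
  classical
  intro ω ω' hag
  have key : ∀ (k : ℕ) (S : Finset V') (R : Finset E), (∀ x ∈ S, π x ∈ cu ends ω (π o)) →
      expl ends' π ρ ω k S R = expl ends' π ρ ω' k S R := by
    intro k
    induction k with
    | zero => intro S R _; rfl
    | succ k ih =>
      intro S R hS
      by_cases h : ∃ t, Av ends' ρ S R t
      · obtain ⟨t, ht', hrec⟩ := expl_some (π := π) h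
        rw [hrec ω k, hrec ω' k]
        obtain ⟨hx, he, -⟩ := ht'
        have hends : ends (ρ t.1) = s(π t.2.1, π t.2.2) := by
          rw [hc.proj, he]; rfl
        have hcx : π t.2.1 ∈ cu ends ω (π o) := hS _ hx
        have hmem : ρ t.1 ∈ AE.tch ends (cu ends ω (π o)) := by
          unfold AE.tch
          rw [Finset.mem_filter]
          refine ⟨Finset.mem_univ _, π t.2.1, hcx, ?_⟩
          rw [hends]
          exact Sym2.mem_mk_left _ _
        rw [← hag _ hmem]
        refine ih _ _ ?_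
        intro x hx'
        split_ifs at hx' with hcond
        · rcases Finset.mem_insert.1 hx' with rfl | hx2
          · rw [mem_cu] at hcx ⊢
            refine Relation.ReflTransGen.tail hcx ?_
            exact ⟨Set.mem_univ _, Set.mem_univ _, ρ t.1, hcond.1, hends⟩
          · exact hS _ hx2
        · exact hS _ hx'
      · rw [expl_none ω k h, expl_none ω' k h]
  have h0 : ∀ x ∈ ({o} : Finset V'), π x ∈ cu ends ω (π o) := by
    intro x hx
    rw [Finset.mem_singleton.1 hx]
    exact self_mem_cu ω (π o)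
  show F (Sf ends' π ρ o ω) = F (Sf ends' π ρ o ω')
  unfold Sf
  rw [key (Fintype.card E) {o} ∅ h0]

/-- The configuration `ω` with the edges of `R` closed. -/
def cls (R : Finset E') (ω : E' → Bool) : E' → Bool := fun e => if e ∈ R then false else ω e

/-- The union of the clusters of the points of `S`. -/
noncomputable def cuS (ends' : E' → Sym2 V') (ω : E' → Bool) (S : Finset V') : Finset V' := S.biUnion (cu ends' ω)

/-- Row A4. -/
private lemma A4_mem {ω : E' → Bool} {S : Finset V'} {v : V'} : v ∈ cuS ends' ω S ↔ ∃ b ∈ S, Rch ends' ω Set.univ b v := by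
  unfold cuS
  rw [Finset.mem_biUnion]
  constructor
  · rintro ⟨b, hb, h⟩
    exact ⟨b, hb, mem_cu.1 h⟩
  · rintro ⟨b, hb, h⟩
    exact ⟨b, hb, mem_cu.2 h⟩

/-- Row A4. A set which contains `S` and is closed under the open edges contains the clusters of the points of `S`. -/
private lemma A4_closed {ω : E' → Bool} {S C : Finset V'} (hS : S ⊆ C) (hC : ∀ a b f, a ∈ C → ω f = true → ends' f = s(a, b) → b ∈ C) :
    cuS ends' ω S ⊆ C := by
  intro v hv
  obtain ⟨b, hb, h⟩ := A4_mem.1 hv
  induction h with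
  | refl => exact hS hb
  | tail _ hbc ih =>
    obtain ⟨_, _, f, hf, hf2⟩ := hbc
    exact hC _ _ f (ih (by rw [A4_mem]; exact ⟨b, hb, by assumption⟩)) hf hf2

/-- Row A4. -/
private lemma A4_step {ω : E' → Bool} {S : Finset V'} {a b : V'} {f : E'} (ha : a ∈ cuS ends' ω S) (hf : ω f = true) (hf2 : ends' f = s(a, b)) :
    b ∈ cuS ends' ω S := by
  obtain ⟨c, hc, h⟩ := A4_mem.1 ha
  exact A4_mem.2 ⟨c, hc, Relation.ReflTransGen.tail h ⟨Set.mem_univ _, Set.mem_univ _, f, hf, hf2⟩⟩

/-- Row A4. -/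
private lemma A4_sub (ω : E' → Bool) (S : Finset V') : S ⊆ cuS ends' ω S :=
  fun v hv => A4_mem.2 ⟨v, hv, Rch.refl v⟩

/-- Row A4. -/
private lemma A4_mono {ω ω' : E' → Bool} {S S' : Finset V'} (hS : S ⊆ S') (h : ∀ e, ω e = true → ω' e = true) : cuS ends' ω S ⊆ cuS ends' ω' S' := by
  intro v hv
  obtain ⟨b, hb, h2⟩ := A4_mem.1 hv
  exact A4_mem.2 ⟨b, hS hb, h2.mono h (Set.Subset.refl _)⟩

/-- Row A4. -/
private lemma A4_open {ω : E' → Bool} {S : Finset V'} {R' : Finset E'} {e' : E'} {x z : V'} (hx : x ∈ S) (he : ends' e' = s(x, z)) (hR : e' ∉ R')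
    (ho : ω e' = true) : cuS ends' (cls R' ω) S = cuS ends' (cls (insert e' R') ω) (insert z S) := by
  classical
  have h0 : cls R' ω e' = true := by
    unfold cls
    rw [if_neg hR]
    exact ho
  apply Finset.Subset.antisymm
  · apply A4_closed
    · exact (Finset.subset_insert _ _).trans (A4_sub _ _)
    · intro a b f ha hf hf2
      by_cases hfe : f = e'
      · subst hfe
        rw [he] at hf2
        have hb : b ∈ insert z S := by
          rw [Sym2.eq_iff] at hf2
          rcases hf2 with ⟨_, h2⟩ | ⟨h1, _⟩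
          · rw [← h2]
            exact Finset.mem_insert_self _ _
          · rw [← h1]
            exact Finset.mem_insert_of_mem hx
        exact A4_sub _ _ hb
      · refine A4_step ha ?_ hf2
        unfold cls at hf ⊢
        by_cases hfR : f ∈ R'
        · rw [if_pos hfR] at hf
          exact absurd hf (by simp)
        · rw [if_neg hfR] at hf
          rw [if_neg (by
            rw [Finset.mem_insert]
            rintro (h | h)
            · exact hfe h
            · exact hfR h)]
          exact hf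
  · apply A4_closed
    · intro v hv
      rcases Finset.mem_insert.1 hv with h | h
      · subst h
        exact A4_step (A4_sub _ _ hx) h0 he
      · exact A4_sub _ _ h
    · intro a b f ha hf hf2
      refine A4_step ha ?_ hf2
      unfold cls at hf ⊢
      by_cases hfR : f ∈ insert e' R'
      · rw [if_pos hfR] at hf
        exact absurd hf (by simp)
      · rw [if_neg hfR] at hf
        rw [if_neg (fun h => hfR (Finset.mem_insert_of_mem h))]
        exact hf

/-- Row A4. -/
private lemma A4_cls {ω : E' → Bool} {R' : Finset E'} {e' : E'} (ho : ¬ ω e' = true) : cls R' ω = cls (insert e' R') ω := by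
  funext f
  unfold cls
  by_cases hf : f ∈ R'
  · rw [if_pos hf, if_pos (Finset.mem_insert_of_mem hf)]
  · rw [if_neg hf]
    by_cases hfe : f = e'
    · subst hfe
      rw [if_pos (Finset.mem_insert_self _ _)]
      simpa using ho
    · rw [if_neg (by
        rw [Finset.mem_insert]
        rintro (h | h)
        · exact hfe h
        · exact hf h)]

/-- Row A4. -/
private lemma A4_dep {ω ω' : E' → Bool} {R' : Finset E'} {e' : E'} (h : ∀ e ≠ e', ω e = ω' e) : cls (insert e' R') ω = cls (insert e' R') ω' := by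
  funext f
  unfold cls
  by_cases hf : f ∈ insert e' R'
  · rw [if_pos hf, if_pos hf]
  · rw [if_neg hf, if_neg hf]
    exact h f (fun hh => hf (by rw [hh]; exact Finset.mem_insert_self _ _))

/-- Row A4. An edge `e'` from `x ∈ S` to `z`. `Ex_split` for `e'`: if `ω e' = true` then `cuS (cls R' ω) S = cuS (cls (insert e' R') ω) (insert z S)` (a path to `v` in `cls R' ω` which uses `e'`: the part after the last use of `e'` starts at `x` or `z`;
or: the right side is closed under the open edges of `cls R' ω` and contains `S`), otherwise `cls R' ω = cls (insert e' R') ω`. -/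
lemma cuS_Ex (p : ℝ) (g : Finset V' → ℝ) {S : Finset V'} {R' : Finset E'} {e' : E'} {x z : V'} (hx : x ∈ S) (he : ends' e' = s(x, z)) (hR : e' ∉ R') :
    Ex p (fun ω => g (cuS ends' (cls R' ω) S)) = p * Ex p (fun ω => g (cuS ends' (cls (insert e' R') ω) (insert z S))) +
      (1 - p) * Ex p (fun ω => g (cuS ends' (cls (insert e' R') ω) S)) := by
  rw [← Ex_split p e' (fun ω => g (cuS ends' (cls (insert e' R') ω) (insert z S))) (fun ω => g (cuS ends' (cls (insert e' R') ω) S))
    (fun ω ω' h => by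
      show g (cuS ends' (cls (insert e' R') ω) (insert z S)) = g (cuS ends' (cls (insert e' R') ω') (insert z S))
      rw [A4_dep h])
    (fun ω ω' h => by
      show g (cuS ends' (cls (insert e' R') ω) S) = g (cuS ends' (cls (insert e' R') ω') S)
      rw [A4_dep h])]
  apply Ex_congr
  intro ω
  by_cases ho : ω e' = true
  · rw [if_pos ho, A4_open hx he hR ho]
  · rw [if_neg ho, A4_cls ho]

/-- Row A4. -/
lemma cuS_mono {ω ω' : E' → Bool} {S S' : Finset V'} (hS : S ⊆ S') (h : ∀ e, ω e = true → ω' e = true) : cuS ends' ω S ⊆ cuS ends' ω' S' :=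
  A4_mono hS h

/-- Row A4. -/
lemma sub_cuS (ω : E' → Bool) (S : Finset V') : S ⊆ cuS ends' ω S :=
  A4_sub ω S

private lemma A5_base {p : ℝ} (h0 : 0 ≤ p) (h1 : p ≤ 1) (G : Finset V' → ℝ) (hG : ∀ S S', S ⊆ S' → G S ≤ G S') (S : Finset V') (R' : Finset E')
    (f : (E → Bool) → ℝ) (hf : ∀ ω, f ω = G S) :
    Ex p f ≤ Ex p (fun ω => G (cuS ends' (cls R' ω) S)) := by
  have e1 : Ex p f = G S := by
    rw [← Ex_const (E := E) p (G S)]
    exact Ex_congr hf
  rw [e1, ← Ex_const (E := E') p (G S)]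
  exact Ex_mono h0 h1 (fun ω => hG _ _ (sub_cuS _ _))

private lemma A5_main {p : ℝ} (h0 : 0 ≤ p) (h1 : p ≤ 1) (G : Finset V' → ℝ) (hG : ∀ S S', S ⊆ S' → G S ≤ G S') (k : ℕ) :
    ∀ (S : Finset V') (R : Finset E) (R' : Finset E'), (∀ e' ∈ R', ρ e' ∈ R) →
      Ex p (fun ω => G (expl ends' π ρ ω k S R)) ≤ Ex p (fun ω => G (cuS ends' (cls R' ω) S)) := by
  induction k with
  | zero =>
    intro S R R' _
    exact A5_base h0 h1 G hG S R' _ (fun ω => by rw [expl])
  | succ k ih =>
    intro S R R' hR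
    by_cases h : ∃ t, Av ends' ρ S R t
    · obtain ⟨t, hAv, hEx⟩ := expl_Ex (π := π) p G h
      obtain ⟨hx, he, hn⟩ := hAv
      have hn' : t.1 ∉ R' := fun hc => hn (hR _ hc)
      rw [hEx k, cuS_Ex p G hx he hn']
      have hR2 : ∀ e' ∈ insert t.1 R', ρ e' ∈ insert (ρ t.1) R := by
        intro e' he'
        rcases Finset.mem_insert.mp he' with rfl | he'
        · exact Finset.mem_insert_self _ _
        · exact Finset.mem_insert_of_mem (hR _ he')
      have t1 : Ex p (fun ω => G (expl ends' π ρ ω k (if π t.2.2 ∉ S.image π then insert t.2.2 S else S) (insert (ρ t.1) R))) ≤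
          Ex p (fun ω => G (cuS ends' (cls (insert t.1 R') ω) (insert t.2.2 S))) := by
        refine (ih _ _ (insert t.1 R') hR2).trans (Ex_mono h0 h1 (fun ω => hG _ _ (cuS_mono ?_ (fun e h => h))))
        split_ifs
        · exact Finset.subset_insert _ _
        · exact Finset.Subset.refl _
      have t2 : Ex p (fun ω => G (expl ends' π ρ ω k S (insert (ρ t.1) R))) ≤
          Ex p (fun ω => G (cuS ends' (cls (insert t.1 R') ω) S)) := ih _ _ (insert t.1 R') hR2
      have h1' : 0 ≤ 1 - p := sub_nonneg.mpr h1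
      exact add_le_add (mul_le_mul_of_nonneg_left t1 h0) (mul_le_mul_of_nonneg_left t2 h1')
    · exact A5_base h0 h1 G hG S R' _ (fun ω => by rw [expl_none ω k h])

/-- Row A5. The upper comparison. Induction on `k` for all `S`, `R`, `R'` with `∀ e' ∈ R', ρ e' ∈ R`: `Ex p (G (expl k S R)) ≤ Ex p (G (cuS (cls R' ω) S))` (`expl_Ex`, `cuS_Ex`, `cuS_mono`: in the first term `if .. then insert z S else S ⊆ insert z S`;
`k = 0` or nothing available: `sub_cuS`). Then `R = ∅`, `R' = ∅`, `S = {o}`. -/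
theorem cmp_up {p : ℝ} (h0 : 0 ≤ p) (h1 : p ≤ 1) (G : Finset V' → ℝ) (hG : ∀ S S', S ⊆ S' → G S ≤ G S') :
    Ex p (fun ω => G (Sf ends' π ρ o ω)) ≤ Ex p (fun ω => G (cu ends' ω o)) := by
  refine (A5_main h0 h1 G hG (Fintype.card E) {o} ∅ ∅ (by simp)).trans (le_of_eq ?_)
  refine Ex_congr (fun ω => ?_)
  have e1 : cls ∅ ω = ω := by
    funext e
    simp [cls]
  rw [e1, cuS, Finset.singleton_biUnion]

/-- Row A6. Harris: `fkg` of Mathlib (lattice `E' → Bool`, `false < true`) for `1 - f`, `1 - g`; or induction over the edges. -/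
lemma harris {p : ℝ} (h0 : 0 ≤ p) (h1 : p ≤ 1) (f g : (E' → Bool) → ℝ) (hf0 : ∀ ω, 0 ≤ f ω) (hf1 : ∀ ω, f ω ≤ 1) (hg0 : ∀ ω, 0 ≤ g ω) (hg1 : ∀ ω, g ω ≤ 1)
    (hf : ∀ ω ω' : E' → Bool, (∀ e, ω e = true → ω' e = true) → f ω' ≤ f ω) (hg : ∀ ω ω' : E' → Bool, (∀ e, ω e = true → ω' e = true) → g ω' ≤ g ω) :
    Ex p f * Ex p g ≤ Ex p (fun ω => f ω * g ω) := by
  have h1' : ∀ (u : (E' → Bool) → ℝ), Ex p (fun ω => 1 - u ω) = 1 - Ex p u := by
    intro u
    have e1 : ∀ ω : E' → Bool, 1 - u ω = 1 + (-1) * u ω := fun ω => by ring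
    rw [Ex_congr e1, Ex_add, Ex_const, Ex_mul_left]
    ring
  have hmono : ∀ (u : (E' → Bool) → ℝ), (∀ ω ω' : E' → Bool, (∀ e, ω e = true → ω' e = true) → u ω' ≤ u ω) →
      Monotone (fun ω => 1 - u ω) := by
    intro u hu ω ω' hω
    have h2 : u ω' ≤ u ω := hu ω ω' fun e he => by
      have h3 := hω e
      rw [he] at h3
      exact top_le_iff.1 h3
    show 1 - u ω ≤ 1 - u ω'
    linarith
  have hμ : ∀ a b : E' → Bool, wt p a * wt p b ≤ wt p (a ⊓ b) * wt p (a ⊔ b) := by
    intro a b
    refine le_of_eq ?_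
    unfold wt
    rw [← Finset.prod_mul_distrib, ← Finset.prod_mul_distrib]
    refine Finset.prod_congr rfl fun e _ => ?_
    rw [Pi.inf_apply, Pi.sup_apply]
    cases a e <;> cases b e <;> simp [mul_comm]
  have key := fkg (μ := fun ω : E' → Bool => wt p ω) (f := fun ω => 1 - f ω) (g := fun ω => 1 - g ω)
    (fun ω => wt_nonneg h0 h1 ω) (fun ω => sub_nonneg.2 (hf1 ω)) (fun ω => sub_nonneg.2 (hg1 ω))
    (hmono f hf) (hmono g hg) hμ
  have hone : ∑ ω : E' → Bool, wt p ω = 1 := by
    have := Ex_const (E := E') p 1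
    unfold Ex at this
    simpa using this
  have k2 : Ex p (fun ω => 1 - f ω) * Ex p (fun ω => 1 - g ω) ≤ Ex p (fun ω => (1 - f ω) * (1 - g ω)) := by
    unfold Ex
    rw [hone, one_mul] at key
    exact key
  rw [h1', h1'] at k2
  have e3 : ∀ ω : E' → Bool, (1 - f ω) * (1 - g ω) = (1 - f ω) + ((-1) * g ω + f ω * g ω) := fun ω => by ring
  rw [Ex_congr e3, Ex_add, Ex_add, h1', Ex_mul_left] at k2
  nlinarith

/-- The probability that the cluster of `S` has no green vertex; every vertex is green with probability `h`. -/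
noncomputable def bb (ends' : E' → Sym2 V') (p h : ℝ) (S : Finset V') (R' : Finset E') : ℝ :=
  Ex p (fun ω => (1 - h) ^ (cuS ends' (cls R' ω) S).card)

private lemma A7_pow {h : ℝ} (hh0 : 0 ≤ h) (hh1 : h ≤ 1) {a b : ℕ} (hab : a ≤ b) :
    (1 - h) ^ b ≤ (1 - h) ^ a :=
  pow_le_pow_of_le_one (by linarith) (by linarith) hab

private lemma A7_cls {R' : Finset E'} {ω : E' → Bool} {e : E'} (h : cls R' ω e = true) :
    e ∉ R' ∧ ω e = true := by
  unfold cls at h
  by_cases he : e ∈ R'
  · rw [if_pos he] at h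
    exact absurd h (by simp)
  · rw [if_neg he] at h
    exact ⟨he, h⟩

private lemma A7_cls_mono {R' : Finset E'} {ω ω' : E' → Bool} (h : ∀ e, ω e = true → ω' e = true) :
    ∀ e, cls R' ω e = true → cls R' ω' e = true := by
  intro e he
  obtain ⟨h1, h2⟩ := A7_cls he
  unfold cls
  rw [if_neg h1]
  exact h e h2

/-- Row A7. `|cuS (insert z S)| ≤ |cuS S| + |cu z|`, `harris`, and `Ex p ((1-h)^|cu (cls R' ω) z|) ≥ Ex p ((1-h)^|cu ω z|) ≥ 1 - M`. -/
lemma bb_insert {p h M : ℝ} (h0 : 0 ≤ p) (h1 : p ≤ 1) (hh0 : 0 ≤ h) (hh1 : h ≤ 1) (hM : ∀ v, Ex p (fun ω => 1 - (1 - h) ^ (cu ends' ω v).card) ≤ M) (S : Finset V') (R' : Finset E') (z : V') :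
    (1 - M) * bb ends' p h S R' ≤ bb ends' p h (insert z S) R' := by
  have hq0 : (0 : ℝ) ≤ 1 - h := by linarith
  have hq1 : 1 - h ≤ 1 := by linarith
  have hg : 1 - M ≤ Ex p (fun ω => (1 - h) ^ (cu ends' (cls R' ω) z).card) := by
    have e1 : Ex p (fun ω => 1 - (1 - h) ^ (cu ends' ω z).card) =
        1 - Ex p (fun ω => (1 - h) ^ (cu ends' ω z).card) := by
      have e2 := Ex_add p (fun ω => 1 - (1 - h) ^ (cu ends' ω z).card)
        (fun ω => (1 - h) ^ (cu ends' ω z).card)
      have e3 : Ex p (fun ω : E' → Bool => (1 - (1 - h) ^ (cu ends' ω z).card) +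
          (1 - h) ^ (cu ends' ω z).card) = 1 := by
        rw [Ex_congr (g := fun _ => (1 : ℝ)) (fun ω => by ring), Ex_const]
      linarith
    have e4 := hM z
    rw [e1] at e4
    have e5 : Ex p (fun ω => (1 - h) ^ (cu ends' ω z).card) ≤
        Ex p (fun ω => (1 - h) ^ (cu ends' (cls R' ω) z).card) :=
      Ex_mono h0 h1 fun ω => A7_pow hh0 hh1 (Finset.card_le_card
        (cl_mono (fun e he => (A7_cls he).2) le_rfl))
    linarith
  have hf : 0 ≤ bb ends' p h S R' := Ex_nonneg h0 h1 fun ω => pow_nonneg hq0 _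
  have hh := harris (E' := E') h0 h1 (fun ω => (1 - h) ^ (cuS ends' (cls R' ω) S).card)
    (fun ω => (1 - h) ^ (cu ends' (cls R' ω) z).card)
    (fun ω => pow_nonneg hq0 _) (fun ω => pow_le_one₀ hq0 hq1)
    (fun ω => pow_nonneg hq0 _) (fun ω => pow_le_one₀ hq0 hq1)
    (fun ω ω' hω => A7_pow hh0 hh1 (Finset.card_le_card (cuS_mono le_rfl (A7_cls_mono hω))))
    (fun ω ω' hω => A7_pow hh0 hh1 (Finset.card_le_card (cl_mono (A7_cls_mono hω) le_rfl)))
  calc (1 - M) * bb ends' p h S R'
      ≤ Ex p (fun ω => (1 - h) ^ (cu ends' (cls R' ω) z).card) * bb ends' p h S R' :=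
        mul_le_mul_of_nonneg_right hg hf
    _ = Ex p (fun ω => (1 - h) ^ (cuS ends' (cls R' ω) S).card) *
          Ex p (fun ω => (1 - h) ^ (cu ends' (cls R' ω) z).card) := by
        rw [mul_comm]
        rfl
    _ ≤ _ := hh
    _ ≤ bb ends' p h (insert z S) R' := by
        refine Ex_mono h0 h1 fun ω => ?_
        rw [← pow_add]
        apply A7_pow hh0 hh1
        unfold cuS
        rw [Finset.biUnion_insert, add_comm]
        exact Finset.card_union_le _ _

open scoped Classical in
/-- The other ends of the edges at `S` which have not been examined. -/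
noncomputable def Zo (ends' : E' → Sym2 V') (S : Finset V') (R' : Finset E') : Finset V' :=
  Finset.univ.filter (fun z => z ∉ S ∧ ∃ x ∈ S, ∃ e', e' ∉ R' ∧ ends' e' = s(x, z))

/-- Row A7. `cuS (cls R' ω) S ⊆ S ∪ cuS (cls R' ω) (Zo S R')`, so `bb S R' ≥ (1-h)^|S| bb (Zo S R') R'`, and `bb T R' ≥ (1-M)^|T|` by induction on `T` (`bb_insert`). -/
lemma bb_term {p h M : ℝ} (h0 : 0 ≤ p) (h1 : p ≤ 1) (hh0 : 0 ≤ h) (hh1 : h ≤ 1) (hM1 : M ≤ 1) (hM : ∀ v, Ex p (fun ω => 1 - (1 - h) ^ (cu ends' ω v).card) ≤ M) (S : Finset V') (R' : Finset E') :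
    (1 - h) ^ S.card * (1 - M) ^ (Zo ends' S R').card ≤ bb ends' p h S R' := by
  have hq0 : (0 : ℝ) ≤ 1 - h := by linarith
  have hT : ∀ T : Finset V', (1 - M) ^ T.card ≤ bb ends' p h T R' := by
    intro T
    induction T using Finset.induction_on with
    | empty =>
      have e : bb ends' p h (∅ : Finset V') R' = 1 := by
        unfold bb cuS
        rw [Ex_congr (g := fun _ => (1 : ℝ)) (fun ω => by
          rw [Finset.biUnion_empty, Finset.card_empty, pow_zero]), Ex_const]
      rw [e, Finset.card_empty, pow_zero]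
    | insert z T hz ih =>
      rw [Finset.card_insert_of_notMem hz, pow_succ, mul_comm]
      exact (mul_le_mul_of_nonneg_left ih (by linarith)).trans
        (bb_insert h0 h1 hh0 hh1 hM T R' z)
  have hsub : ∀ ω : E' → Bool, cuS ends' (cls R' ω) S ⊆
      S ∪ cuS ends' (cls R' ω) (Zo ends' S R') := by
    intro ω v hv
    unfold cuS at hv
    rw [Finset.mem_biUnion] at hv
    obtain ⟨x, hx, hv⟩ := hv
    rw [mem_cu] at hv
    induction hv with
    | refl => exact Finset.mem_union_left _ hx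
    | @tail c d _ hcd ih =>
      obtain ⟨-, -, e, h3, h4⟩ := hcd
      rcases Finset.mem_union.1 ih with hc | hc
      · by_cases hd : d ∈ S
        · exact Finset.mem_union_left _ hd
        · refine Finset.mem_union_right _ (sub_cuS _ _ ?_)
          unfold Zo
          rw [Finset.mem_filter]
          exact ⟨Finset.mem_univ _, hd, c, hc, e, (A7_cls h3).1, h4⟩
      · refine Finset.mem_union_right _ ?_
        unfold cuS at hc ⊢
        rw [Finset.mem_biUnion] at hc ⊢
        obtain ⟨y, hy, hc⟩ := hc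
        refine ⟨y, hy, ?_⟩
        rw [mem_cu] at hc ⊢
        exact Relation.ReflTransGen.tail hc ⟨trivial, trivial, e, h3, h4⟩
  calc (1 - h) ^ S.card * (1 - M) ^ (Zo ends' S R').card
      ≤ (1 - h) ^ S.card * bb ends' p h (Zo ends' S R') R' :=
        mul_le_mul_of_nonneg_left (hT _) (pow_nonneg hq0 _)
    _ ≤ bb ends' p h S R' := by
        unfold bb
        rw [← Ex_mul_left]
        refine Ex_mono h0 h1 fun ω => ?_
        rw [← pow_add]
        exact A7_pow hh0 hh1 ((Finset.card_le_card (hsub ω)).trans (Finset.card_union_le _ _))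

open scoped Classical in
/-- The wraps of `S` through edges of `R'`: an edge from `x ∈ S` to `z`, and `y ∈ S` with `π y = π z`, `y ≠ z`. -/
noncomputable def Wr (ends' : E' → Sym2 V') (π : V' → V) (S : Finset V') (R' : Finset E') : Finset (V' × V' × V') :=
  Finset.univ.filter (fun t => t.1 ∈ S ∧ t.2.2 ∈ S ∧ π t.2.2 = π t.2.1 ∧ t.2.2 ≠ t.2.1 ∧ ∃ e' ∈ R', ends' e' = s(t.1, t.2.1))

/-- Row A8. The end of the exploration. For `z ∈ Zo S R'` (edge `e' ∉ R'` from `x ∈ S` to `z ∉ S`): `ρ e' ∈ R`, so there is `e1 ∈ R'` with `ρ e1 = ρ e'`, `ends' e1 = s(x1, z1)`, `x1 ∈ S`; `s(π x, π z) = s(π x1, π z1)` (`Cov.proj`). If `π x = π x1` then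
`x = x1` and `e' = e1` (`star`), a contradiction; so `π z = π x1`: the triple `(x, z, x1)` is in `Wr S univ` and not in `Wr S R'` (`Cov.inj`). These triples are different for different `z`. -/
lemma Wr_end (hc : Cov ends ends' π ρ ht o) {S : Finset V'} {R : Finset E} {R' : Finset E'} (hinj : Set.InjOn π S)
    (h2 : ∀ e ∈ R, ∃ e1 ∈ R', ρ e1 = e ∧ ∃ x1 ∈ S, ∃ z1, ends' e1 = s(x1, z1)) (h3 : ¬ ∃ t, Av ends' ρ S R t) :
    (Zo ends' S R').card + (Wr ends' π S R').card ≤ (Wr ends' π S Finset.univ).card := by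
  classical
  have hsub : Wr ends' π S R' ⊆ Wr ends' π S Finset.univ := by
    intro t ht
    simp only [Wr, Finset.mem_filter, Finset.mem_univ, true_and] at ht ⊢
    obtain ⟨a1, a2, a3, a4, e', he', hee⟩ := ht
    exact ⟨a1, a2, a3, a4, e', hee⟩
  have key : ∀ z ∈ Zo ends' S R', ∃ xy : V' × V', (xy.1, z, xy.2) ∈ Wr ends' π S Finset.univ \ Wr ends' π S R' := by
    intro z hz
    simp only [Zo, Finset.mem_filter, Finset.mem_univ, true_and] at hz
    obtain ⟨hzS, x, hx, e', heR, hee⟩ := hz
    have hρ : ρ e' ∈ R := by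
      by_contra hn
      exact h3 ⟨(e', x, z), hx, hee, hn⟩
    obtain ⟨e1, he1, hρe, x1, hx1, z1, hee1⟩ := h2 _ hρ
    have q1 : ends (ρ e') = s(π x, π z) := by rw [hc.proj, hee, Sym2.map_mk]
    have q2 : ends (ρ e') = s(π x1, π z1) := by rw [← hρe, hc.proj, hee1, Sym2.map_mk]
    rw [q1, Sym2.eq_iff] at q2
    rcases q2 with ⟨u1, u2⟩ | ⟨u1, u2⟩
    · have hxx : x = x1 := hinj hx hx1 u1
      rw [← hxx] at hee1
      have hee' : e' = e1 := hc.star x z z1 e' e1 hee hee1 hρe.symm
      rw [← hee'] at he1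
      exact absurd he1 heR
    · refine ⟨(x, x1), ?_⟩
      simp only [Wr, Finset.mem_sdiff, Finset.mem_filter, Finset.mem_univ, true_and]
      refine ⟨⟨hx, hx1, u2.symm, ?_, e', hee⟩, ?_⟩
      · intro h
        rw [h] at hx1
        exact hzS hx1
      · rintro ⟨-, -, -, -, e2, he2, hee2⟩
        have : e2 = e' := hc.inj (by rw [hee2, hee])
        rw [this] at he2
        exact heR he2
  choose! f hf using key
  have hcard : (Zo ends' S R').card ≤ (Wr ends' π S Finset.univ \ Wr ends' π S R').card := by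
    refine Finset.card_le_card_of_injOn (fun z => ((f z).1, z, (f z).2)) ?_ ?_
    · intro z hz
      exact hf z hz
    · intro z _ z' _ h
      simp only [Prod.mk.injEq] at h
      exact h.2.1
  rw [Finset.card_sdiff_of_subset hsub] at hcard
  have hle := Finset.card_le_card hsub
  omega

private lemma A9_Wr_mono {S S2 : Finset V'} {R R2 : Finset E'} (hS : S ⊆ S2) (hR : R ⊆ R2) :
    Wr ends' π S R ⊆ Wr ends' π S2 R2 := by
  intro t ht
  simp only [Wr, mem_filter, mem_univ, true_and] at ht ⊢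
  obtain ⟨a, b, c, d, e', he', hh⟩ := ht
  exact ⟨hS a, hS b, c, d, e', hR he', hh⟩

private lemma A9_term {p h M : ℝ} (hc : Cov ends ends' π ρ ht o) (h0 : 0 ≤ p) (h1 : p ≤ 1) (hh0 : 0 ≤ h) (hh1 : h ≤ 1) (hM0 : 0 ≤ M) (hM1 : M ≤ 1)
    (hM : ∀ v, Ex p (fun ω => 1 - (1 - h) ^ (cu ends' ω v).card) ≤ M) (S : Finset V') (R : Finset E) (R' : Finset E') (r : ℕ) (hinj : Set.InjOn π S)
    (h2 : ∀ e ∈ R, ∃ e1 ∈ R', ρ e1 = e ∧ ∃ x1 ∈ S, ∃ z1, ends' e1 = s(x1, z1)) (hr : r ≤ (Wr ends' π S R').card) (h3 : ¬ ∃ t, Av ends' ρ S R t) :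
    (1 - h) ^ S.card * (1 - M) ^ (Wr ends' π S Finset.univ).card ≤ bb ends' p h S R' * (1 - M) ^ r := by
  have a1 := Wr_end hc hinj h2 h3
  have a2 := bb_term h0 h1 hh0 hh1 hM1 hM S R'
  have b0 : 0 ≤ 1 - M := by linarith
  have b1 : 1 - M ≤ 1 := by linarith
  have b2 : 0 ≤ 1 - h := by linarith
  calc (1 - h) ^ S.card * (1 - M) ^ (Wr ends' π S Finset.univ).card
      ≤ (1 - h) ^ S.card * (1 - M) ^ ((Zo ends' S R').card + r) :=
        mul_le_mul_of_nonneg_left (pow_le_pow_of_le_one b0 b1 (by omega)) (pow_nonneg b2 _)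
    _ = ((1 - h) ^ S.card * (1 - M) ^ (Zo ends' S R').card) * (1 - M) ^ r := by rw [pow_add]; ring
    _ ≤ _ := mul_le_mul_of_nonneg_right a2 (pow_nonneg b0 _)

private lemma A9_main {p h M : ℝ} (hc : Cov ends ends' π ρ ht o) (h0 : 0 ≤ p) (h1 : p ≤ 1) (hh0 : 0 ≤ h) (hh1 : h ≤ 1) (hM0 : 0 ≤ M) (hM1 : M ≤ 1)
    (hM : ∀ v, Ex p (fun ω => 1 - (1 - h) ^ (cu ends' ω v).card) ≤ M) (k : ℕ) :
    ∀ (S : Finset V') (R : Finset E) (R' : Finset E') (r : ℕ), (Finset.univ \ R).card ≤ k → Set.InjOn π S → (∀ e' ∈ R', ρ e' ∈ R) →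
      (∀ e ∈ R, ∃ e1 ∈ R', ρ e1 = e ∧ ∃ x1 ∈ S, ∃ z1, ends' e1 = s(x1, z1)) → r ≤ (Wr ends' π S R').card →
      Ex p (fun ω => (1 - h) ^ (expl ends' π ρ ω k S R).card * (1 - M) ^ (Wr ends' π (expl ends' π ρ ω k S R) Finset.univ).card) ≤
        bb ends' p h S R' * (1 - M) ^ r := by
  induction k with
  | zero =>
    intro S R R' r hk hinj hR h2 hr
    have h3 : ¬ ∃ t, Av ends' ρ S R t := by
      rintro ⟨t, -, -, ht⟩
      have h4 : (Finset.univ \ R) = ∅ := Finset.card_eq_zero.mp (Nat.le_zero.mp hk)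
      have h5 : ρ t.1 ∈ (Finset.univ \ R) := Finset.mem_sdiff.mpr ⟨mem_univ _, ht⟩
      rw [h4] at h5
      exact absurd h5 (Finset.notMem_empty _)
    have h6 := A9_term hc h0 h1 hh0 hh1 hM0 hM1 hM S R R' r hinj h2 hr h3
    simp only [expl]
    rw [Ex_const]
    exact h6
  | succ k ih =>
    intro S R R' r hk hinj hR h2 hr
    by_cases h3 : ∃ t, Av ends' ρ S R t
    · obtain ⟨⟨e', x, z⟩, ht, hstep⟩ := expl_Ex (π := π) p (fun T => (1 - h) ^ T.card * (1 - M) ^ (Wr ends' π T Finset.univ).card) h3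
      have hx : x ∈ S := ht.1
      have he : ends' e' = s(x, z) := ht.2.1
      have hρ : ρ e' ∉ R := ht.2.2
      have hR' : e' ∉ R' := fun hh => hρ (hR e' hh)
      have b0 : 0 ≤ 1 - M := by linarith
      have hcard : (Finset.univ \ insert (ρ e') R).card ≤ k := by
        have h7 : (Finset.univ \ insert (ρ e') R) = (Finset.univ \ R).erase (ρ e') := by
          ext a
          simp only [mem_sdiff, mem_univ, true_and, mem_insert, mem_erase, not_or]
        rw [h7, Finset.card_erase_of_mem (Finset.mem_sdiff.mpr ⟨mem_univ _, hρ⟩)]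
        omega
      have hR2 : ∀ e'' ∈ insert e' R', ρ e'' ∈ insert (ρ e') R := by
        intro e'' h8
        rcases Finset.mem_insert.mp h8 with h9 | h9
        · rw [h9]; exact Finset.mem_insert_self _ _
        · exact Finset.mem_insert_of_mem (hR e'' h9)
      have h22 : ∀ e ∈ insert (ρ e') R, ∃ e1 ∈ insert e' R', ρ e1 = e ∧ ∃ x1 ∈ S, ∃ z1, ends' e1 = s(x1, z1) := by
        intro e h8
        rcases Finset.mem_insert.mp h8 with h9 | h9
        · exact ⟨e', Finset.mem_insert_self _ _, h9.symm, x, hx, z, he⟩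
        · obtain ⟨e1, h10, h11, x1, h12, z1, h13⟩ := h2 e h9
          exact ⟨e1, Finset.mem_insert_of_mem h10, h11, x1, h12, z1, h13⟩
      have hW1 : r ≤ (Wr ends' π S (insert e' R')).card :=
        hr.trans (Finset.card_le_card (A9_Wr_mono (Finset.Subset.refl _) (Finset.subset_insert _ _)))
      have hclosed := ih S (insert (ρ e') R) (insert e' R') r hcard hinj hR2 h22 hW1
      have hopen : Ex p (fun ω => (1 - h) ^ (expl ends' π ρ ω k (if π z ∉ S.image π then insert z S else S) (insert (ρ e') R)).card *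
          (1 - M) ^ (Wr ends' π (expl ends' π ρ ω k (if π z ∉ S.image π then insert z S else S) (insert (ρ e') R)) Finset.univ).card) ≤
          bb ends' p h (insert z S) (insert e' R') * (1 - M) ^ r := by
        by_cases hz : π z ∉ S.image π
        · simp only [if_pos hz]
          refine ih (insert z S) (insert (ρ e') R) (insert e' R') r hcard ?_ hR2 ?_ ?_
          · rw [Finset.coe_insert]
            have hzS : z ∉ (S : Set V') := fun hh => hz (Finset.mem_image_of_mem π (Finset.mem_coe.mp hh))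
            rw [Set.injOn_insert hzS]
            refine ⟨hinj, ?_⟩
            rintro ⟨y, hy, hyz⟩
            exact hz (hyz ▸ Finset.mem_image_of_mem π (Finset.mem_coe.mp hy))
          · intro e h8
            obtain ⟨e1, h10, h11, x1, h12, z1, h13⟩ := h22 e h8
            exact ⟨e1, h10, h11, x1, Finset.mem_insert_of_mem h12, z1, h13⟩
          · exact hr.trans (Finset.card_le_card (A9_Wr_mono (Finset.subset_insert _ _) (Finset.subset_insert _ _)))
        · simp only [if_neg hz]
          have hz' : π z ∈ S.image π := not_not.mp hz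
          obtain ⟨y, hy, hyz⟩ := Finset.mem_image.mp hz'
          by_cases hyz' : y = z
          · have hins : insert z S = S := Finset.insert_eq_of_mem (hyz' ▸ hy)
            rw [hins]
            exact hclosed
          · have hW2 : r + 1 ≤ (Wr ends' π S (insert e' R')).card := by
              have h14 : (x, z, y) ∉ Wr ends' π S R' := by
                intro hh
                simp only [Wr, mem_filter, mem_univ, true_and] at hh
                obtain ⟨-, -, -, -, e2, he2, hh2⟩ := hh
                have h15 : e2 = e' := hc.inj (hh2.trans he.symm)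
                exact hR' (h15 ▸ he2)
              have h16 : insert (x, z, y) (Wr ends' π S R') ⊆ Wr ends' π S (insert e' R') := by
                intro t htt
                rcases Finset.mem_insert.mp htt with h17 | h17
                · rw [h17]
                  simp only [Wr, mem_filter, mem_univ, true_and]
                  exact ⟨hx, hy, hyz, hyz', e', Finset.mem_insert_self _ _, he⟩
                · exact A9_Wr_mono (Finset.Subset.refl _) (Finset.subset_insert _ _) h17
              have h18 := Finset.card_le_card h16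
              rw [Finset.card_insert_of_notMem h14] at h18
              omega
            have h19 := ih S (insert (ρ e') R) (insert e' R') (r + 1) hcard hinj hR2 h22 hW2
            refine h19.trans ?_
            have h20 := bb_insert h0 h1 hh0 hh1 hM S (insert e' R') z
            calc bb ends' p h S (insert e' R') * (1 - M) ^ (r + 1) = ((1 - M) * bb ends' p h S (insert e' R')) * (1 - M) ^ r := by
                  rw [pow_succ]; ring
              _ ≤ _ := mul_le_mul_of_nonneg_right h20 (pow_nonneg b0 _)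
      have hbb : bb ends' p h S R' = p * bb ends' p h (insert z S) (insert e' R') + (1 - p) * bb ends' p h S (insert e' R') :=
        cuS_Ex p (fun T => (1 - h) ^ T.card) hx he hR'
      have hstep' := hstep k
      simp only at hstep'
      rw [hstep', hbb]
      calc _ ≤ p * (bb ends' p h (insert z S) (insert e' R') * (1 - M) ^ r) + (1 - p) * (bb ends' p h S (insert e' R') * (1 - M) ^ r) :=
            add_le_add (mul_le_mul_of_nonneg_left hopen h0) (mul_le_mul_of_nonneg_left hclosed (by linarith))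
        _ = _ := by ring
    · have h6 := A9_term hc h0 h1 hh0 hh1 hM0 hM1 hM S R R' r hinj h2 hr h3
      have h7 : (fun ω => (1 - h) ^ (expl ends' π ρ ω (k + 1) S R).card * (1 - M) ^ (Wr ends' π (expl ends' π ρ ω (k + 1) S R) Finset.univ).card) =
          fun _ => (1 - h) ^ S.card * (1 - M) ^ (Wr ends' π S Finset.univ).card := by
        funext ω
        rw [expl_none ω k h3]
      rw [h7, Ex_const]
      exact h6

/-- Row A9. The lower comparison. Let `f S = (1-h)^|S| (1-M)^|Wr S univ|`. Claim, by induction on `k` for all `S`, `R`, `R'`, `r`: if `|univ \ R| ≤ k`, `π` is injective on `S`, `∀ e' ∈ R', ρ e' ∈ R`, `∀ e ∈ R, ∃ e1 ∈ R', ρ e1 = e ∧ ∃ x1 ∈ S, ∃ z1, ends' e1 = s(x1, z1)`,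
`r ≤ |Wr S R'|`, then `Ex p (f (expl k S R)) ≤ bb S R' * (1-M)^r`. Nothing available (always if `k = 0`, as then `R = univ`): `bb_term`, `Wr_end`. Otherwise (`expl_Ex`, `cuS_Ex` with `t = (e', x, z)`): closed: induction with `insert (ρ e') R`, `insert e' R'`; open and
`π z ∉ S.image π`: induction with `insert z S`; open and `π z = π y`, `y ∈ S`: if `y = z` then `insert z S = S`; if `y ≠ z` then `(1-M) bb S (insert e' R') ≤ bb (insert z S) (insert e' R')` (`bb_insert`) and the induction hypothesis for `r + 1`: the triple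
`(x, z, y)` is in `Wr S (insert e' R')` and not in `Wr S R'` (`Cov.inj`). Finally `S = {o}`, `R = ∅`, `R' = ∅`, `r = 0`. -/
theorem cmp_low {p h M : ℝ} (hc : Cov ends ends' π ρ ht o) (h0 : 0 ≤ p) (h1 : p ≤ 1) (hh0 : 0 ≤ h) (hh1 : h ≤ 1) (hM1 : M ≤ 1)
    (hM : ∀ v, Ex p (fun ω => 1 - (1 - h) ^ (cu ends' ω v).card) ≤ M) :
    Ex p (fun ω => (1 - h) ^ (Sf ends' π ρ o ω).card * (1 - M) ^ (Wr ends' π (Sf ends' π ρ o ω) Finset.univ).card) ≤
      Ex p (fun ω => (1 - h) ^ (cu ends' ω o).card) := by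
  have hM0 : 0 ≤ M := by
    refine le_trans ?_ (hM o)
    apply Ex_nonneg h0 h1
    intro ω
    have h2 : (1 - h) ^ (cu ends' ω o).card ≤ 1 := pow_le_one₀ (by linarith) (by linarith)
    linarith
  have h3 := A9_main hc h0 h1 hh0 hh1 hM0 hM1 hM (Fintype.card E) {o} ∅ ∅ 0 (by rw [Finset.sdiff_empty, Finset.card_univ])
    (by rw [Finset.coe_singleton]; exact Set.injOn_singleton π o) (by intro e' he'; exact absurd he' (Finset.notMem_empty _))
    (by intro e he; exact absurd he (Finset.notMem_empty _)) (Nat.zero_le _)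
  rw [pow_zero, mul_one] at h3
  refine h3.trans (le_of_eq ?_)
  unfold bb
  apply Ex_congr
  intro ω
  have h4 : cls (∅ : Finset E') ω = ω := by
    funext e
    simp [cls]
  have h5 : cuS ends' ω {o} = cu ends' ω o := by
    unfold cuS
    exact Finset.singleton_biUnion
  rw [h4, h5]

/-- Row A10. `|Sf| = |cu (π o)|` (`Sf_cl`), and `(1-M)^w ≥ 1 - min 1 (M w)` (`one_add_mul_le_pow`, `0 ≤ M ≤ 1`), `cmp_low`. (`M ≥ 0` follows from `hM`.) -/
theorem cmp_M {p h M : ℝ} (hc : Cov ends ends' π ρ ht o) (h0 : 0 ≤ p) (h1 : p ≤ 1) (hh0 : 0 ≤ h) (hh1 : h ≤ 1) (hM1 : M ≤ 1)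
    (hM : ∀ v, Ex p (fun ω => 1 - (1 - h) ^ (cu ends' ω v).card) ≤ M) :
    Ex p (fun ω => 1 - (1 - h) ^ (cu ends' ω o).card) ≤ Ex p (fun ω => 1 - (1 - h) ^ (cu ends ω (π o)).card) +
      Ex p (fun ω => (1 - h) ^ (cu ends ω (π o)).card * min 1 (M * ((Wr ends' π (Sf ends' π ρ o ω) Finset.univ).card : ℝ))) := by
  have hlow := cmp_low (p := p) (h := h) (M := M) hc h0 h1 hh0 hh1 hM1 hM
  have hh : (0 : ℝ) ≤ 1 - h := by linarith
  have hM0 : 0 ≤ M := by
    refine le_trans ?_ (hM o)
    refine Ex_nonneg h0 h1 (fun ω => ?_)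
    have : (1 - h) ^ (cu ends' ω o).card ≤ 1 := pow_le_one₀ hh (by linarith)
    linarith
  have hcard : ∀ ω, (Sf ends' π ρ o ω).card = (cu ends ω (π o)).card := by
    intro ω
    obtain ⟨hi, hs⟩ := Sf_cl hc ω
    rw [← hs, Finset.card_image_of_injOn hi]
  have key : Ex p (fun ω => (1 - h) ^ (cu ends ω (π o)).card) ≤
      Ex p (fun ω => (1 - h) ^ (cu ends' ω o).card) +
      Ex p (fun ω => (1 - h) ^ (cu ends ω (π o)).card * min 1 (M * ((Wr ends' π (Sf ends' π ρ o ω) Finset.univ).card : ℝ))) := by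
    refine le_trans ?_ (add_le_add_left hlow _)
    rw [← Ex_add]
    refine Ex_mono h0 h1 (fun ω => ?_)
    rw [hcard ω]
    set w := (Wr ends' π (Sf ends' π ρ o ω) Finset.univ).card
    have ha : (0 : ℝ) ≤ (1 - h) ^ (cu ends ω (π o)).card := pow_nonneg hh _
    have hb0 : (0 : ℝ) ≤ (1 - M) ^ w := pow_nonneg (by linarith) _
    have hb1 : 1 - M * (w : ℝ) ≤ (1 - M) ^ w := by
      have := one_add_mul_le_pow (a := -M) (by linarith) w
      have e1 : (1 + -M) = 1 - M := by ring
      rw [e1] at this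
      linarith
    have hb : 1 ≤ (1 - M) ^ w + min 1 (M * (w : ℝ)) := by
      rcases le_total 1 (M * (w : ℝ)) with h2 | h2
      · rw [min_eq_left h2]; linarith
      · rw [min_eq_right h2]; linarith
    nlinarith [mul_le_mul_of_nonneg_left hb ha]
  have e1 : Ex p (fun ω => 1 - (1 - h) ^ (cu ends' ω o).card) + Ex p (fun ω => (1 - h) ^ (cu ends' ω o).card) = 1 := by
    rw [← Ex_add]
    exact (Ex_congr (g := fun _ => (1 : ℝ)) (fun ω => by ring)).trans (Ex_const p 1)
  have e2 : Ex p (fun ω => 1 - (1 - h) ^ (cu ends ω (π o)).card) + Ex p (fun ω => (1 - h) ^ (cu ends ω (π o)).card) = 1 := by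
    rw [← Ex_add]
    exact (Ex_congr (g := fun _ => (1 : ℝ)) (fun ω => by ring)).trans (Ex_const p 1)
  linarith

end Pool.Agent.PERC29.QQ
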