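import Pool.Agent.Lib.MP_29e17e_pr.Q.Cv
import Pool.Agent.Lib.MP_29e17e_pr.O.To
import Pool.Agent.Lib.MP_29e17e_pr.Z.Vz

set_option autoImplicit false
set_option linter.unusedSectionVars false

/-! Rows 29c-D1 .. D7: the density of the giant on the torus, and the assembly for the whole range. -/

open Finset Filter Topology

namespace Pool.Agent.PERC29.QQ

open Pool.Agent.PERC29 Pool.Agent.PERC29.AE Pool.Agent.PERC29.OB Pool.Agent.PERC29.DZ

/-- The two-point function in all boxes below `p`. -/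
def EB (d : ℕ) (C c s0 p : ℝ) : Prop :=
  ∀ (l : ℕ) (s : ℝ), 0 < s → s ≤ s0 → ∀ x y : Fin d → Fin l, ta (gends (boxG d l)) (p - s) x y ≤ C * ek (d - 2) (c * Real.sqrt s) x y

/-- Row D1. `ui_ex` (in the box of side `2 N + 1`, `N = n^d`, at the centre) with `min η 1`, `tail_up`; `1[B/ε² ≤ cz] ≤ 1[A1/ε² ≤ cz]`. -/
theorem dens_up (d : ℕ) (hd : 9 ≤ d) (C c0 cp s0 η : ℝ) (hC : 1 ≤ C) (hc0 : 0 < c0) (hcp : 0 < cp) (hcp1 : cp ≤ 1) (hs0 : 0 < s0) (hη : 0 < η) :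
    ∃ A1 ε0 : ℝ, 1 ≤ A1 ∧ 0 < ε0 ∧ ∀ (n : ℕ) [NeZero n] [Fintype (torG d n).edgeSet] (p ε B : ℝ), 3 ≤ n →
      cp ≤ p → cp ≤ 1 - p → 0 < ε → ε ≤ ε0 → (∀ l : ℕ, Hyp d C c0 p l) → HypT d C p s0 → A1 ≤ B →
      fT d n (p + ε) (B / ε ^ 2) ≤ th d (p + ε) + η * ε := by
  classical
  obtain ⟨A1, ε0, hA1, hε0, h⟩ := ui_ex d hd C c0 cp s0 (min η 1) hC hc0 hcp hcp1 hs0
    (lt_min hη one_pos) (min_le_right _ _)
  refine ⟨A1, min ε0 cp, hA1, lt_min hε0 hcp, ?_⟩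
  intro n _ _ p ε B hn hp hp1 hε hεle hH hHT hB
  have g1 : ε ≤ ε0 := hεle.trans (min_le_left _ _)
  have g2 : ε ≤ cp := hεle.trans (min_le_right _ _)
  have h0 : 0 ≤ p + ε := by linarith
  have h1 : p + ε ≤ 1 := by linarith
  have hm : min η 1 * ε ≤ η * ε := mul_le_mul_of_nonneg_right (min_le_left _ _) hε.le
  have hu := h p ε hp hp1 hε g1 hH hHT (2 * n ^ d + 1) (ctr d (n ^ d))
  have ht := tail_up (N := n ^ d) hn le_rfl h0 h1 (B / ε ^ 2)
  have hAB : A1 / ε ^ 2 ≤ B / ε ^ 2 := div_le_div_of_nonneg_right hB (by positivity)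
  have hmono : Ex (p + ε) (fun ω => if B / ε ^ 2 ≤ cz (gends (boxG d (2 * n ^ d + 1))) ω (ctr d (n ^ d)) then (1 : ℝ) else 0) ≤
      Ex (p + ε) (fun ω => if A1 / ε ^ 2 ≤ cz (gends (boxG d (2 * n ^ d + 1))) ω (ctr d (n ^ d)) then (1 : ℝ) else 0) := by
    refine Ex_mono h0 h1 fun ω => ?_
    by_cases hc : B / ε ^ 2 ≤ cz (gends (boxG d (2 * n ^ d + 1))) ω (ctr d (n ^ d))
    · rw [if_pos hc, if_pos (hAB.trans hc)]
    · rw [if_neg hc]
      split_ifs <;> norm_num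
  refine ht.trans (hmono.trans ?_)
  linarith

/-- The degree of a vertex of the torus. -/
private lemma D2_edeg {d n : ℕ} [NeZero n] [Fintype (torG d n).edgeSet] (v : Fin d → ZMod n) :
    (Finset.univ.filter (fun e : (torG d n).edgeSet => v ∈ gends (torG d n) e)).card ≤ 2 * d := by
  have h1 : (Finset.univ.filter (fun e : (torG d n).edgeSet => v ∈ gends (torG d n) e)).card =
      ((Finset.univ.filter (fun e : (torG d n).edgeSet => v ∈ gends (torG d n) e)).image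
        (Subtype.val : (torG d n).edgeSet → Sym2 (Fin d → ZMod n))).card :=
    (Finset.card_image_of_injective _ Subtype.val_injective).symm
  rw [h1]
  have h2 : ((Finset.univ.filter (fun e : (torG d n).edgeSet => v ∈ gends (torG d n) e)).image
        (Subtype.val : (torG d n).edgeSet → Sym2 (Fin d → ZMod n))) ⊆
      (Finset.univ : Finset (Fin d × Bool)).image
        (fun q => s(v, if q.2 = true then v + Pi.single q.1 1 else v - Pi.single q.1 1)) := by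
    intro w hw
    obtain ⟨e, he, rfl⟩ := Finset.mem_image.1 hw
    have he' : v ∈ (e : Sym2 (Fin d → ZMod n)) := (Finset.mem_filter.1 he).2
    obtain ⟨u, hu⟩ := he'
    have hadj : (torG d n).Adj v u := by
      have := e.2
      rw [hu] at this
      exact this
    obtain ⟨-, i, hi⟩ := hadj
    rcases hi with hi | hi
    · refine Finset.mem_image.2 ⟨(i, true), Finset.mem_univ _, ?_⟩
      rw [hu]
      simp [hi]
    · refine Finset.mem_image.2 ⟨(i, false), Finset.mem_univ _, ?_⟩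
      rw [hu]
      simp [hi]
  refine le_trans (Finset.card_le_card h2) (le_trans Finset.card_image_le ?_)
  rw [Finset.card_univ, Fintype.card_prod, Fintype.card_fin, Fintype.card_bool]
  omega

open scoped Classical in
/-- The tail above `p - ε`. -/
private lemma D2_tail {d : ℕ} {C s0 p ε : ℝ} (hC : 1 ≤ C) (hp : ε ≤ p) (hp1 : p ≤ 1) (hε : 0 ≤ ε) (hs0 : 0 ≤ s0) (hT : TTs d C s0 p)
    (n : ℕ) [NeZero n] [Fintype (torG d n).edgeSet] (x : Fin d → ZMod n) (r : ℝ) (hr : p - ε ≤ r) (hr1 : r ≤ p - ε + s0) (k : ℕ) (hk : 1 ≤ k) :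
    Ex r (fun ω => if (k : ℝ) ≤ cz (gends (torG d n)) ω x then (1 : ℝ) else 0) ≤ C * (1 / Real.sqrt k + (r - (p - ε))) := by
  rcases le_or_gt p r with h | h
  · refine (hT n x r h (by linarith) k hk).trans ?_
    exact mul_le_mul_of_nonneg_left (by linarith) (by linarith)
  · have h2 := hT n x p le_rfl (by linarith) k hk
    refine le_trans ?_ (h2.trans (mul_le_mul_of_nonneg_left (by linarith) (by linarith)))
    refine Ex_mono_p (by linarith) h.le hp1 _ ?_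
    intro ω ω' hω
    have hcz : cz (gends (torG d n)) ω x ≤ cz (gends (torG d n)) ω' x := by
      unfold cz
      exact Nat.cast_le.2 (Finset.card_le_card (cu_mono hω))
    split_ifs with ha hb
    · exact le_rfl
    · exact absurd (ha.trans hcz) hb
    · exact zero_le_one
    · exact le_rfl

/-- Row D2. `F_abs` with `η/4`, `cp/2`, `δ/4`, `Dg = 2 d` (degree: copy `H1_edeg` of Y/Th.lean), base `p - ε`, `s = 2 ε` (`(δ/4) s² = δ ε²`), `M = 7 C ε`, `Wf = WW (SF ω)` (`Sf_loc`, `pr_ctr`): the tail at `r ≥ p` from `TTs`, at `r < p` from the tail at `p`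
(`Ex_mono_p`). `WW_mean` at `p - ε` with `a = c √ε ≤ 1`: `T 7 C ε 8^(6d+8) d³ C³/(c⁶ ε³ n^d) ≤ (η/2) ε` if `ε³ n^d ≥ A' = 14 T C⁴ 8^(6d+8) d³/(c⁶ η)` (plus 1). -/
theorem F_tor (d : ℕ) (hd : 2 ≤ d) (C c cp s0 η δ : ℝ) (hC : 1 ≤ C) (hc : 0 < c) (hcp : 0 < cp) (hcp1 : cp ≤ 1) (hs0 : 0 < s0) (hη : 0 < η) (hδ : 0 < δ) (hδ1 : δ ≤ 1) :
    ∃ A' ε0 : ℝ, 0 < A' ∧ 0 < ε0 ∧ ∀ (n N : ℕ) [NeZero n] [Fintype (torG d n).edgeSet] (p ε : ℝ) (hn : 3 ≤ n), n ^ d ≤ N →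
      cp ≤ p → cp ≤ 1 - p → 0 < ε → ε ≤ ε0 → A' ≤ ε ^ 3 * (n : ℝ) ^ d → EB d C c s0 p → TTs d C s0 p →
      Ex (p + ε) (fun ω => (1 - δ * ε ^ 2) ^ (cu (gends (torG d n)) ω 0).card * min 1 (7 * C * ε * WW d n N (SF d n N (Nat.le_of_succ_le hn) ω))) ≤ η * ε := by
  obtain ⟨T, ε1, hT2, hε1, hF⟩ := F_abs C (cp / 2) (η / 4) s0 (δ / 4) (2 * d) (by linarith) (by linarith) (by linarith) hs0 (by linarith) (by linarith)
  have hdpos : (0 : ℝ) < d := by exact_mod_cast (by omega : 0 < d)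
  have hTpos : 0 < T := by linarith
  have hCpos : 0 < C := by linarith
  set Q : ℝ := 14 * T * C ^ 4 * 8 ^ (6 * d + 8) * (d : ℝ) ^ 3 / (c ^ 6 * η) with hQ
  have hQpos : 0 < Q := by positivity
  refine ⟨Q, min (min (ε1 / 2) s0) (min (1 / c ^ 2) (cp / 2)), hQpos, by positivity, ?_⟩
  intro n N _ _ p ε hn hN hp hp1 hε hεε hA hE hT
  have e1 : ε ≤ ε1 / 2 := hεε.trans ((min_le_left _ _).trans (min_le_left _ _))
  have e2 : ε ≤ s0 := hεε.trans ((min_le_left _ _).trans (min_le_right _ _))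
  have e3 : ε ≤ 1 / c ^ 2 := hεε.trans ((min_le_right _ _).trans (min_le_left _ _))
  have e4 : ε ≤ cp / 2 := hεε.trans ((min_le_right _ _).trans (min_le_right _ _))
  have hn0 : (0 : ℝ) < (n : ℝ) := by exact_mod_cast (by omega : 0 < n)
  have hnd : (0 : ℝ) < (n : ℝ) ^ d := by positivity
  have hsq : Real.sqrt ε ^ 2 = ε := Real.sq_sqrt hε.le
  have hsq0 : 0 < Real.sqrt ε := Real.sqrt_pos.2 hε
  have ha0 : 0 < c * Real.sqrt ε := mul_pos hc hsq0
  have ha1 : c * Real.sqrt ε ≤ 1 := by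
    have h1 : (c * Real.sqrt ε) ^ 2 ≤ 1 := by
      rw [mul_pow, hsq]
      rw [le_div_iff₀ (by positivity)] at e3
      linarith
    exact (sq_le_one_iff₀ ha0.le).1 h1
  have hloc : Lcx (gends (torG d n)) (0 : Fin d → ZMod n) (fun ω => WW d n N (SF d n N (by omega) ω)) := by
    have h1 := Sf_loc (cov_box hn hN) (fun S => WW d n N S)
    rw [pr_ctr] at h1
    exact h1
  have hkey := hF (Fin d → ZMod n) (torG d n).edgeSet (gends (torG d n)) (p - ε) (2 * ε) (7 * C * ε) 0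
    (fun ω => WW d n N (SF d n N (by omega) ω)) (by linarith) (by linarith) (by linarith) (by linarith)
    (fun v => D2_edeg v) (fun r hr hr1 k hk => D2_tail hC (by linarith) (by linarith) hε.le hs0.le hT n 0 r hr hr1 k hk)
    (by positivity) (fun ω => Nat.cast_nonneg _) hloc
  have e5 : p - ε + 2 * ε = p + ε := by ring
  have e6 : δ / 4 * (2 * ε) ^ 2 = δ * ε ^ 2 := by ring
  rw [e5, e6] at hkey
  refine hkey.trans ?_
  have hW := WW_mean (N := N) hd hn hN (p := p - ε) (C := C) (a := c * Real.sqrt ε) (by linarith) (by linarith) hCpos.le ha0 ha1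
    (fun x y => hE (2 * N + 1) ε hε e2 x y)
  have e7 : (c * Real.sqrt ε) ^ 6 * (n : ℝ) ^ d = c ^ 6 * (ε ^ 3 * (n : ℝ) ^ d) := by
    have : Real.sqrt ε ^ 6 = ε ^ 3 := by
      calc Real.sqrt ε ^ 6 = (Real.sqrt ε ^ 2) ^ 3 := by ring
        _ = ε ^ 3 := by rw [hsq]
    rw [mul_pow, this]
    ring
  rw [e7] at hW
  have hden : 0 < c ^ 6 * (ε ^ 3 * (n : ℝ) ^ d) := by positivity
  have hX : 0 < ε ^ 3 * (n : ℝ) ^ d := by positivity
  have h8 : T * (7 * C * ε) * Ex (p - ε) (fun ω => WW d n N (SF d n N (by omega) ω)) ≤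
      T * (7 * C * ε) * (8 ^ (6 * d + 8) * d ^ 3 * C ^ 3 / (c ^ 6 * (ε ^ 3 * (n : ℝ) ^ d))) :=
    mul_le_mul_of_nonneg_left hW (by positivity)
  have h9 : T * (7 * C * ε) * (8 ^ (6 * d + 8) * d ^ 3 * C ^ 3 / (c ^ 6 * (ε ^ 3 * (n : ℝ) ^ d))) ≤ η / 2 * ε := by
    have h10 : 14 * T * C ^ 4 * 8 ^ (6 * d + 8) * (d : ℝ) ^ 3 ≤ (ε ^ 3 * (n : ℝ) ^ d) * (c ^ 6 * η) := by
      rw [hQ, div_le_iff₀ (by positivity)] at hA
      exact hA
    have h11 : T * (7 * C * ε) * (8 ^ (6 * d + 8) * d ^ 3 * C ^ 3 / (c ^ 6 * (ε ^ 3 * (n : ℝ) ^ d))) =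
        (14 * T * C ^ 4 * 8 ^ (6 * d + 8) * (d : ℝ) ^ 3) * ε / (2 * (c ^ 6 * (ε ^ 3 * (n : ℝ) ^ d))) := by
      field_simp
      ring
    rw [h11, div_le_iff₀ (by positivity)]
    have h12 := mul_le_mul_of_nonneg_right h10 hε.le
    calc (14 * T * C ^ 4 * 8 ^ (6 * d + 8) * (d : ℝ) ^ 3) * ε ≤ ε ^ 3 * (n : ℝ) ^ d * (c ^ 6 * η) * ε := h12
      _ = η / 2 * ε * (2 * (c ^ 6 * (ε ^ 3 * (n : ℝ) ^ d))) := by ring
  linarith

/-- Row D3. The arm event: `|cu ctr| ≥ N + 1` if the centre is joined to the boundary of the box of side `2 N + 1` (`nd` changes by at most one along an edge, so the cluster has points at all distances `0, .., N`), so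
`th d q ≤ aM d N q ≤ Ex q (1 - (1-h)^|cu ctr|) + (1-h)^(N+1)` (`th_le`). -/
theorem th_green (d N : ℕ) {q h : ℝ} (h0 : 0 ≤ q) (h1 : q ≤ 1) (hh0 : 0 ≤ h) (hh1 : h ≤ 1) :
    th d q ≤ Ex q (fun ω => 1 - (1 - h) ^ (cu (gends (boxG d (2 * N + 1))) ω (ctr d N)).card) + (1 - h) ^ (N + 1) := by
  classical
  have hb0 : 0 ≤ 1 - h := by linarith
  have hb1 : 1 - h ≤ 1 := by linarith
  have h2 : Ex q (fun ω : (boxG d (2 * N + 1)).edgeSet → Bool => (1 - (1 - h) ^ (cu (gends (boxG d (2 * N + 1))) ω (ctr d N)).card) + (1 - h) ^ (N + 1)) =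
      Ex q (fun ω => 1 - (1 - h) ^ (cu (gends (boxG d (2 * N + 1))) ω (ctr d N)).card) + (1 - h) ^ (N + 1) := by
    rw [Ex_add, Ex_const]
  rw [← h2]
  refine (th_le h0 h1 N).trans ?_
  unfold aM
  refine Ex_mono h0 h1 fun ω => ?_
  have hpow : (1 - h) ^ (cu (gends (boxG d (2 * N + 1))) ω (ctr d N)).card ≤ 1 := pow_le_one₀ hb0 hb1
  have hpow2 : 0 ≤ (1 - h) ^ (N + 1) := pow_nonneg hb0 _
  by_cases ha : arm d N ω
  · rw [if_pos ha]
    unfold arm at ha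
    rw [Finset.not_disjoint_iff] at ha
    obtain ⟨y, hy, hyb⟩ := ha
    have hc := cl_nd ω (ctr d N) y hy
    obtain ⟨i, hi⟩ := (Finset.mem_filter.1 hyb).2
    have hn : N ≤ nd (ctr d N) y := by
      have h3 : (((ctr d N) i : ℕ) - (y i : ℕ)) + ((y i : ℕ) - ((ctr d N) i : ℕ)) ≤ nd (ctr d N) y :=
        Finset.le_sup (f := fun i => (((ctr d N) i : ℕ) - (y i : ℕ)) + ((y i : ℕ) - ((ctr d N) i : ℕ))) (Finset.mem_univ i)
      have h4 : ((ctr d N) i : ℕ) = N := rfl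
      rw [h4] at h3
      rcases hi with hi | hi <;> omega
    have h5 : (1 - h) ^ (cu (gends (boxG d (2 * N + 1))) ω (ctr d N)).card ≤ (1 - h) ^ (N + 1) :=
      pow_le_pow_of_le_one hb0 hb1 (by omega)
    linarith
  · rw [if_neg ha]
    linarith

/-- Row D4. `δ = min 1 (η/(20 C B))`, `h = δ ε²`; `N ≥ n^d` with `(1-h)^(N+1) ≤ (η/4) ε` (`0 < h < 1`); `th_green`, `cmp_tor` (`q = p + ε`; tails from `TTs` at `r = p + ε`), `green_le` on the torus (`5 C B h/ε ≤ (η/4) ε`; `Ex 1[B/ε² ≤ cz] = fT`), `F_tor` with `η/4`. -/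
theorem dens_low (d : ℕ) (hd : 2 ≤ d) (C c cp s0 η B : ℝ) (hC : 1 ≤ C) (hc : 0 < c) (hcp : 0 < cp) (hcp1 : cp ≤ 1) (hs0 : 0 < s0) (hη : 0 < η) (hB : 1 ≤ B) :
    ∃ A' ε0 : ℝ, 0 < A' ∧ 0 < ε0 ∧ ∀ (n : ℕ) [NeZero n] [Fintype (torG d n).edgeSet] (p ε : ℝ), 3 ≤ n →
      cp ≤ p → cp ≤ 1 - p → 0 < ε → ε ≤ ε0 → A' ≤ ε ^ 3 * (n : ℝ) ^ d → EB d C c s0 p → TTs d C s0 p →
      th d (p + ε) ≤ fT d n (p + ε) (B / ε ^ 2) + η * ε := by
  classical
  have hC0 : 0 < C := by linarith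
  have hB0 : 0 < B := by linarith
  obtain ⟨δ, hδd⟩ : ∃ δ : ℝ, δ = min 1 (η / (20 * C * B)) := ⟨_, rfl⟩
  have hδ0 : 0 < δ := by rw [hδd]; exact lt_min one_pos (by positivity)
  have hδ1 : δ ≤ 1 := by rw [hδd]; exact min_le_left _ _
  have hδη : 5 * C * B * δ ≤ η / 4 := by
    have h1 : δ ≤ η / (20 * C * B) := by rw [hδd]; exact min_le_right _ _
    rw [le_div_iff₀ (by positivity)] at h1
    linarith
  obtain ⟨A', ε1, hA', hε1, hF⟩ := F_tor d hd C c cp s0 (η / 4) δ hC hc hcp hcp1 hs0 (by positivity) hδ0 hδ1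
  refine ⟨A', min (min ε1 s0) (min cp (1 / (7 * C))), hA', lt_min (lt_min hε1 hs0) (lt_min hcp (by positivity)), ?_⟩
  intro n _ _ p ε hn hp1 hp2 hε hεle hA hEB hTT
  have e1 : ε ≤ ε1 := hεle.trans ((min_le_left _ _).trans (min_le_left _ _))
  have e2 : ε ≤ s0 := hεle.trans ((min_le_left _ _).trans (min_le_right _ _))
  have e3 : ε ≤ cp := hεle.trans ((min_le_right _ _).trans (min_le_left _ _))
  have e4 : ε ≤ 1 / (7 * C) := hεle.trans ((min_le_right _ _).trans (min_le_right _ _))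
  have hM : 7 * C * ε ≤ 1 := by
    rw [le_div_iff₀ (by positivity)] at e4
    linarith
  have hεlt : ε < 1 := by linarith
  have hq0 : 0 ≤ p + ε := by linarith
  have hq1 : p + ε ≤ 1 := by linarith
  obtain ⟨h, hh⟩ : ∃ h : ℝ, h = δ * ε ^ 2 := ⟨_, rfl⟩
  have hε2 : ε ^ 2 < 1 := by nlinarith
  have hε20 : 0 < ε ^ 2 := by positivity
  have hh0 : 0 < h := by rw [hh]; positivity
  have hh2 : h ≤ ε ^ 2 := by rw [hh]; nlinarith
  have hh1 : h < 1 := lt_of_le_of_lt hh2 hε2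
  have hT : ∀ (m : ℕ) [NeZero m] [Fintype (torG d m).edgeSet] (x : Fin d → ZMod m) (k : ℕ), 1 ≤ k →
      Ex (p + ε) (fun ω => if (k : ℝ) ≤ cz (gends (torG d m)) ω x then (1 : ℝ) else 0) ≤
        C * (1 / Real.sqrt k + ε) := by
    intro m _ _ x k hk
    have h1 := hTT m x (p + ε) (by linarith) (by linarith) k hk
    rw [add_sub_cancel_left] at h1
    exact h1
  obtain ⟨N0, hN0⟩ := exists_pow_lt_of_lt_one (show 0 < η / 4 * ε by positivity)
    (show 1 - h < 1 by linarith)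
  obtain ⟨N, hNd⟩ : ∃ N : ℕ, N = max (n ^ d) N0 := ⟨_, rfl⟩
  have hN1 : n ^ d ≤ N := by rw [hNd]; exact le_max_left _ _
  have hN2 : N0 ≤ N + 1 := by rw [hNd]; exact (le_max_right _ _).trans (Nat.le_succ _)
  have hpow : (1 - h) ^ (N + 1) ≤ η / 4 * ε :=
    (pow_le_pow_of_le_one (by linarith) (by linarith) hN2).trans hN0.le
  have g1 := th_green d N (q := p + ε) (h := h) hq0 hq1 hh0.le hh1.le
  have g2 := cmp_tor (d := d) (n := n) (N := N) hn hN1 (p := p + ε) (C := C) (ε := ε) (h := h)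
    hq0 hq1 hC0.le hε hεlt.le hM hh0.le hh2 hT
  have g3 := green_le (ends := gends (torG d n)) (p := p + ε) (C := C) (ε := ε) (B := B) (h := h)
    hq0 hq1 hC0.le hε hεlt.le hB hh0.le hh1.le 0 (fun k hk => hT n 0 k hk)
  have g4 := hF n N p ε hn hN1 hp1 hp2 hε e1 hA hEB hTT
  rw [← hh] at g4
  have g5 : 5 * C * B * h / ε ≤ η / 4 * ε := by
    rw [div_le_iff₀ hε, hh]
    nlinarith
  have g6 : Ex (p + ε) (fun ω => if B / ε ^ 2 ≤ cz (gends (torG d n)) ω 0 then (1 : ℝ) else 0) =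
      fT d n (p + ε) (B / ε ^ 2) := rfl
  rw [g6] at g3
  have hηε : 0 < η * ε := by positivity
  linarith

private lemma D5_ta_le_one {V : Type*} [Fintype V] [DecidableEq V] {E : Type*} [Fintype E] [DecidableEq E]
    {ends : E → Sym2 V} {p : ℝ} (h0 : 0 ≤ p) (h1 : p ≤ 1) (x y : V) : ta ends p x y ≤ 1 := by
  unfold ta
  refine (Ex_mono h0 h1 (g := fun _ => (1:ℝ)) fun ω => by split_ifs <;> norm_num).trans ?_
  rw [Ex_const]

/-- Row D5. `n ≥ 3`: `UT_of` with `N = n^d`, `a = c √s ≤ 1`, `a² n^d = c² s n^d`; `n ≤ 2`: `ta ≤ 1` and `td ≤ 1` (`td_lt`), so `tk ≥ 1/2^(d-2) ≥ 1/2^d`. `C' = C (1 + 8^(d+1)/c²) + 2^d`, `s1 = min (min s0 cp) (1/c²)`. -/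
theorem UTs_of (d : ℕ) (hd : 2 ≤ d) (C c cp s0 : ℝ) (hC : 1 ≤ C) (hc : 0 < c) (hcp : 0 < cp) (hs0 : 0 < s0) :
    ∃ C' s1 : ℝ, 1 ≤ C' ∧ 0 < s1 ∧ ∀ p : ℝ, cp ≤ p → cp ≤ 1 - p → EB d C c s0 p → UTs d C' s1 p := by
  have hc2 : 0 < c ^ 2 := by positivity
  have hC0 : (0:ℝ) ≤ C := by linarith
  have hK : 0 ≤ (8:ℝ) ^ (d + 1) / c ^ 2 := by positivity
  have h2d : (0:ℝ) < 2 ^ d := by positivity
  refine ⟨C * (1 + 8 ^ (d + 1) / c ^ 2) + 2 ^ d, min (min s0 cp) (1 / c ^ 2), ?_, ?_, ?_⟩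
  · have : 1 ≤ C * (1 + 8 ^ (d + 1) / c ^ 2) := by nlinarith
    linarith
  · exact lt_min (lt_min hs0 hcp) (by positivity)
  · intro p hp1 hp2 hEB n _ _ s hs hs1 x w
    have hss0 : s ≤ s0 := hs1.trans ((min_le_left _ _).trans (min_le_left _ _))
    have hscp : s ≤ cp := hs1.trans ((min_le_left _ _).trans (min_le_right _ _))
    have hsc : s ≤ 1 / c ^ 2 := hs1.trans (min_le_right _ _)
    have h0 : 0 ≤ p - s := by linarith
    have h1 : p - s ≤ 1 := by linarith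
    have hn0 : 0 < n := Nat.pos_of_ne_zero (NeZero.ne n)
    have hnR : (0:ℝ) < n := by exact_mod_cast hn0
    have hX : 0 ≤ 1 / s / (n:ℝ) ^ d := by positivity
    have htk : 0 ≤ tk (d - 2) x w := by
      unfold tk
      positivity
    rcases Nat.lt_or_ge n 3 with hn | hn
    · -- small n
      have htd : td x w < n := td_lt x w hn0
      have htd1 : (td x w : ℝ) ≤ 1 := by exact_mod_cast (by omega : td x w ≤ 1)
      have ht1 : 1 / (2:ℝ) ^ d ≤ tk (d - 2) x w := by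
        unfold tk
        apply one_div_le_one_div_of_le (by positivity)
        calc (1 + (td x w : ℝ)) ^ (d - 2) ≤ 2 ^ (d - 2) :=
              pow_le_pow_left₀ (by positivity) (by linarith) _
          _ ≤ 2 ^ d := pow_le_pow_right₀ (by norm_num) (Nat.sub_le _ _)
      have h3 : 1 ≤ (2:ℝ) ^ d * tk (d - 2) x w := by
        have := mul_le_mul_of_nonneg_left ht1 h2d.le
        rwa [mul_one_div_cancel h2d.ne'] at this
      have h4 : 0 ≤ C * (1 + 8 ^ (d + 1) / c ^ 2) * (tk (d - 2) x w + 1 / s / (n:ℝ) ^ d) := by positivity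
      have h5 : 0 ≤ (2:ℝ) ^ d * (1 / s / (n:ℝ) ^ d) := by positivity
      have h6 : ta (gends (torG d n)) (p - s) x w ≤ 1 := D5_ta_le_one h0 h1 x w
      linarith
    · have hsq : Real.sqrt s ^ 2 = s := Real.sq_sqrt hs.le
      have hsp : 0 < Real.sqrt s := Real.sqrt_pos.2 hs
      have ha : 0 < c * Real.sqrt s := mul_pos hc hsp
      have ha2 : (c * Real.sqrt s) ^ 2 = c ^ 2 * s := by rw [mul_pow, hsq]
      have ha1 : c * Real.sqrt s ≤ 1 := by
        have : (c * Real.sqrt s) ^ 2 ≤ 1 := by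
          rw [ha2]
          have := mul_le_mul_of_nonneg_left hsc hc2.le
          rwa [mul_one_div_cancel hc2.ne'] at this
        nlinarith
      have hmain := UT_of (N := n ^ d) hd hn le_rfl h0 h1 hC0 ha ha1
        (fun x y => hEB (2 * n ^ d + 1) s hs hss0 x y) x w
      have e1 : (8:ℝ) ^ (d + 1) / ((c * Real.sqrt s) ^ 2 * (n:ℝ) ^ d) = 8 ^ (d + 1) / c ^ 2 * (1 / s / (n:ℝ) ^ d) := by
        rw [ha2]
        field_simp
      rw [e1] at hmain
      refine hmain.trans ?_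
      have h7 : 0 ≤ (2:ℝ) ^ d * (tk (d - 2) x w + 1 / s / (n:ℝ) ^ d) := by positivity
      have h8 : 0 ≤ C * (8 ^ (d + 1) / c ^ 2 * tk (d - 2) x w) := by positivity
      have h9 : 0 ≤ C * (1 / s / (n:ℝ) ^ d) := by positivity
      linarith

/-- Row D6. The mean cluster size below `p_c`. `s = pc - p`. For `s ≤ s1 = min (min s0 (1/c²)) (pc/2)`, `n ≥ 3`: `mean_up` (`N = n^d`), `ta_sum`, `sum_ek`: at most `C d 2^d 4/(c² s)`; for `s > s1`: `chi_mono`, at most `C d 2^d 4/(c² s1) ≤ .../(s1 s)` (`s ≤ 1`);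
`n ≤ 2`: at most `2^d ≤ 2^d/s`. (`chi_eq`.) -/
theorem X_of (d : ℕ) (hd : 2 ≤ d) (C c s0 pc : ℝ) (hC : 1 ≤ C) (hc : 0 < c) (hs0 : 0 < s0) (h0 : 0 < pc) (h1 : pc < 1) (hE : EB d C c s0 pc) :
    ∃ C' : ℝ, 1 ≤ C' ∧ ∀ (n : ℕ) [NeZero n] (p : ℝ), 0 < p → p < pc → chi (torG d n) p 0 ≤ C' / (pc - p) := by
  classical
  set s1 := min (min s0 (1 / c ^ 2)) (pc / 2) with hs1
  have hs1p : 0 < s1 := by
    rw [hs1]
    exact lt_min (lt_min hs0 (by positivity)) (by linarith)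
  have hs1a : s1 ≤ s0 := (min_le_left _ _).trans (min_le_left _ _)
  have hs1b : s1 ≤ 1 / c ^ 2 := (min_le_left _ _).trans (min_le_right _ _)
  have hs1c : s1 ≤ pc / 2 := min_le_right _ _
  have hs11 : s1 ≤ 1 := by linarith
  set K := C * ((d * 2 ^ d : ℝ) * (4 / c ^ 2)) with hK
  have hK0 : 0 ≤ K := by rw [hK]; positivity
  -- the main estimate
  have hmain : ∀ (n : ℕ) [NeZero n] (s : ℝ), 3 ≤ n → 0 < s → s ≤ s1 → chi (torG d n) (pc - s) 0 ≤ K / s := by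
    intro n _ s hn hsp hss
    have hq0 : 0 ≤ pc - s := by linarith
    have hq1 : pc - s ≤ 1 := by linarith
    rw [chi_eq]
    refine (mean_up (d := d) (N := n ^ d) hn le_rfl hq0 hq1).trans ?_
    rw [← ta_sum]
    have hsq : 0 < Real.sqrt s := Real.sqrt_pos.2 hsp
    have ha : 0 < c * Real.sqrt s := mul_pos hc hsq
    have ha1 : c * Real.sqrt s ≤ 1 := by
      have h3 : (c * Real.sqrt s) ^ 2 ≤ 1 ^ 2 := by
        rw [mul_pow, Real.sq_sqrt hsp.le, one_pow]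
        have h4 : s ≤ 1 / c ^ 2 := hss.trans hs1b
        rw [le_div_iff₀ (by positivity)] at h4
        linarith
      exact (pow_le_pow_iff_left₀ ha.le zero_le_one two_ne_zero).1 h3
    calc ∑ y, ta (gends (boxG d (2 * n ^ d + 1))) (pc - s) (ctr d (n ^ d)) y
        ≤ ∑ y, C * ek (d - 2) (c * Real.sqrt s) (ctr d (n ^ d)) y := by
          apply Finset.sum_le_sum
          intro y _
          have h5 := hE (2 * n ^ d + 1) s hsp (hss.trans hs1a) (ctr d (n ^ d)) y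
          convert h5
      _ = C * ∑ y, ek (d - 2) (c * Real.sqrt s) (ctr d (n ^ d)) y := by rw [Finset.mul_sum]
      _ ≤ C * ((d * 2 ^ d : ℝ) * (4 / (c * Real.sqrt s) ^ 2)) := by
          apply mul_le_mul_of_nonneg_left _ (by linarith)
          exact sum_ek hd ha ha1 _
      _ = K / s := by
          rw [hK, mul_pow, Real.sq_sqrt hsp.le]
          field_simp
  refine ⟨1 + K + K / s1 + 2 ^ d, ?_, ?_⟩
  · have h1 : 0 ≤ K / s1 := by positivity
    have h2 : (0 : ℝ) ≤ 2 ^ d := by positivity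
    linarith
  · intro n _ p hp0 hp1
    have hsp : 0 < pc - p := by linarith
    have hs1' : pc - p ≤ 1 := by linarith
    have hKs : 0 ≤ K / s1 := by positivity
    have h2d : (0 : ℝ) ≤ 2 ^ d := by positivity
    rw [le_div_iff₀ hsp]
    by_cases hn : 3 ≤ n
    · by_cases hss : pc - p ≤ s1
      · have h1 := hmain n (pc - p) hn hsp hss
        rw [show pc - (pc - p) = p by ring, le_div_iff₀ hsp] at h1
        linarith
      · push Not at hss
        have h1 := hmain n s1 hn hs1p le_rfl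
        have h2 : chi (torG d n) p 0 ≤ chi (torG d n) (pc - s1) 0 := chi_mono hp0.le (by linarith) (by linarith)
        have h3 : chi (torG d n) p 0 ≤ K / s1 := h2.trans h1
        calc chi (torG d n) p 0 * (pc - p) ≤ K / s1 * 1 := by gcongr
          _ ≤ 1 + K + K / s1 + 2 ^ d := by linarith
    · have hn1 : 1 ≤ n := NeZero.one_le
      have h1 : chi (torG d n) p 0 ≤ 2 ^ d := by
        rw [chi_eq]
        calc Ex p (fun ω => cz (gends (torG d n)) ω 0) ≤ Ex p (fun _ => (2 : ℝ) ^ d) := by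
              apply Ex_mono hp0.le (by linarith)
              intro ω
              unfold cz
              have h2 : (cu (gends (torG d n)) ω 0).card ≤ n ^ d := by
                refine (Finset.card_le_univ _).trans ?_
                rw [Fintype.card_fun, Fintype.card_fin, ZMod.card]
              have h3 : n ^ d ≤ 2 ^ d := Nat.pow_le_pow_left (by omega) d
              exact_mod_cast h2.trans h3
          _ = 2 ^ d := Ex_const _ _
      calc chi (torG d n) p 0 * (pc - p) ≤ 2 ^ d * 1 := by gcongr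
        _ ≤ 1 + K + K / s1 + 2 ^ d := by linarith

/-- Row D7. Given `η`, `A1` (`η ≤ 1` may be assumed). `C2` = the maximum of `C` and the constant of `UTs_of`, `s2` the minimum of `s0`, `s1`; `UTs`, `TTs` are monotone in the constants (`HypT.2` is `TTs`; `LTs` for `min cL 1`, note `c0 (1/s)`). `one_pc` with `η/2`
and `A = A1`: `B0`; `dens_up` with `η/8`: `B1`; `B = max B0 B1`; `one_pc` for this `B`, `dens_low` with `η/8`, `hlim` with `η/8`: so `|n^d fT - q ε n^d| ≤ (η/4) ε n^d`; `n ≥ 3` since `n^d ≥ A'/ε0³ > 2^d` for small `ε0`. Two clusters: the same event up to the order of the conditions. -/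
theorem GMid_of (d : ℕ) (hd : 9 ≤ d) (C c0 c s0 cL AL pc q : ℝ) (hC : 1 ≤ C) (hc0 : 0 < c0) (hc : 0 < c) (hs0 : 0 < s0) (hcL : 0 < cL) (hAL : 0 < AL) (h0 : 0 < pc) (h1 : pc < 1)
    (hH : ∀ l : ℕ, Hyp d C c0 pc l) (hHT : HypT d C pc s0) (hE : EB d C c s0 pc) (hP : LTs d cL AL pc)
    (hlim : ∀ η : ℝ, 0 < η → ∃ ε0 : ℝ, 0 < ε0 ∧ ∀ ε : ℝ, 0 < ε → ε ≤ ε0 → |th d (pc + ε) - q * ε| ≤ η * ε) :
    GMid d pc q := by
  classical
  intro η A1 hη hA1
  obtain ⟨η', hη'⟩ : ∃ η', η' = min η 1 := ⟨_, rfl⟩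
  have hη'0 : 0 < η' := by rw [hη']; exact lt_min hη one_pos
  have hη'1 : η' ≤ 1 := by rw [hη']; exact min_le_right _ _
  have hη'η : η' ≤ η := by rw [hη']; exact min_le_left _ _
  obtain ⟨cp, hcpd⟩ : ∃ cp, cp = min pc (1 - pc) := ⟨_, rfl⟩
  have hcp : 0 < cp := by rw [hcpd]; exact lt_min h0 (by linarith)
  have hcpa : cp ≤ pc := by rw [hcpd]; exact min_le_left _ _
  have hcpb : cp ≤ 1 - pc := by rw [hcpd]; exact min_le_right _ _
  have hcp1 : cp ≤ 1 := by linarith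
  obtain ⟨C', s1, hC', hs1, hU⟩ := UTs_of d (by omega) C c cp s0 hC hc hcp hs0
  have hU1 := hU pc hcpa hcpb hE
  obtain ⟨C2, hC2⟩ : ∃ C2, C2 = max C C' := ⟨_, rfl⟩
  have hC2a : C ≤ C2 := by rw [hC2]; exact le_max_left _ _
  have hC2b : C' ≤ C2 := by rw [hC2]; exact le_max_right _ _
  have hC21 : 1 ≤ C2 := hC.trans hC2a
  obtain ⟨s2, hs2d⟩ : ∃ s2, s2 = min s0 s1 := ⟨_, rfl⟩
  have hs2 : 0 < s2 := by rw [hs2d]; exact lt_min hs0 hs1
  have hs2a : s2 ≤ s0 := by rw [hs2d]; exact min_le_left _ _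
  have hs2b : s2 ≤ s1 := by rw [hs2d]; exact min_le_right _ _
  have hU2 : UTs d C2 s2 pc := by
    intro n _ _ s hs hss x y
    refine (hU1 n s hs (hss.trans hs2b) x y).trans ?_
    refine mul_le_mul_of_nonneg_right hC2b ?_
    have e1 : 0 ≤ tk (d - 2) x y := by
      unfold tk
      positivity
    have e2 : 0 ≤ 1 / s / (n : ℝ) ^ d := by positivity
    linarith
  have hT2 : TTs d C2 s2 pc := by
    intro n _ _ x r hr1 hr2 k hk
    refine (hHT.2 n x r hr1 (hr2.trans (by linarith)) k hk).trans ?_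
    refine mul_le_mul_of_nonneg_right hC2a ?_
    have e1 : 0 ≤ 1 / Real.sqrt k := by positivity
    linarith
  obtain ⟨cL2, hcL2⟩ : ∃ cL2, cL2 = min cL 1 := ⟨_, rfl⟩
  have hcL0 : 0 < cL2 := by rw [hcL2]; exact lt_min hcL one_pos
  have hcL1 : cL2 ≤ 1 := by rw [hcL2]; exact min_le_right _ _
  have hcLa : cL2 ≤ cL := by rw [hcL2]; exact min_le_left _ _
  have hL2 : LTs d cL2 AL pc := by
    intro n _ _ s hs hs1 hs2 x y
    refine le_trans ?_ (hP n s hs hs1 (hs2.trans hcLa) x y)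
    refine div_le_div_of_nonneg_right ?_ (by positivity)
    exact mul_le_mul_of_nonneg_right hcLa (by positivity)
  obtain ⟨B0, hB0, hone⟩ := one_pc d hd C2 cL2 AL cp s2 A1 (η' / 2) hC21 hcL0 hcL1 hAL hcp hcp1 hs2
    hA1 (by positivity) (by linarith)
  obtain ⟨B1, e1, hB1, he1, hup⟩ := dens_up d hd C c0 cp s0 (η' / 8) hC hc0 hcp hcp1 hs0
    (by positivity)
  obtain ⟨B, hBd⟩ : ∃ B, B = max B0 B1 := ⟨_, rfl⟩
  have hBa : B0 ≤ B := by rw [hBd]; exact le_max_left _ _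
  have hBb : B1 ≤ B := by rw [hBd]; exact le_max_right _ _
  obtain ⟨Aa, e2, hAa, he2, hone'⟩ := hone B hBa
  obtain ⟨Ab, e3, hAb, he3, hlow⟩ := dens_low d (by omega) C c cp s0 (η' / 8) B hC hc hcp hcp1 hs0
    (by positivity) (hB0.trans hBa)
  obtain ⟨e4, he4, hl⟩ := hlim (η' / 8) (by positivity)
  refine ⟨max (max Aa Ab) (2 ^ d + 1), min (min (min e1 e2) (min e3 e4)) cp, by positivity,
    lt_min (lt_min (lt_min he1 he2) (lt_min he3 he4)) hcp, ?_⟩
  intro n hn0 hft ε hε hεle hεn hA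
  have k1 : ε ≤ e1 := hεle.trans ((min_le_left _ _).trans ((min_le_left _ _).trans (min_le_left _ _)))
  have k2 : ε ≤ e2 := hεle.trans ((min_le_left _ _).trans ((min_le_left _ _).trans (min_le_right _ _)))
  have k3 : ε ≤ e3 := hεle.trans ((min_le_left _ _).trans ((min_le_right _ _).trans (min_le_left _ _)))
  have k4 : ε ≤ e4 := hεle.trans ((min_le_left _ _).trans ((min_le_right _ _).trans (min_le_right _ _)))
  have k5 : ε ≤ cp := hεle.trans (min_le_right _ _)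
  have a1 : Aa ≤ ε ^ 3 * (n : ℝ) ^ d := ((le_max_left _ _).trans (le_max_left _ _)).trans hA
  have a2 : Ab ≤ ε ^ 3 * (n : ℝ) ^ d := ((le_max_right _ _).trans (le_max_left _ _)).trans hA
  have a3 : 2 ^ d + 1 ≤ ε ^ 3 * (n : ℝ) ^ d := (le_max_right _ _).trans hA
  have hε1 : ε ≤ 1 := k5.trans hcp1
  have hn3 : 3 ≤ n := by
    by_contra hcon
    push Not at hcon
    have h2 : (n : ℝ) ≤ 2 := by exact_mod_cast (by omega : n ≤ 2)
    have h3 : (n : ℝ) ^ d ≤ 2 ^ d := pow_le_pow_left₀ (by positivity) h2 d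
    have h4 : ε ^ 3 ≤ 1 := pow_le_one₀ hε.le hε1
    have h5 : ε ^ 3 * (n : ℝ) ^ d ≤ 1 * (n : ℝ) ^ d :=
      mul_le_mul_of_nonneg_right h4 (by positivity)
    linarith
  have hq0 : 0 ≤ pc + ε := by linarith
  have hq1 : pc + ε ≤ 1 := by linarith
  obtain ⟨g1, g2⟩ := hone' n pc ε hcpa hcpb hε k2 a1 hεn hU2 hL2 hT2
  have u1 := hup n pc ε B hn3 hcpa hcpb hε k1 hH hHT hBb
  have u2 := hlow n pc ε hn3 hcpa hcpb hε k3 a2 hE hHT.2
  have u3 := abs_le.1 (hl ε hε k4)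
  have hnd : 0 < (n : ℝ) ^ d := by
    have : (0 : ℝ) < n := by exact_mod_cast (by omega : 0 < n)
    positivity
  obtain ⟨f, hf⟩ : ∃ f, f = fT d n (pc + ε) (B / ε ^ 2) := ⟨_, rfl⟩
  rw [← hf] at g1 u1 u2
  have hfq : |(n : ℝ) ^ d * f - q * ε * (n : ℝ) ^ d| ≤ η' / 4 * ε * (n : ℝ) ^ d := by
    have e5 : (n : ℝ) ^ d * f - q * ε * (n : ℝ) ^ d = (f - q * ε) * (n : ℝ) ^ d := by ring
    rw [e5, abs_mul, abs_of_pos hnd]
    refine mul_le_mul_of_nonneg_right ?_ hnd.le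
    rw [abs_le]
    constructor <;> linarith [u3.1, u3.2]
  have hεd : 0 < ε * (n : ℝ) ^ d := by positivity
  have hcmp : η' / 2 * ε * (n : ℝ) ^ d ≤ η * ε * (n : ℝ) ^ d := by
    rw [mul_assoc, mul_assoc]
    exact mul_le_mul_of_nonneg_right (by linarith) hεd.le
  refine ⟨?_, ?_⟩
  · refine (Ex_mono hq0 hq1 fun ω => ?_).trans (g1.trans (by linarith))
    by_cases hx : η * ε * (n : ℝ) ^ d < |mxc (gends (torG d n)) ω - q * ε * (n : ℝ) ^ d|
    · rw [if_pos hx, if_pos]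
      have t1 : |mxc (gends (torG d n)) ω - q * ε * (n : ℝ) ^ d| ≤
          |mxc (gends (torG d n)) ω - (n : ℝ) ^ d * f| + |(n : ℝ) ^ d * f - q * ε * (n : ℝ) ^ d| :=
        abs_sub_le _ _ _
      have t2 : η' * ε * (n : ℝ) ^ d ≤ η * ε * (n : ℝ) ^ d := by
        rw [mul_assoc, mul_assoc]
        exact mul_le_mul_of_nonneg_right hη'η hεd.le
      have t3 : η' / 2 * ε * (n : ℝ) ^ d + η' / 4 * ε * (n : ℝ) ^ d ≤ η' * ε * (n : ℝ) ^ d := by
        have : 0 < η' * (ε * (n : ℝ) ^ d) := by positivity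
        linarith
      linarith
    · rw [if_neg hx]
      split_ifs <;> norm_num
  · refine (Ex_mono hq0 hq1 fun ω => ?_).trans (g2.trans (by linarith))
    by_cases hx : ∃ x x', η * ε * (n : ℝ) ^ d ≤ cz (gends (torG d n)) ω x ∧
        η * ε * (n : ℝ) ^ d ≤ cz (gends (torG d n)) ω x' ∧ x' ∉ cu (gends (torG d n)) ω x
    · rw [if_pos hx, if_pos]
      obtain ⟨x, x', r1, r2, r3⟩ := hx
      exact ⟨x, x', r3, hcmp.trans r1, hcmp.trans r2⟩
    · rw [if_neg hx]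
      split_ifs <;> norm_num

end Pool.Agent.PERC29.QQ
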