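import Pool.Agent.Lib.MP_29e17e_pr.Y.Fw
import Pool.Agent.Lib.MP_29e17e_pr.Z.Df

namespace Pool.Agent.PERC29
end Pool.Agent.PERC29
namespace Pool.Agent.PERC29.AE
end Pool.Agent.PERC29.AE
namespace Pool.Agent.PERC29.DZ
end Pool.Agent.PERC29.DZ

set_option autoImplicit false
set_option linter.unusedSectionVars false

/-! The tail of the cluster size in boxes from the one-arm bound and the two-point bound. -/

open Finset Filter Topology

namespace Pool.Agent.PERC29.QQ

open Pool.Agent.PERC29 Pool.Agent.PERC29.AE Pool.Agent.PERC29.DZ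

open scoped Classical in
/-- A vertex of a box is joined to distance `N` at most with the one-arm probability. -/
theorem arm_any {d l N : ℕ} [Fintype (boxG d l).edgeSet]
    [Fintype (boxG d (2 * N + 1)).edgeSet] {p : ℝ} (h0 : 0 ≤ p) (h1 : p ≤ 1) (hN : 1 ≤ N)
    (x : Fin d → Fin l) :
    Ex p (fun ω : (boxG d l).edgeSet → Bool =>
      if ∃ y ∈ cu (gends (boxG d l)) ω x, N ≤ nd x y then (1 : ℝ) else 0) ≤ aM d N p := by
  obtain ⟨M, hM⟩ : ∃ M, M = l + N := ⟨_, rfl⟩
  have : Fintype (boxG d (2 * M + 1)).edgeSet := Fintype.ofFinite _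
  obtain ⟨φ, hφ⟩ := box_box (d := d) (l := l) (n := 2 * M + 1) (fun i => M - (x i : ℕ)) (by
    intro i
    have := (x i).2
    omega)
  obtain ⟨φ2, hφ2⟩ := box_box (d := d) (l := 2 * N + 1) (n := 2 * M + 1) (fun _ => l) (by
    intro i
    omega)
  have hc : φ x = φ2 (ctr d N) := by
    funext i
    apply Fin.ext
    rw [hφ, hφ2]
    have := (x i).2
    simp only [ctr]
    omega
  unfold aM
  rw [← Ex_pul φ, ← Ex_pul φ2]
  apply Ex_mono h0 h1
  intro ω
  by_cases ha : arm d N (pul φ2 ω)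
  · rw [if_pos ha]
    split_ifs <;> norm_num
  · rw [if_neg ha, if_neg]
    rintro ⟨y, hy, hy2⟩
    have hd : Disjoint (cu (gends (boxG d (2 * N + 1)))
        (pl (fun e => φ2.mapEdgeSet e) ω) (ctr d N)) (bdy d (2 * N + 1)) := by
      unfold arm at ha
      exact not_not.1 ha
    have hcu := cu_loc (emb_of φ2) (bdy d (2 * N + 1))
      (fun e u hu he => box_loc (fun _ => l) φ2 hφ2 e u hu he) ω (ctr d N) hd
    have hy3 : φ y ∈ cu (gends (boxG d (2 * M + 1))) ω (φ x) := AE.cu_map (emb_of φ) hy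
    rw [hc, hcu] at hy3
    obtain ⟨u, hu, hu2⟩ := Finset.mem_image.1 hy3
    have hub : u ∉ bdy d (2 * N + 1) := Finset.disjoint_left.1 hd hu
    -- a coordinate with distance at least `N`
    have hex : ∃ i, N ≤ ((x i : ℕ) - (y i : ℕ)) + ((y i : ℕ) - (x i : ℕ)) := by
      by_contra hcon
      push Not at hcon
      have : nd x y < N := by
        unfold nd
        rw [Finset.sup_lt_iff (show (⊥ : ℕ) < N from hN)]
        intro i _
        exact hcon i
      omega
    obtain ⟨i, hi⟩ := hex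
    apply hub
    refine Finset.mem_filter.2 ⟨Finset.mem_univ _, i, ?_⟩
    have e1 := hφ y i
    have e2 := hφ2 u i
    rw [hu2] at e2
    have := (x i).2
    have := (y i).2
    have := (u i).2
    omega

open scoped Classical in
/-- The tail of the cluster size in a box. -/
theorem tail_box (d : ℕ) (hd : 2 ≤ d) (C pc : ℝ) (hC : 0 ≤ C) (h0 : 0 ≤ pc) (h1 : pc ≤ 1)
    (hU : ∀ (l : ℕ) (x y : Fin d → Fin l), tau (boxG d l) pc x y ≤ C / (1 + (nd x y : ℝ)) ^ (d - 2))
    (hB : ∀ N : ℕ, 1 ≤ N → armProb d N pc ≤ C / (N : ℝ) ^ 2)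
    (l : ℕ) (x : Fin d → Fin l) (k : ℕ) (hk : 1 ≤ k) :
    prob (boxG d l) pc (fun ω => k ≤ clusterSize (boxG d l) ω x) ≤
      (C * (4 + (d * 2 ^ d : ℝ) * 4)) / Real.sqrt k := by
  obtain ⟨N, hN⟩ : ∃ N, N = Nat.sqrt (Nat.sqrt k) := ⟨_, rfl⟩
  have hN1 : 1 ≤ N := by
    rw [hN, Nat.le_sqrt, Nat.le_sqrt]
    simpa using hk
  have hN4 : N * N * (N * N) ≤ k := by
    have a1 : N * N ≤ Nat.sqrt k := by rw [hN]; exact Nat.sqrt_le _
    exact (Nat.mul_le_mul a1 a1).trans (Nat.sqrt_le _)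
  have hN5 : k < (N + 1) * (N + 1) * ((N + 1) * (N + 1)) := by
    have a1 : Nat.sqrt k < (N + 1) * (N + 1) := by rw [hN]; exact Nat.lt_succ_sqrt _
    have a2 : Nat.sqrt k + 1 ≤ (N + 1) * (N + 1) := a1
    exact (Nat.lt_succ_sqrt k).trans_le (Nat.mul_le_mul a2 a2)
  have hk0 : (0 : ℝ) < k := by exact_mod_cast hk
  have hs : 0 < Real.sqrt k := Real.sqrt_pos.2 hk0
  have hNr : (1 : ℝ) ≤ N := by exact_mod_cast hN1
  have hs1 : (N : ℝ) ^ 2 ≤ Real.sqrt k := by
    apply Real.le_sqrt_of_sq_le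
    have : ((N * N * (N * N) : ℕ) : ℝ) ≤ k := by exact_mod_cast hN4
    push_cast at this
    nlinarith
  have hs2 : Real.sqrt k ≤ 4 * (N : ℝ) ^ 2 := by
    rw [Real.sqrt_le_left (by positivity)]
    have a1 : (k : ℝ) < (((N + 1) * (N + 1) * ((N + 1) * (N + 1)) : ℕ) : ℝ) := by exact_mod_cast hN5
    push_cast at a1
    have a2 : ((N : ℝ) + 1) * ((N : ℝ) + 1) ≤ 4 * (N : ℝ) ^ 2 := by nlinarith
    have a3 : ((N : ℝ) + 1) * ((N : ℝ) + 1) * (((N : ℝ) + 1) * ((N : ℝ) + 1)) ≤ 4 * (N : ℝ) ^ 2 * (4 * (N : ℝ) ^ 2) :=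
      mul_le_mul a2 a2 (by positivity) (by positivity)
    nlinarith
  rw [tail_eq]
  -- pointwise
  have hpt : ∀ ω : (boxG d l).edgeSet → Bool, (if (k : ℝ) ≤ cz (gends (boxG d l)) ω x then (1 : ℝ) else 0) ≤
      (if ∃ y ∈ cu (gends (boxG d l)) ω x, N ≤ nd x y then (1 : ℝ) else 0) +
        1 / (k : ℝ) * ∑ y, (if 1 + nd x y ≤ 2 * N then (if y ∈ cu (gends (boxG d l)) ω x then (1 : ℝ) else 0) else 0) := by
    intro ω
    have hnn : (0 : ℝ) ≤ ∑ y, (if 1 + nd x y ≤ 2 * N then (if y ∈ cu (gends (boxG d l)) ω x then (1 : ℝ) else 0) else 0) :=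
      Finset.sum_nonneg fun y _ => by split_ifs <;> norm_num
    by_cases he : ∃ y ∈ cu (gends (boxG d l)) ω x, N ≤ nd x y
    · rw [if_pos he]
      have : 0 ≤ 1 / (k : ℝ) * ∑ y, (if 1 + nd x y ≤ 2 * N then (if y ∈ cu (gends (boxG d l)) ω x then (1 : ℝ) else 0) else 0) :=
        mul_nonneg (by positivity) hnn
      split_ifs <;> linarith
    · rw [if_neg he]
      push Not at he
      by_cases hc : (k : ℝ) ≤ cz (gends (boxG d l)) ω x
      · rw [if_pos hc]
        have e : cz (gends (boxG d l)) ω x ≤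
            ∑ y, (if 1 + nd x y ≤ 2 * N then (if y ∈ cu (gends (boxG d l)) ω x then (1 : ℝ) else 0) else 0) := by
          unfold cz
          rw [Finset.card_eq_sum_ones]
          push_cast
          rw [← Finset.sum_filter_add_sum_filter_not Finset.univ (fun y => y ∈ cu (gends (boxG d l)) ω x)]
          have e2 : ∑ y ∈ cu (gends (boxG d l)) ω x, (1 : ℝ) ≤
              ∑ y ∈ Finset.univ.filter (fun y => y ∈ cu (gends (boxG d l)) ω x),
                (if 1 + nd x y ≤ 2 * N then (if y ∈ cu (gends (boxG d l)) ω x then (1 : ℝ) else 0) else 0) := by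
            have e3 : Finset.univ.filter (fun y => y ∈ cu (gends (boxG d l)) ω x) = cu (gends (boxG d l)) ω x := by
              ext y
              simp
            rw [e3]
            apply Finset.sum_le_sum
            intro y hy
            have := he y hy
            rw [if_pos (by omega), if_pos hy]
          refine e2.trans (le_add_of_nonneg_right ?_)
          exact Finset.sum_nonneg fun y _ => by split_ifs <;> norm_num
        have e4 : (1 : ℝ) ≤ 1 / (k : ℝ) * ∑ y, (if 1 + nd x y ≤ 2 * N then (if y ∈ cu (gends (boxG d l)) ω x then (1 : ℝ) else 0) else 0) := by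
          rw [one_div, ← div_eq_inv_mul, le_div_iff₀ hk0, one_mul]
          exact hc.trans e
        linarith
      · rw [if_neg hc]
        have : 0 ≤ 1 / (k : ℝ) * ∑ y, (if 1 + nd x y ≤ 2 * N then (if y ∈ cu (gends (boxG d l)) ω x then (1 : ℝ) else 0) else 0) :=
          mul_nonneg (by positivity) hnn
        linarith
  refine (Ex_mono h0 h1 hpt).trans ?_
  rw [Ex_add, Ex_mul_left, Ex_sum]
  have b1 : Ex pc (fun ω : (boxG d l).edgeSet → Bool =>
      if ∃ y ∈ cu (gends (boxG d l)) ω x, N ≤ nd x y then (1 : ℝ) else 0) ≤ C / (N : ℝ) ^ 2 := by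
    refine (arm_any h0 h1 hN1 x).trans ?_
    have := hB N hN1
    rw [arm_eq] at this
    exact this
  have b2 : ∑ y, Ex pc (fun ω : (boxG d l).edgeSet → Bool =>
      (if 1 + nd x y ≤ 2 * N then (if y ∈ cu (gends (boxG d l)) ω x then (1 : ℝ) else 0) else 0)) ≤
      C * ((d * 2 ^ d : ℝ) * (4 * (N : ℝ) ^ 2)) := by
    refine le_trans ?_ (mul_le_mul_of_nonneg_left (near_f hd x N) hC)
    rw [Finset.mul_sum]
    apply Finset.sum_le_sum
    intro y _
    by_cases hy : 1 + nd x y ≤ 2 * N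
    · simp only [if_pos hy]
      have h := hU l x y
      rw [tau_eq] at h
      unfold fk
      rw [mul_one_div]
      refine le_trans (le_of_eq ?_) h
      unfold ta
      rfl
    · simp only [if_neg hy, mul_zero]
      rw [Ex_const]
  have b3 : C / (N : ℝ) ^ 2 ≤ C * 4 / Real.sqrt k := by
    rw [div_le_div_iff₀ (by positivity) hs]
    nlinarith
  have b4 : 1 / (k : ℝ) * (C * ((d * 2 ^ d : ℝ) * (4 * (N : ℝ) ^ 2))) ≤ C * ((d * 2 ^ d : ℝ) * 4) / Real.sqrt k := by
    rw [le_div_iff₀ hs]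
    have e5 : Real.sqrt k * Real.sqrt k = k := Real.mul_self_sqrt hk0.le
    have e6 : (N : ℝ) ^ 2 * Real.sqrt k ≤ k := by nlinarith
    have e7 : 1 / (k : ℝ) * (C * ((d * 2 ^ d : ℝ) * (4 * (N : ℝ) ^ 2))) * Real.sqrt k =
        C * ((d * 2 ^ d : ℝ) * 4) * (((N : ℝ) ^ 2 * Real.sqrt k) / k) := by
      field_simp
    rw [e7]
    have e8 : ((N : ℝ) ^ 2 * Real.sqrt k) / k ≤ 1 := by rw [div_le_one hk0]; exact e6
    have e9 : 0 ≤ C * ((d * 2 ^ d : ℝ) * 4) := by positivity
    nlinarith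
  have b5 : 1 / (k : ℝ) * ∑ y, Ex pc (fun ω : (boxG d l).edgeSet → Bool =>
      (if 1 + nd x y ≤ 2 * N then (if y ∈ cu (gends (boxG d l)) ω x then (1 : ℝ) else 0) else 0)) ≤
      1 / (k : ℝ) * (C * ((d * 2 ^ d : ℝ) * (4 * (N : ℝ) ^ 2))) :=
    mul_le_mul_of_nonneg_left b2 (by positivity)
  calc _ ≤ C * 4 / Real.sqrt k + C * ((d * 2 ^ d : ℝ) * 4) / Real.sqrt k := by linarith
    _ = (C * (4 + (d * 2 ^ d : ℝ) * 4)) / Real.sqrt k := by ring

end Pool.Agent.PERC29.QQ
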