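import Pool.Agent.Lib.MP_29e17e_pr.Q.Dn
import Pool.Agent.Lib.MP_29e17e_pr.Q.Tb

set_option autoImplicit false
set_option linter.unusedSectionVars false

/-! The final theorem for the whole range above the critical window. -/

open Finset Filter Topology

namespace Pool.Agent.PERC29.QQ

open Pool.Agent.PERC29 Pool.Agent.PERC29.AE Pool.Agent.PERC29.OB Pool.Agent.PERC29.DZ

/-- The tail on the torus from the tail in boxes. -/
theorem T_of (d : ℕ) (C pc : ℝ) (hC : 1 ≤ C) (h0 : 0 ≤ pc) (h1 : pc ≤ 1)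
    (hT : ∀ (l : ℕ) (x : Fin d → Fin l) (k : ℕ), 1 ≤ k →
      prob (boxG d l) pc (fun ω => k ≤ clusterSize (boxG d l) ω x) ≤ C / Real.sqrt k) :
    ∀ (n : ℕ) [NeZero n] (x : Fin d → ZMod n) (k : ℕ), 1 ≤ k →
      prob (torG d n) pc (fun ω => k ≤ clusterSize (torG d n) ω x) ≤ (C + 2 ^ d) / Real.sqrt k := by
  classical
  intro n _ x k hk
  have hk0 : (0 : ℝ) < k := by exact_mod_cast hk
  have hk1 : (1 : ℝ) ≤ k := by exact_mod_cast hk
  have hs : 0 < Real.sqrt k := Real.sqrt_pos.2 hk0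
  have e0 : prob (torG d n) pc (fun ω => k ≤ clusterSize (torG d n) ω x) = fT d n pc k := by
    rw [tail_eq]
    exact tor_trans (d := d) (n := n) pc (fun c => if (k : ℝ) ≤ c then (1 : ℝ) else 0) x
  rw [e0]
  by_cases hn : 3 ≤ n
  · refine (tail_up (d := d) (N := n ^ d) hn le_rfl h0 h1 (k : ℝ)).trans ?_
    have h := hT (2 * n ^ d + 1) (ctr d (n ^ d)) k hk
    rw [tail_eq] at h
    refine le_trans (le_trans (le_of_eq ?_) h) ?_
    · congr 1
    · apply div_le_div_of_nonneg_right _ hs.le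
      have : (0 : ℝ) ≤ 2 ^ d := by positivity
      linarith
  · push Not at hn
    have hcard : ((Fintype.card (Fin d → ZMod n) : ℕ) : ℝ) ≤ 2 ^ d := by
      rw [Fintype.card_fun, ZMod.card, Fintype.card_fin]
      push_cast
      apply pow_le_pow_left₀ (Nat.cast_nonneg _)
      have : n ≤ 2 := by omega
      exact_mod_cast this
    have hcz : ∀ ω : (torG d n).edgeSet → Bool, cz (gends (torG d n)) ω 0 ≤ 2 ^ d := by
      intro ω
      refine le_trans ?_ hcard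
      unfold cz
      exact_mod_cast Finset.card_le_univ _
    unfold fT
    by_cases hk2 : (k : ℝ) ≤ 2 ^ d
    · have h2 : Ex pc (fun ω => if (k : ℝ) ≤ cz (gends (torG d n)) ω 0 then (1 : ℝ) else 0) ≤ 1 := by
        refine (Ex_mono h0 h1 (g := fun _ => (1 : ℝ)) fun ω => ?_).trans (le_of_eq (Ex_const _ _))
        split_ifs <;> norm_num
      refine h2.trans ?_
      rw [le_div_iff₀ hs, one_mul]
      have h3 : Real.sqrt k ≤ k := by
        rw [Real.sqrt_le_left (by linarith)]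
        nlinarith
      linarith
    · push Not at hk2
      have h2 : Ex pc (fun ω => if (k : ℝ) ≤ cz (gends (torG d n)) ω 0 then (1 : ℝ) else 0) ≤ 0 := by
        refine (Ex_mono h0 h1 (g := fun _ => (0 : ℝ)) fun ω => ?_).trans (le_of_eq (Ex_const _ _))
        rw [if_neg (by push Not; exact (hcz ω).trans_lt hk2)]
      refine h2.trans ?_
      have : (0 : ℝ) ≤ 2 ^ d := by positivity
      have : 0 ≤ C + 2 ^ d := by linarith
      positivity

/-- At `pc` there is no infinite cluster. -/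
theorem theta_zero (d : ℕ) (C pc : ℝ) (h0 : 0 < pc) (h1 : pc < 1)
    (hB : ∀ N : ℕ, 1 ≤ N → armProb d N pc ≤ C / (N : ℝ) ^ 2) : theta d pc = 0 := by
  rw [theta_eq]
  apply le_antisymm
  · refine le_of_forall_pos_le_add fun η hη => ?_
    obtain ⟨M, hM⟩ := exists_nat_ge (|C| / η)
    have k1 := hB (M + 1) (by omega)
    rw [arm_eq] at k1
    have k2 := th_le (d := d) h0.le h1.le (M + 1)
    have k3 : C / (((M + 1 : ℕ) : ℝ)) ^ 2 ≤ η := by
      rw [div_le_iff₀ (by positivity)]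
      rw [div_le_iff₀ hη] at hM
      have k4 : (M : ℝ) ≤ ((M + 1 : ℕ) : ℝ) ^ 2 := by
        push_cast
        have : (0 : ℝ) ≤ M := Nat.cast_nonneg _
        nlinarith
      have k5 : C ≤ |C| := le_abs_self C
      nlinarith
    linarith
  · exact le_th fun M => by
      unfold aM
      exact Ex_nonneg h0.le h1.le fun ω => by split_ifs <;> norm_num

/-- `theta` is nondecreasing. -/
theorem theta_mono (d : ℕ) {p p' : ℝ} (h0 : 0 ≤ p) (hpp : p ≤ p') (h1 : p' ≤ 1) : theta d p ≤ theta d p' := by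
  classical
  rw [theta_eq, theta_eq]
  refine le_th fun M => (th_le h0 (hpp.trans h1) M).trans ?_
  unfold aM
  refine Ex_mono_p h0 hpp h1 _ fun ω ω' h => ?_
  by_cases ha : arm d M ω
  · have hb : arm d M ω' := by
      unfold arm at ha ⊢
      rw [Finset.not_disjoint_iff] at ha ⊢
      obtain ⟨y, hy1, hy2⟩ := ha
      exact ⟨y, cu_mono h hy1, hy2⟩
    rw [if_pos ha, if_pos hb]
  · rw [if_neg ha]
    split_ifs <;> norm_num

/-- `pc` is the critical point: the largest `p` with `theta p = 0`. -/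
theorem crit_eq (d : ℕ) (C pc q : ℝ) (h0 : 0 < pc) (h1 : pc < 1) (hq : 0 < q)
    (hB : ∀ N : ℕ, 1 ≤ N → armProb d N pc ≤ C / (N : ℝ) ^ 2)
    (hlim : ∀ η : ℝ, 0 < η → ∃ ε0 : ℝ, 0 < ε0 ∧ ∀ ε : ℝ, 0 < ε → ε ≤ ε0 →
      |th d (pc + ε) - q * ε| ≤ η * ε) :
    IsGreatest {p : ℝ | 0 ≤ p ∧ p ≤ 1 ∧ theta d p = 0} pc := by
  refine ⟨⟨h0.le, h1.le, theta_zero d C pc h0 h1 hB⟩, ?_⟩
  rintro p ⟨hp0, hp1, hp⟩
  by_contra hcon
  push Not at hcon
  obtain ⟨ε0, hε0, hl⟩ := hlim (q / 2) (by positivity)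
  obtain ⟨ε, hε⟩ : ∃ ε, ε = min ε0 (p - pc) := ⟨_, rfl⟩
  have hε1 : 0 < ε := by rw [hε]; exact lt_min hε0 (by linarith)
  have hε2 : ε ≤ ε0 := by rw [hε]; exact min_le_left _ _
  have hε3 : ε ≤ p - pc := by rw [hε]; exact min_le_right _ _
  have k1 := (abs_le.1 (hl ε hε1 hε2)).1
  have k2 := theta_mono d (p := pc + ε) (p' := p) (by linarith) (by linarith) hp1
  rw [theta_eq (pc + ε), hp] at k2
  have k3 : 0 < q / 2 * ε := by positivity
  linarith

/-- The giant component of the torus above the critical window, from the lower bound `LTs` below `pc`. -/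
theorem finalG (d : ℕ) (C c₀ pc cL AL : ℝ) (hd : 11 ≤ d) (hc₀ : 0 < c₀) (h0 : 0 < pc) (h1 : pc < 1)
    (hU : ∀ (l : ℕ) (x y : Fin d → Fin l) (s : ℝ), 0 ≤ s → s ≤ c₀ →
      tau (boxG d l) (pc - s) x y ≤
        C / (1 + (nd x y : ℝ)) ^ (d - 2) * Real.exp (-(c₀ * Real.sqrt s * (nd x y : ℝ))))
    (hL : ∀ (l : ℕ) (x y : Fin d → Fin l), bul x → bul y → c₀ / (l : ℝ) ^ (d - 2) ≤ tau (boxG d l) pc x y)
    (hB : ∀ N : ℕ, 1 ≤ N → armProb d N pc ≤ C / (N : ℝ) ^ 2)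
    (hcL : 0 < cL) (hAL : 0 < AL) (hP' : LTs d cL AL pc) :
    IsGreatest {p : ℝ | 0 ≤ p ∧ p ≤ 1 ∧ theta d p = 0} pc ∧
    ∃ c : ℝ, 0 < c ∧ HasDerivWithinAt (fun e : ℝ => theta d (pc * (1 + e))) c (Set.Ici 0) 0 ∧
      ∀ lam : ℝ, 0 < lam → ∀ pT : ℕ → ℝ,
        (∀ᶠ n : ℕ in atTop, 0 ≤ pT n ∧ pT n ≤ 1 ∧
          chi (torG d (n + 3)) (pT n) 0 = lam * (((n : ℝ) + 3) ^ d) ^ ((1 : ℝ) / 3)) →
        ∀ ε : ℕ → ℝ, Tendsto ε atTop (𝓝 0) →
          Tendsto (fun n : ℕ => ε n * (((n : ℝ) + 3) ^ d) ^ ((1 : ℝ) / 3)) atTop atTop → ∀ δ : ℝ, 0 < δ →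
          Tendsto (fun n : ℕ => prob (torG d (n + 3)) (pT n * (1 + ε n)) (fun ω =>
            δ * ε n * ((n : ℝ) + 3) ^ d <
              |(maxCluster (torG d (n + 3)) ω : ℝ) - c * ε n * ((n : ℝ) + 3) ^ d|)) atTop (𝓝 0) ∧
          Tendsto (fun n : ℕ => prob (torG d (n + 3)) (pT n * (1 + ε n)) (fun ω => ∃ x y,
            ¬ (openGraph (torG d (n + 3)) ω).Reachable x y ∧
            δ * ε n * ((n : ℝ) + 3) ^ d < (clusterSize (torG d (n + 3)) ω x : ℝ) ∧
            δ * ε n * ((n : ℝ) + 3) ^ d < (clusterSize (torG d (n + 3)) ω y : ℝ))) atTop (𝓝 0) := by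
  classical
  obtain ⟨C1, hC1d⟩ : ∃ C1, C1 = max C 1 := ⟨_, rfl⟩
  have hC11 : 1 ≤ C1 := by rw [hC1d]; exact le_max_right _ _
  have hCC1 : C ≤ C1 := by rw [hC1d]; exact le_max_left _ _
  -- the two-point function below `pc`
  have hE : EB d C1 c₀ c₀ pc := by
    intro l s hs hsc x y
    have h := hU l x y s hs.le hsc
    rw [tau_eq] at h
    have e : ta (gends (boxG d l)) (pc - s) x y ≤
        C / (1 + (nd x y : ℝ)) ^ (d - 2) * Real.exp (-(c₀ * Real.sqrt s * (nd x y : ℝ))) := by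
      convert h
    refine e.trans ?_
    unfold ek fk
    rw [← mul_assoc, mul_one_div]
    apply mul_le_mul_of_nonneg_right _ (Real.exp_pos _).le
    exact div_le_div_of_nonneg_right hCC1 (by positivity)
  obtain ⟨C2, hC2, hX⟩ := X_of d (by omega) C1 c₀ c₀ pc hC11 hc₀ hc₀ h0 h1 hE
  have hU0 : ∀ (l : ℕ) (x y : Fin d → Fin l), tau (boxG d l) pc x y ≤ C1 / (1 + (nd x y : ℝ)) ^ (d - 2) := by
    intro l x y
    have h := hU l x y 0 le_rfl hc₀.le
    rw [Real.sqrt_zero, mul_zero, zero_mul, neg_zero, Real.exp_zero, mul_one, sub_zero] at h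
    exact h.trans (div_le_div_of_nonneg_right hCC1 (by positivity))
  have hB0 : ∀ N : ℕ, 1 ≤ N → armProb d N pc ≤ C1 / (N : ℝ) ^ 2 := by
    intro N hN
    exact (hB N hN).trans (div_le_div_of_nonneg_right hCC1 (by positivity))
  obtain ⟨C3, hC3d⟩ : ∃ C3, C3 = C1 * (4 + (d * 2 ^ d : ℝ) * 4) := ⟨_, rfl⟩
  have hC31 : C1 ≤ C3 := by
    rw [hC3d]
    have : (0 : ℝ) ≤ (d * 2 ^ d : ℝ) := by positivity
    nlinarith
  have hTb : ∀ (l : ℕ) (x : Fin d → Fin l) (k : ℕ), 1 ≤ k →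
      prob (boxG d l) pc (fun ω => k ≤ clusterSize (boxG d l) ω x) ≤ C3 / Real.sqrt k := by
    intro l x k hk
    rw [hC3d]
    exact tail_box d (by omega) C1 pc (by linarith) h0.le h1.le hU0 hB0 l x k hk
  have hTt := T_of d C3 pc (hC11.trans hC31) h0.le h1.le hTb
  obtain ⟨K, hKd⟩ : ∃ K, K = max C2 (C3 + 2 ^ d) := ⟨_, rfl⟩
  have hK2 : C2 ≤ K := by rw [hKd]; exact le_max_left _ _
  have hK3 : C3 + 2 ^ d ≤ K := by rw [hKd]; exact le_max_right _ _
  have hK1 : C1 ≤ K := by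
    have : (0 : ℝ) ≤ 2 ^ d := by positivity
    linarith
  have hU' : ∀ (l : ℕ) (x y : Fin d → Fin l), tau (boxG d l) pc x y ≤ K / (1 + (nd x y : ℝ)) ^ (d - 2) := by
    intro l x y
    have h := hU l x y 0 le_rfl hc₀.le
    rw [Real.sqrt_zero, mul_zero, zero_mul, neg_zero, Real.exp_zero, mul_one, sub_zero] at h
    exact h.trans (div_le_div_of_nonneg_right (hCC1.trans hK1) (by positivity))
  have hB' : ∀ N : ℕ, 1 ≤ N → armProb d N pc ≤ K / (N : ℝ) ^ 2 := by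
    intro N hN
    exact (hB N hN).trans (div_le_div_of_nonneg_right (hCC1.trans hK1) (by positivity))
  have hT' : ∀ (n : ℕ) [NeZero n] (x : Fin d → ZMod n) (k : ℕ), 1 ≤ k →
      prob (torG d n) pc (fun ω => k ≤ clusterSize (torG d n) ω x) ≤ K / Real.sqrt k := by
    intro n _ x k hk
    exact (hTt n x k hk).trans (div_le_div_of_nonneg_right hK3 (Real.sqrt_nonneg _))
  have hX' : ∀ (n : ℕ) [NeZero n] (p : ℝ), 0 < p → p < pc → chi (torG d n) p 0 ≤ K / (pc - p) := by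
    intro n _ p hp hp2
    exact (hX n p hp hp2).trans (div_le_div_of_nonneg_right hK2 (by linarith))
  obtain ⟨C', s0, c, hC', hs0, ht, hHyp, hHT⟩ := hyps_of d K c₀ pc hd hc₀ h0 h1 hU' hL hB' hT' hX'
  obtain ⟨q, hq, hlim, hG⟩ := giant_lim d C' c₀ s0 c s0 pc hC' hc₀ hs0 ht hHyp hHT
  -- common constants
  obtain ⟨K2, hK2d⟩ : ∃ K2, K2 = max C' C1 := ⟨_, rfl⟩
  have hK2a : C' ≤ K2 := by rw [hK2d]; exact le_max_left _ _
  have hK2b : C1 ≤ K2 := by rw [hK2d]; exact le_max_right _ _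
  obtain ⟨s1, hs1d⟩ : ∃ s1, s1 = min s0 c₀ := ⟨_, rfl⟩
  have hs1a : s1 ≤ s0 := by rw [hs1d]; exact min_le_left _ _
  have hs1b : s1 ≤ c₀ := by rw [hs1d]; exact min_le_right _ _
  have hs1 : 0 < s1 := by rw [hs1d]; exact lt_min hs0 hc₀
  have hHyp' : ∀ l : ℕ, Hyp d K2 c₀ pc l := by
    intro l
    obtain ⟨a1, a2, a3⟩ := hHyp l
    refine ⟨fun x y => (a1 x y).trans ?_, fun x k hk => (a2 x k hk).trans ?_, a3⟩
    · exact mul_le_mul_of_nonneg_right hK2a (by unfold fk; positivity)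
    · exact div_le_div_of_nonneg_right hK2a (Real.sqrt_nonneg _)
  have hHT' : HypT d K2 pc s1 := by
    obtain ⟨a1, a2⟩ := hHT
    refine ⟨fun M hM => (a1 M hM).trans (div_le_div_of_nonneg_right hK2a (by positivity)), ?_⟩
    intro n _ _ x r hr hr2 k hk
    refine (a2 n x r hr (by linarith) k hk).trans ?_
    apply mul_le_mul_of_nonneg_right hK2a
    have : 0 ≤ 1 / Real.sqrt (k : ℝ) := by positivity
    linarith
  have hE' : EB d K2 c₀ s1 pc := by
    intro l s hs hsc x y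
    exact (hE l s hs (hsc.trans hs1b) x y).trans (mul_le_mul_of_nonneg_right hK2b (ek_nonneg _ _ _ _))
  have hM := GMid_of d (by omega) K2 c₀ c₀ s1 cL AL pc q (hC'.trans hK2a) hc₀ hc₀ hs1 hcL hAL
    h0 h1 hHyp' hHT' hE' hP' hlim
  exact ⟨crit_eq d K pc q h0 h1 hq hB' hlim, final_of d hd K pc q h0 h1 hq hX' hB' hlim (GLimV_of hG hM)⟩

end Pool.Agent.PERC29.QQ
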