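import Pool.Agent.Lib.MP_29e17e_pr.Y.Cm
import Pool.Agent.Lib.MP_29e17e_pr.Pro

set_option autoImplicit false
set_option linter.unusedSectionVars false

/-! Rows 29c-L1 .. L3: change of the parameter for functions with values in `[0, 1]`, ghost field. -/

open Finset

namespace Pool.Agent.PERC29.QQ

open Pool.Agent.PERC29 Pool.Agent.PERC29.AE

open scoped Classical in
/-- the layer cake: `m y ≤ #{j < m : j / m < y} ≤ m y + 1` -/
private lemma L1_layer (m : ℕ) (hm : 1 ≤ m) {y : ℝ} (h0 : 0 ≤ y) (h1 : y ≤ 1) :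
    (m : ℝ) * y ≤ ∑ j ∈ Finset.range m, (if (j : ℝ) / m < y then (1 : ℝ) else 0) ∧
      ∑ j ∈ Finset.range m, (if (j : ℝ) / m < y then (1 : ℝ) else 0) ≤ (m : ℝ) * y + 1 := by
  have hm0 : (0 : ℝ) < m := by exact_mod_cast hm
  have hset : (Finset.range m).filter (fun j : ℕ => (j : ℝ) / m < y) =
      Finset.range ⌈(m : ℝ) * y⌉₊ := by
    ext j
    rw [Finset.mem_filter, Finset.mem_range, Finset.mem_range, Nat.lt_ceil, div_lt_iff₀ hm0]
    constructor
    · rintro ⟨_, h⟩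
      linarith
    · intro h
      refine ⟨?_, by linarith⟩
      have h2 : (m : ℝ) * y ≤ m := by nlinarith
      exact_mod_cast lt_of_lt_of_le h h2
  rw [← Finset.sum_filter, hset, Finset.sum_const, Finset.card_range, nsmul_eq_mul, mul_one]
  exact ⟨Nat.le_ceil _, (Nat.ceil_lt_add_one (by positivity)).le⟩

open scoped Classical in
/-- Row L1. `localize` for functions with values in `[0, 1]`: the same `T`, `ε0`. For every `m ≥ 1`: `F ≤ (1/m) ∑ over j < m of 1[j/m < F] ≤ F + 1/m`; the events `A = {j/m < F}` satisfy the hypotheses of `localize` (the function `1[j/m < F]` is `Lcx`; `F ω ≠ 0` on `A`). So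
`Ex (p+s) F ≤ (1/m) ∑ (T Ex p 1_A + η s) ≤ T (Ex p F + 1/m) + η s`; `m → ∞`. -/
theorem localize_f (C cp A1 η s0 : ℝ) (Dg : ℕ) (hC : 0 ≤ C) (hcp : 0 < cp) (hA1 : 1 ≤ A1) (hη : 0 < η)
    (hs0 : 0 < s0) :
    ∃ T ε0 : ℝ, 2 ≤ T ∧ 0 < ε0 ∧ ∀ (V : Type) [Fintype V] [DecidableEq V] (E : Type) [Fintype E]
      [DecidableEq E] (ends : E → Sym2 V) (p s : ℝ) (x : V) (F : (E → Bool) → ℝ), cp ≤ p →
      cp ≤ 1 - p → 0 < s → s ≤ ε0 →
      (∀ v, (Finset.univ.filter (fun e => v ∈ ends e)).card ≤ Dg) →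
      (∀ r, p ≤ r → r ≤ p + s0 → ∀ k : ℕ, 1 ≤ k →
        Ex r (fun ω => if (k : ℝ) ≤ cz ends ω x then (1 : ℝ) else 0) ≤ C * (1 / Real.sqrt k + (r - p))) →
      (∀ ω, 0 ≤ F ω) → (∀ ω, F ω ≤ 1) → Lcx ends x F → (∀ ω, F ω ≠ 0 → cz ends ω x ≤ A1 / s ^ 2) →
      Ex (p + s) F ≤ T * Ex p F + η * s := by
  obtain ⟨T, ε0, hT, hε0, hloc⟩ := localize C cp A1 η s0 Dg hC hcp hA1 hη hs0
  refine ⟨T, min ε0 cp, hT, lt_min hε0 hcp, ?_⟩
  intro V _ _ E _ _ ends p s x F hp hp1 hs hse hdeg hTl hF0 hF1 hF hv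
  have hsε : s ≤ ε0 := hse.trans (min_le_left _ _)
  have hsc : s ≤ cp := hse.trans (min_le_right _ _)
  have hT0 : 0 < T := by linarith
  have key : ∀ m : ℕ, 1 ≤ m → Ex (p + s) F ≤ T * Ex p F + η * s + T * (1 / (m : ℝ)) := by
    intro m hm
    have hm0 : (0 : ℝ) < m := by exact_mod_cast hm
    have hle : ∀ ω, F ω ≤ (1 / (m : ℝ)) *
        ∑ j ∈ Finset.range m, (if (j : ℝ) / m < F ω then (1 : ℝ) else 0) := by
      intro ω
      have h1 := (L1_layer m hm (hF0 ω) (hF1 ω)).1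
      rw [one_div_mul_eq_div, le_div_iff₀ hm0]
      linarith
    have hge : ∀ ω, (1 / (m : ℝ)) *
        ∑ j ∈ Finset.range m, (if (j : ℝ) / m < F ω then (1 : ℝ) else 0) ≤ F ω + 1 / m := by
      intro ω
      have h1 := (L1_layer m hm (hF0 ω) (hF1 ω)).2
      rw [one_div_mul_eq_div, div_le_iff₀ hm0, add_mul, one_div_mul_cancel hm0.ne']
      linarith
    have h1 : Ex (p + s) F ≤ (1 / (m : ℝ)) * ∑ j ∈ Finset.range m,
        Ex (p + s) (fun ω => if (j : ℝ) / m < F ω then (1 : ℝ) else 0) := by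
      rw [← Ex_sum, ← Ex_mul_left]
      exact Ex_mono (by linarith) (by linarith) hle
    have h2 : (1 / (m : ℝ)) * ∑ j ∈ Finset.range m,
        Ex p (fun ω => if (j : ℝ) / m < F ω then (1 : ℝ) else 0) ≤ Ex p F + 1 / m := by
      rw [← Ex_sum, ← Ex_mul_left]
      refine (Ex_mono (by linarith) (by linarith) hge).trans (le_of_eq ?_)
      rw [Ex_add, Ex_const]
    have h3 : ∀ j ∈ Finset.range m,
        Ex (p + s) (fun ω => if (j : ℝ) / m < F ω then (1 : ℝ) else 0) ≤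
          T * Ex p (fun ω => if (j : ℝ) / m < F ω then (1 : ℝ) else 0) + η * s := by
      intro j _
      refine hloc V E ends p s x (fun ω => (j : ℝ) / m < F ω) hp hp1 hs hsε hdeg hTl ?_ ?_
      · intro ω ω' h
        have h4 := hF ω ω' h
        simp only [h4]
      · intro ω h
        refine hv ω ?_
        have h5 : (0 : ℝ) ≤ (j : ℝ) / m := by positivity
        exact (lt_of_le_of_lt h5 h).ne'
    have h4 := Finset.sum_le_sum h3
    rw [Finset.sum_add_distrib, ← Finset.mul_sum, Finset.sum_const, Finset.card_range,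
      nsmul_eq_mul] at h4
    have h5 : (1 / (m : ℝ)) * ∑ j ∈ Finset.range m,
        Ex (p + s) (fun ω => if (j : ℝ) / m < F ω then (1 : ℝ) else 0) ≤
        (1 / (m : ℝ)) * (T * ∑ j ∈ Finset.range m,
          Ex p (fun ω => if (j : ℝ) / m < F ω then (1 : ℝ) else 0) + (m : ℝ) * (η * s)) :=
      mul_le_mul_of_nonneg_left h4 (by positivity)
    have h6 : (1 / (m : ℝ)) * (T * ∑ j ∈ Finset.range m,
          Ex p (fun ω => if (j : ℝ) / m < F ω then (1 : ℝ) else 0) + (m : ℝ) * (η * s)) =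
        T * ((1 / (m : ℝ)) * ∑ j ∈ Finset.range m,
          Ex p (fun ω => if (j : ℝ) / m < F ω then (1 : ℝ) else 0)) + η * s := by
      field_simp
    have h7 := mul_le_mul_of_nonneg_left h2 hT0.le
    rw [h6] at h5
    have h8 : T * (Ex p F + 1 / m) = T * Ex p F + T * (1 / (m : ℝ)) := by ring
    linarith
  refine le_of_forall_pos_le_add fun e he => ?_
  obtain ⟨m, hm⟩ := exists_nat_gt (T / e)
  have hm0 : (0 : ℝ) < m := lt_of_le_of_lt (by positivity) hm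
  have hm1 : 1 ≤ m := by
    have : 0 < m := by exact_mod_cast hm0
    omega
  have h1 := key m hm1
  have h2 : T * (1 / (m : ℝ)) ≤ e := by
    rw [mul_one_div, div_le_iff₀ hm0]
    rw [div_lt_iff₀ he] at hm
    linarith
  linarith

open scoped Classical in
/-- Row L2. `1 - (1-h)^k ≤ 1[B/ε² ≤ k] + h min k (B/ε²)` (`1 - (1-h)^k ≤ min 1 (h k)`: `one_add_mul_le_pow`), `min_tail2` with `a = B/ε² ≥ 1`: `3 C √B/ε + 2 C B/ε ≤ 5 C B/ε`. -/
lemma green_le {V : Type} [Fintype V] [DecidableEq V] {E : Type} [Fintype E] [DecidableEq E] {ends : E → Sym2 V} {p C ε B h : ℝ} (h0 : 0 ≤ p) (h1 : p ≤ 1) (hC : 0 ≤ C) (hε : 0 < ε) (hε1 : ε ≤ 1)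
    (hB : 1 ≤ B) (hh0 : 0 ≤ h) (hh1 : h ≤ 1) (x : V)
    (hT : ∀ k : ℕ, 1 ≤ k → Ex p (fun ω => if (k : ℝ) ≤ cz ends ω x then (1 : ℝ) else 0) ≤ C * (1 / Real.sqrt k + ε)) :
    Ex p (fun ω => 1 - (1 - h) ^ (cu ends ω x).card) ≤ Ex p (fun ω => if B / ε ^ 2 ≤ cz ends ω x then (1 : ℝ) else 0) + 5 * C * B * h / ε := by
  obtain ⟨a, ha⟩ : ∃ a, a = B / ε ^ 2 := ⟨_, rfl⟩
  have hε2 : 0 < ε ^ 2 := by positivity
  have ha1 : 1 ≤ a := by
    rw [ha, le_div_iff₀ hε2]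
    nlinarith
  have hm := min_tail2 (ends := ends) h0 h1 hC hε.le x hT ha1
  rw [← ha]
  have hpt : ∀ ω : E → Bool, 1 - (1 - h) ^ (cu ends ω x).card ≤
      (if a ≤ cz ends ω x then (1 : ℝ) else 0) + h * min (cz ends ω x) a := by
    intro ω
    have hp : 0 ≤ (1 - h) ^ (cu ends ω x).card := pow_nonneg (by linarith) _
    by_cases hc : a ≤ cz ends ω x
    · rw [if_pos hc, min_eq_right hc]
      have : 0 ≤ h * a := mul_nonneg hh0 (by linarith)
      linarith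
    · rw [if_neg hc]
      push Not at hc
      rw [min_eq_left hc.le]
      have h3 := one_add_mul_le_pow (a := -h) (by linarith) (cu ends ω x).card
      have h4 : (1 + -h) = 1 - h := by ring
      rw [h4] at h3
      unfold cz
      linarith
  have hE := Ex_mono h0 h1 hpt
  rw [Ex_add, Ex_mul_left] at hE
  have hs : Real.sqrt a = Real.sqrt B / ε := by
    rw [ha, Real.sqrt_div' _ hε2.le, Real.sqrt_sq hε.le]
  have hsB : Real.sqrt B ≤ B := by
    rw [Real.sqrt_le_left (by linarith)]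
    nlinarith
  have h5 : 3 * C * Real.sqrt a + 2 * C * ε * a ≤ 5 * C * B / ε := by
    rw [hs, ha]
    have e1 : 2 * C * ε * (B / ε ^ 2) = 2 * C * B / ε := by
      field_simp
    have e2 : 3 * C * (Real.sqrt B / ε) = 3 * C * Real.sqrt B / ε := by ring
    rw [e1, e2, ← add_div]
    apply div_le_div_of_nonneg_right _ hε.le
    have : C * Real.sqrt B ≤ C * B := mul_le_mul_of_nonneg_left hsB hC
    linarith
  have h6 : h * Ex p (fun ω => min (cz ends ω x) a) ≤ h * (5 * C * B / ε) :=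
    mul_le_mul_of_nonneg_left (hm.trans h5) hh0
  have h7 : h * (5 * C * B / ε) = 5 * C * B * h / ε := by ring
  linarith

open scoped Classical in
/-- Row L2. The tail at a real number `t ≥ 1` (`k = ⌈t⌉`), and `green_le` with `B = 1`, `Ex p 1[1/ε² ≤ cz] ≤ 2 C ε`. -/
lemma green_M {V : Type} [Fintype V] [DecidableEq V] {E : Type} [Fintype E] [DecidableEq E] {ends : E → Sym2 V} {p C ε h : ℝ} (h0 : 0 ≤ p) (h1 : p ≤ 1) (hC : 0 ≤ C) (hε : 0 < ε) (hε1 : ε ≤ 1)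
    (hh0 : 0 ≤ h) (hh1 : h ≤ ε ^ 2) (x : V)
    (hT : ∀ k : ℕ, 1 ≤ k → Ex p (fun ω => if (k : ℝ) ≤ cz ends ω x then (1 : ℝ) else 0) ≤ C * (1 / Real.sqrt k + ε)) :
    Ex p (fun ω => 1 - (1 - h) ^ (cu ends ω x).card) ≤ 7 * C * ε := by
  have hε2 : 0 < ε ^ 2 := by positivity
  have hh1' : h ≤ 1 := hh1.trans (by nlinarith)
  have hg := green_le (ends := ends) (B := 1) h0 h1 hC hε hε1 le_rfl hh0 hh1' x hT
  obtain ⟨k, hk⟩ : ∃ k : ℕ, k = ⌈(1 : ℝ) / ε ^ 2⌉₊ := ⟨_, rfl⟩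
  have hk1 : 1 / ε ^ 2 ≤ (k : ℝ) := by rw [hk]; exact Nat.le_ceil _
  have hkpos : 1 ≤ k := by
    have h3 : (0 : ℝ) < k := lt_of_lt_of_le (by positivity) hk1
    have : 0 < k := by exact_mod_cast h3
    omega
  have h4 : Ex p (fun ω => if 1 / ε ^ 2 ≤ cz ends ω x then (1 : ℝ) else 0) ≤ 2 * C * ε := by
    refine (Ex_mono h0 h1 fun ω => ?_).trans ((hT k hkpos).trans ?_)
    · by_cases hc : 1 / ε ^ 2 ≤ cz ends ω x
      · rw [if_pos hc, if_pos]
        unfold cz at hc ⊢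
        rw [hk]
        exact_mod_cast Nat.ceil_le.2 hc
      · rw [if_neg hc]
        split_ifs <;> norm_num
    · have h5 : 1 / Real.sqrt (k : ℝ) ≤ ε := by
        have h6 : 1 / ε ≤ Real.sqrt (k : ℝ) := by
          rw [Real.le_sqrt (by positivity) (Nat.cast_nonneg _), div_pow, one_pow]
          exact hk1
        have h7 : 0 < 1 / ε := by positivity
        have := one_div_le_one_div_of_le h7 h6
        rwa [one_div_one_div] at this
      have h8 : C * (1 / Real.sqrt (k : ℝ) + ε) ≤ C * (ε + ε) :=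
        mul_le_mul_of_nonneg_left (by linarith) hC
      linarith
  have h9 : 5 * C * 1 * h / ε ≤ 5 * C * ε := by
    rw [div_le_iff₀ hε]
    have : 5 * C * h ≤ 5 * C * ε ^ 2 := mul_le_mul_of_nonneg_left hh1 (by positivity)
    nlinarith
  linarith

private lemma L3_K (C η : ℝ) (_hC : 0 ≤ C) (hη : 0 < η) : ∃ K : ℝ, 1 ≤ K ∧ 2 * C * Real.exp (-K) ≤ η / 2 := by
  refine ⟨max 1 (4 * C / η), le_max_left _ _, ?_⟩
  obtain ⟨K, hK⟩ : ∃ K : ℝ, K = max 1 (4 * C / η) := ⟨_, rfl⟩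
  rw [← hK]
  have h1 : 1 ≤ K := by rw [hK]; exact le_max_left _ _
  have h2 : 4 * C / η ≤ K := by rw [hK]; exact le_max_right _ _
  have h3 : 4 * C ≤ K * η := (div_le_iff₀ hη).1 h2
  have h4 : Real.exp (-K) * K ≤ 1 := by
    have h5 : K ≤ Real.exp K := by
      have := Real.add_one_le_exp K
      linarith
    calc Real.exp (-K) * K ≤ Real.exp (-K) * Real.exp K := mul_le_mul_of_nonneg_left h5 (Real.exp_pos _).le
      _ = 1 := by rw [← Real.exp_add]; simp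
  have h6 : 0 < Real.exp (-K) := Real.exp_pos _
  have h7 : Real.exp (-K) * (4 * C) ≤ Real.exp (-K) * (K * η) := mul_le_mul_of_nonneg_left h3 h6.le
  have h8 : Real.exp (-K) * (K * η) ≤ η := by
    calc Real.exp (-K) * (K * η) = (Real.exp (-K) * K) * η := by ring
      _ ≤ 1 * η := mul_le_mul_of_nonneg_right h4 hη.le
      _ = η := one_mul _
  linarith

private lemma L3_cu {V : Type} [Fintype V] [DecidableEq V] {E : Type} [Fintype E] [DecidableEq E]
    {ends : E → Sym2 V} {x : V} {ω ω' : E → Bool} (hh : ∀ e ∈ AE.tch ends (cu ends ω x), ω e = ω' e) :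
    cu ends ω' x = cu ends ω x := by
  obtain ⟨S, hS⟩ : ∃ S, cu ends ω x = S := ⟨_, rfl⟩
  rw [hS] at hh ⊢
  refine cl_eq_dep (fun e' a b h2 _ _ h5 => hh e' ?_) hS
  unfold AE.tch
  rw [Finset.mem_filter]
  refine ⟨Finset.mem_univ _, a, h5, ?_⟩
  rw [h2]
  exact Sym2.mem_mk_left a b

private lemma L3_pow {h K : ℝ} (_h0 : 0 ≤ h) (h1 : h ≤ 1) (c : ℕ) (hK : K ≤ h * c) :
    (1 - h) ^ c ≤ Real.exp (-K) := by
  have h2 : 1 - h ≤ Real.exp (-h) := Real.one_sub_le_exp_neg h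
  calc (1 - h) ^ c ≤ Real.exp (-h) ^ c := pow_le_pow_left₀ (by linarith) h2 c
    _ = Real.exp (-(h * c)) := by
      rw [← Real.exp_nat_mul]
      congr 1
      ring
    _ ≤ Real.exp (-K) := Real.exp_le_exp.2 (by linarith)

open scoped Classical in
/-- Row L3. Let `K ≥ 1` with `2 C exp (-K) ≤ η/2`, `A1 = max 1 (K/δ)`, `T` from `localize_f` with `A1`, `η/2`. `F = F1 + F2`, `F1` = the part with `cz ≤ A1/s²` (it is `Lcx`: `cu` is determined, `cl_eq_dep`; see `Ex_RN`; `F1 ≤ M Wf`), `Ex (p+s) F1 ≤ T Ex p F1 + (η/2) s ≤ T M Ex p Wf + (η/2) s`;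
`F2 ≤ (1-h)^cz 1[A1/s² < cz] ≤ exp (-K) 1[A1/s² < cz]` (`h cz ≥ δ s² A1/s² ≥ K`), and the tail at `p + s`: at most `C (1/√(A1/s²) + s) ≤ 2 C s`. -/
theorem F_abs (C cp η s0 δ : ℝ) (Dg : ℕ) (hC : 0 ≤ C) (hcp : 0 < cp) (hη : 0 < η) (hs0 : 0 < s0) (hδ : 0 < δ) (hδ1 : δ ≤ 1) :
    ∃ T ε0 : ℝ, 2 ≤ T ∧ 0 < ε0 ∧ ∀ (V : Type) [Fintype V] [DecidableEq V] (E : Type) [Fintype E]
      [DecidableEq E] (ends : E → Sym2 V) (p s M : ℝ) (x : V) (Wf : (E → Bool) → ℝ), cp ≤ p →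
      cp ≤ 1 - p → 0 < s → s ≤ ε0 →
      (∀ v, (Finset.univ.filter (fun e => v ∈ ends e)).card ≤ Dg) →
      (∀ r, p ≤ r → r ≤ p + s0 → ∀ k : ℕ, 1 ≤ k →
        Ex r (fun ω => if (k : ℝ) ≤ cz ends ω x then (1 : ℝ) else 0) ≤ C * (1 / Real.sqrt k + (r - p))) →
      0 ≤ M → (∀ ω, 0 ≤ Wf ω) → Lcx ends x Wf →
      Ex (p + s) (fun ω => (1 - δ * s ^ 2) ^ (cu ends ω x).card * min 1 (M * Wf ω)) ≤ T * M * Ex p Wf + η * s := by
  obtain ⟨K, hK1, hK⟩ := L3_K C η hC hη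
  obtain ⟨A1, hA1⟩ : ∃ A1 : ℝ, A1 = max 1 (K / δ) := ⟨_, rfl⟩
  have hA11 : 1 ≤ A1 := by rw [hA1]; exact le_max_left _ _
  have hA1K : K ≤ δ * A1 := by
    have h2 : K / δ ≤ A1 := by rw [hA1]; exact le_max_right _ _
    have h3 := (div_le_iff₀ hδ).1 h2
    linarith
  obtain ⟨T, ε1, hT2, hε1, hloc⟩ := localize_f C cp A1 (η / 2) s0 Dg hC hcp hA11 (half_pos hη) hs0
  refine ⟨T, min ε1 (min s0 (min 1 cp)), hT2, lt_min hε1 (lt_min hs0 (lt_min one_pos hcp)), ?_⟩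
  intro V _ _ E _ _ ends p s M x Wf hp hp1 hs hsε hdeg htail hM hWf hWL
  have hsε1 : s ≤ ε1 := hsε.trans (min_le_left _ _)
  have hss0 : s ≤ s0 := hsε.trans ((min_le_right _ _).trans (min_le_left _ _))
  have hs1 : s ≤ 1 := hsε.trans ((min_le_right _ _).trans ((min_le_right _ _).trans (min_le_left _ _)))
  have hscp : s ≤ cp := hsε.trans ((min_le_right _ _).trans ((min_le_right _ _).trans (min_le_right _ _)))
  have hp0 : 0 ≤ p := hcp.le.trans hp
  have hp1' : p ≤ 1 := by linarith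
  have hps0 : 0 ≤ p + s := by linarith
  have hps1 : p + s ≤ 1 := by linarith
  have hs2 : 0 < s ^ 2 := by positivity
  have hs21 : s ^ 2 ≤ 1 := pow_le_one₀ hs.le hs1
  have hh0 : 0 ≤ δ * s ^ 2 := by positivity
  have hh1 : δ * s ^ 2 ≤ 1 := mul_le_one₀ hδ1 hs2.le hs21
  obtain ⟨F, hF⟩ : ∃ F : (E → Bool) → ℝ,
      F = fun ω => (1 - δ * s ^ 2) ^ (cu ends ω x).card * min 1 (M * Wf ω) := ⟨_, rfl⟩
  have hb0 : ∀ ω, 0 ≤ (1 - δ * s ^ 2) ^ (cu ends ω x).card := fun ω => pow_nonneg (by linarith) _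
  have hb1 : ∀ ω, (1 - δ * s ^ 2) ^ (cu ends ω x).card ≤ 1 := fun ω => pow_le_one₀ (by linarith) (by linarith)
  have hm0 : ∀ ω, 0 ≤ min 1 (M * Wf ω) := fun ω => le_min zero_le_one (mul_nonneg hM (hWf ω))
  have hF0 : ∀ ω, 0 ≤ F ω := fun ω => by rw [hF]; exact mul_nonneg (hb0 ω) (hm0 ω)
  have hF1 : ∀ ω, F ω ≤ 1 := fun ω => by
    rw [hF]
    exact mul_le_one₀ (hb1 ω) (hm0 ω) (min_le_left _ _)
  have hFM : ∀ ω, F ω ≤ M * Wf ω := fun ω => by
    rw [hF]
    calc (1 - δ * s ^ 2) ^ (cu ends ω x).card * min 1 (M * Wf ω) ≤ 1 * min 1 (M * Wf ω) :=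
          mul_le_mul_of_nonneg_right (hb1 ω) (hm0 ω)
      _ ≤ M * Wf ω := by rw [one_mul]; exact min_le_right _ _
  have hFL : Lcx ends x F := by
    intro ω ω' hh
    rw [hF]
    simp only
    rw [L3_cu hh, hWL ω ω' hh]
  obtain ⟨k, hk⟩ : ∃ k : ℕ, k = ⌈A1 / s ^ 2⌉₊ := ⟨_, rfl⟩
  have hAs : 1 ≤ A1 / s ^ 2 := by
    rw [le_div_iff₀ hs2]
    linarith
  have hkA : A1 / s ^ 2 ≤ k := by rw [hk]; exact Nat.le_ceil _
  have hk1 : 1 ≤ k := by
    have h : (1 : ℝ) ≤ k := hAs.trans hkA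
    exact_mod_cast h
  -- the first part
  have h1 := hloc V E ends p s x (fun ω => if cz ends ω x ≤ A1 / s ^ 2 then F ω else 0) hp hp1 hs hsε1 hdeg htail
    (fun ω => by
      show 0 ≤ if cz ends ω x ≤ A1 / s ^ 2 then F ω else 0
      split_ifs
      · exact hF0 ω
      · exact le_rfl)
    (fun ω => by
      show (if cz ends ω x ≤ A1 / s ^ 2 then F ω else 0) ≤ 1
      split_ifs
      · exact hF1 ω
      · exact zero_le_one)
    (fun ω ω' hh => by
      show (if cz ends ω x ≤ A1 / s ^ 2 then F ω else 0) = if cz ends ω' x ≤ A1 / s ^ 2 then F ω' else 0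
      unfold cz
      rw [L3_cu hh, hFL ω ω' hh])
    (fun ω hne => by
      by_contra hcon
      exact hne (if_neg hcon))
  have h2 : Ex p (fun ω => if cz ends ω x ≤ A1 / s ^ 2 then F ω else 0) ≤ M * Ex p Wf := by
    rw [← Ex_mul_left]
    refine Ex_mono hp0 hp1' fun ω => ?_
    split_ifs
    · exact hFM ω
    · exact mul_nonneg hM (hWf ω)
  -- the second part
  have h3 : Ex (p + s) (fun ω => if (k : ℝ) ≤ cz ends ω x then (1 : ℝ) else 0) ≤ 2 * C * s := by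
    have h4 := htail (p + s) (by linarith) (by linarith) k hk1
    have h5 : 1 / Real.sqrt k ≤ s := by
      have h6 : 1 / s ^ 2 ≤ k := by
        refine le_trans ?_ hkA
        gcongr
      have h7 : 1 / s ≤ Real.sqrt k := by
        apply Real.le_sqrt_of_sq_le
        rw [div_pow, one_pow]
        exact h6
      have h8 : 0 < Real.sqrt k := lt_of_lt_of_le (by positivity) h7
      rw [div_le_iff₀ h8]
      calc (1 : ℝ) = s * (1 / s) := by field_simp
        _ ≤ s * Real.sqrt k := mul_le_mul_of_nonneg_left h7 hs.le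
    calc Ex (p + s) (fun ω => if (k : ℝ) ≤ cz ends ω x then (1 : ℝ) else 0)
        ≤ C * (1 / Real.sqrt k + (p + s - p)) := h4
      _ ≤ C * (s + s) := by
          apply mul_le_mul_of_nonneg_left _ hC
          linarith
      _ = 2 * C * s := by ring
  have h4 : ∀ ω, F ω ≤ (if cz ends ω x ≤ A1 / s ^ 2 then F ω else 0) +
      Real.exp (-K) * (if (k : ℝ) ≤ cz ends ω x then (1 : ℝ) else 0) := by
    intro ω
    by_cases hc : cz ends ω x ≤ A1 / s ^ 2
    · rw [if_pos hc]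
      have : 0 ≤ Real.exp (-K) * (if (k : ℝ) ≤ cz ends ω x then (1 : ℝ) else 0) := by
        apply mul_nonneg (Real.exp_pos _).le
        split_ifs
        · exact zero_le_one
        · exact le_rfl
      linarith
    · rw [if_neg hc]
      push Not at hc
      have hkc : (k : ℝ) ≤ cz ends ω x := by
        unfold cz at hc ⊢
        have h5 : k ≤ (cu ends ω x).card := by
          rw [hk, Nat.ceil_le]
          exact hc.le
        exact_mod_cast h5
      rw [if_pos hkc, mul_one, zero_add]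
      have h5 : K ≤ δ * s ^ 2 * ((cu ends ω x).card : ℝ) := by
        calc K ≤ δ * A1 := hA1K
          _ = δ * s ^ 2 * (A1 / s ^ 2) := by field_simp
          _ ≤ δ * s ^ 2 * ((cu ends ω x).card : ℝ) := by
            apply mul_le_mul_of_nonneg_left _ hh0
            exact hc.le
      have h6 := L3_pow hh0 hh1 (cu ends ω x).card h5
      rw [hF]
      calc (1 - δ * s ^ 2) ^ (cu ends ω x).card * min 1 (M * Wf ω)
          ≤ (1 - δ * s ^ 2) ^ (cu ends ω x).card * 1 := mul_le_mul_of_nonneg_left (min_le_left _ _) (hb0 ω)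
        _ ≤ Real.exp (-K) := by rw [mul_one]; exact h6
  have h5 := Ex_mono hps0 hps1 h4
  rw [Ex_add, Ex_mul_left] at h5
  have h6 : T * Ex p (fun ω => if cz ends ω x ≤ A1 / s ^ 2 then F ω else 0) ≤ T * (M * Ex p Wf) :=
    mul_le_mul_of_nonneg_left h2 (by linarith)
  have h7 : Real.exp (-K) * Ex (p + s) (fun ω => if (k : ℝ) ≤ cz ends ω x then (1 : ℝ) else 0) ≤
      η / 2 * s := by
    calc Real.exp (-K) * Ex (p + s) (fun ω => if (k : ℝ) ≤ cz ends ω x then (1 : ℝ) else 0)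
        ≤ Real.exp (-K) * (2 * C * s) := mul_le_mul_of_nonneg_left h3 (Real.exp_pos _).le
      _ = (2 * C * Real.exp (-K)) * s := by ring
      _ ≤ η / 2 * s := mul_le_mul_of_nonneg_right hK hs.le
  rw [← hF]
  calc Ex (p + s) F ≤ _ := h5
    _ ≤ (T * Ex p (fun ω => if cz ends ω x ≤ A1 / s ^ 2 then F ω else 0) + η / 2 * s) + η / 2 * s :=
        add_le_add h1 h7
    _ ≤ (T * (M * Ex p Wf) + η / 2 * s) + η / 2 * s := by linarith
    _ = T * M * Ex p Wf + η * s := by ring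

end Pool.Agent.PERC29.QQ
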