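import Pool.Agent.Lib.MP_29e17e_pr.O.Kt

set_option autoImplicit false
set_option linter.unusedSectionVars false

/-! Rows 29c-S1 .. S5: sums over a box and over a class mod `n` of the kernel `(1+|x-y|)^(2-d) exp(-a |x-y|)`. -/

open Finset

namespace Pool.Agent.PERC29.QQ

open Pool.Agent.PERC29 Pool.Agent.PERC29.AE Pool.Agent.PERC29.OB

variable {d l : ℕ}

/-- The kernel with exponential decay. -/
noncomputable def ek (k : ℕ) (a : ℝ) (x y : Fin d → Fin l) : ℝ := fk k x y * Real.exp (-(a * (nd x y : ℝ)))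

lemma ek_nonneg (k : ℕ) (a : ℝ) (x y : Fin d → Fin l) : 0 ≤ ek k a x y := by
  unfold ek fk
  positivity

/-- Row S1. `∑ (k+1) x^k ≤ 1/(1-x)²` with `x = exp (-a)` and `1 - x ≥ a/2` (`0 < a ≤ 1`). (For example by induction on `m`: `∑ over k < m of (k+1) x^k = (1 - (m+1) x^m + m x^(m+1))/(1-x)²`.) -/
lemma sum_exp {a : ℝ} (ha : 0 < a) (ha1 : a ≤ 1) (m : ℕ) : ∑ k ∈ Finset.range m, ((k : ℝ) + 1) * Real.exp (-(a * k)) ≤ 4 / a ^ 2 := by
  set x : ℝ := Real.exp (-a) with hx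
  have hx0 : 0 < x := Real.exp_pos _
  have hx1 : a / 2 ≤ 1 - x := by
    have h1 : 1 + a ≤ Real.exp a := by linarith [Real.add_one_le_exp a]
    have h2 : x * Real.exp a = 1 := by
      rw [hx, ← Real.exp_add]
      simp
    have h3 : x * (1 + a) ≤ 1 := by
      exact (mul_le_mul_of_nonneg_left h1 hx0.le).trans h2.le
    nlinarith
  have hx2 : x ≤ 1 := by linarith
  have hexp : ∀ k : ℕ, Real.exp (-(a * k)) = x ^ k := by
    intro k
    rw [hx, ← Real.exp_nat_mul]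
    congr 1
    ring
  have hid : ∀ m : ℕ, (∑ k ∈ Finset.range m, ((k : ℝ) + 1) * x ^ k) * (1 - x) ^ 2 =
      1 - ((m : ℝ) + 1) * x ^ m + (m : ℝ) * x ^ (m + 1) := by
    intro m
    induction m with
    | zero => simp
    | succ m ih =>
      rw [Finset.sum_range_succ, add_mul, ih]
      push_cast
      ring
  have h4 : (∑ k ∈ Finset.range m, ((k : ℝ) + 1) * x ^ k) * (1 - x) ^ 2 ≤ 1 := by
    rw [hid m]
    have h5 : x ^ (m + 1) ≤ x ^ m := pow_le_pow_of_le_one hx0.le hx2 (Nat.le_succ m)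
    have h6 : (m : ℝ) * x ^ (m + 1) ≤ (m : ℝ) * x ^ m := mul_le_mul_of_nonneg_left h5 (by positivity)
    have h7 : 0 < x ^ m := by positivity
    nlinarith
  have h8 : ∑ k ∈ Finset.range m, ((k : ℝ) + 1) * Real.exp (-(a * k)) =
      ∑ k ∈ Finset.range m, ((k : ℝ) + 1) * x ^ k :=
    Finset.sum_congr rfl fun k _ => by rw [hexp k]
  rw [h8, le_div_iff₀ (by positivity)]
  have h9 : 0 ≤ ∑ k ∈ Finset.range m, ((k : ℝ) + 1) * x ^ k :=
    Finset.sum_nonneg fun k _ => by positivity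
  have h10 : a ^ 2 ≤ 4 * (1 - x) ^ 2 := by nlinarith
  calc (∑ k ∈ Finset.range m, ((k : ℝ) + 1) * x ^ k) * a ^ 2
      ≤ (∑ k ∈ Finset.range m, ((k : ℝ) + 1) * x ^ k) * (4 * (1 - x) ^ 2) :=
        mul_le_mul_of_nonneg_left h10 h9
    _ = 4 * ((∑ k ∈ Finset.range m, ((k : ℝ) + 1) * x ^ k) * (1 - x) ^ 2) := by ring
    _ ≤ 4 := by linarith

/-- Row S1. `shell_sum` with `φ k = 1/(1+k)^(d-2) exp (-a k)`, `sum_exp`. -/
lemma sum_ek (hd : 2 ≤ d) {a : ℝ} (ha : 0 < a) (ha1 : a ≤ 1) (x : Fin d → Fin l) : ∑ y, ek (d - 2) a x y ≤ (d * 2 ^ d : ℝ) * (4 / a ^ 2) := by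
  have h1 := shell_sum (by omega : 1 ≤ d) x
    (fun k => 1 / (1 + (k : ℝ)) ^ (d - 2) * Real.exp (-(a * (k : ℝ)))) (fun k => by positivity)
  have h2 : ∑ y, ek (d - 2) a x y =
      ∑ y, 1 / (1 + ((nd x y : ℕ) : ℝ)) ^ (d - 2) * Real.exp (-(a * ((nd x y : ℕ) : ℝ))) := rfl
  rw [h2]
  refine h1.trans (mul_le_mul_of_nonneg_left ?_ (by positivity))
  refine le_trans (le_of_eq ?_) (sum_exp ha ha1 l)
  refine Finset.sum_congr rfl fun k _ => ?_
  have h3 : d - 1 = (d - 2) + 1 := by omega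
  have h4 : (1 + (k : ℝ)) ^ (d - 2) ≠ 0 := by positivity
  rw [h3, pow_succ, add_comm (k : ℝ) 1]
  field_simp

private lemma S2_one {n : ℕ} (w : ZMod n) (u : Fin l) (r : ℕ) :
    (Finset.univ.filter (fun v : Fin l => ((v : ℕ) : ZMod n) = w ∧ ((u : ℕ) - (v : ℕ)) + ((v : ℕ) - (u : ℕ)) ≤ r)).card ≤ 2 * r / n + 1 := by
  classical
  by_cases hne : (Finset.univ.filter (fun v : Fin l => ((v : ℕ) : ZMod n) = w ∧ ((u : ℕ) - (v : ℕ)) + ((v : ℕ) - (u : ℕ)) ≤ r)).Nonempty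
  · obtain ⟨m, hm, hmin⟩ := Finset.exists_min_image _ (fun v : Fin l => (v : ℕ)) hne
    simp only [Finset.mem_filter, Finset.mem_univ, true_and] at hm hmin
    have hdvd : ∀ v : Fin l, ((v : ℕ) : ZMod n) = w → (m : ℕ) ≤ v → n ∣ (v : ℕ) - m := by
      intro v hv hle
      have h1 : ((m : ℕ) : ZMod n) = ((v : ℕ) : ZMod n) := hm.1.trans hv.symm
      rw [ZMod.natCast_eq_natCast_iff] at h1
      exact (Nat.modEq_iff_dvd' hle).1 h1
    refine (Finset.card_le_card_of_injOn (t := Finset.range (2 * r / n + 1)) (fun v : Fin l => ((v : ℕ) - (m : ℕ)) / n) ?_ ?_).trans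
      (by rw [Finset.card_range])
    · intro v hv
      simp only [Finset.coe_filter, Finset.mem_univ, true_and, Set.mem_setOf_eq] at hv
      simp only [Finset.coe_range, Set.mem_Iio]
      have h2 : (v : ℕ) - (m : ℕ) ≤ 2 * r := by
        have h3 := hv.2
        have h4 := hm.2
        omega
      exact Nat.lt_succ_of_le (Nat.div_le_div_right h2)
    · intro v hv v' hv' h
      simp only [Finset.coe_filter, Finset.mem_univ, true_and, Set.mem_setOf_eq] at hv hv'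
      have h5 := hmin v hv
      have h6 := hmin v' hv'
      have h7 := Nat.mul_div_cancel' (hdvd v hv.1 h5)
      have h8 := Nat.mul_div_cancel' (hdvd v' hv'.1 h6)
      have h : ((v : ℕ) - (m : ℕ)) / n = ((v' : ℕ) - (m : ℕ)) / n := h
      rw [h] at h7
      apply Fin.ext
      omega
  · rw [Finset.not_nonempty_iff_eq_empty.1 hne, Finset.card_empty]
    exact Nat.zero_le _

private lemma S2_le (x y : Fin d → Fin l) (i : Fin d) :
    ((x i : ℕ) - (y i : ℕ)) + ((y i : ℕ) - (x i : ℕ)) ≤ nd x y :=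
  Finset.le_sup (f := fun i => ((x i : ℕ) - (y i : ℕ)) + ((y i : ℕ) - (x i : ℕ))) (Finset.mem_univ i)

/-- Row S2. In one coordinate: at most `2 r/n + 1` numbers in `[u - r, u + r]` (`2 r + 1` integers) in a given class mod `n` (`Nat.count_modEq_card`, `Int.Ico_filter_modEq_card`, or: two of them differ by at least `n`, so `v ↦ (v - (u - r)) / n` is injective into `{0, .., 2 r / n}`).
Then the product over the coordinates (`Fintype.piFinset`, `Fintype.card_piFinset`), as in `shell`. -/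
lemma cos_count {n : ℕ} (hn : 1 ≤ n) (w : Fin d → ZMod n) (u : Fin d → Fin l) (r : ℕ) :
    ((Finset.univ.filter (fun y : Fin d → Fin l => (∀ i, ((y i : ℕ) : ZMod n) = w i) ∧ nd u y ≤ r)).card : ℝ) ≤ (2 * r / n + 1) ^ d := by
  classical
  have h1 : (Finset.univ.filter (fun y : Fin d → Fin l => (∀ i, ((y i : ℕ) : ZMod n) = w i) ∧ nd u y ≤ r)) ⊆
      Fintype.piFinset (fun i => Finset.univ.filter (fun v : Fin l => ((v : ℕ) : ZMod n) = w i ∧
        ((u i : ℕ) - (v : ℕ)) + ((v : ℕ) - (u i : ℕ)) ≤ r)) := by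
    intro y hy
    simp only [Finset.mem_filter, Finset.mem_univ, true_and] at hy
    rw [Fintype.mem_piFinset]
    intro i
    simp only [Finset.mem_filter, Finset.mem_univ, true_and]
    exact ⟨hy.1 i, (S2_le u y i).trans hy.2⟩
  have h2 := Finset.card_le_card h1
  rw [Fintype.card_piFinset] at h2
  have h3 : (∏ i : Fin d, (Finset.univ.filter (fun v : Fin l => ((v : ℕ) : ZMod n) = w i ∧
        ((u i : ℕ) - (v : ℕ)) + ((v : ℕ) - (u i : ℕ)) ≤ r)).card) ≤ (2 * r / n + 1) ^ d := by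
    calc _ ≤ ∏ _i : Fin d, (2 * r / n + 1) := Finset.prod_le_prod' (fun i _ => S2_one (w i) (u i) r)
      _ = (2 * r / n + 1) ^ d := by rw [Finset.prod_const, Finset.card_univ, Fintype.card_fin]
  have h4 : ((2 * r / n + 1 : ℕ) : ℝ) ≤ 2 * r / n + 1 := by
    have h5 : ((2 * r / n : ℕ) : ℝ) ≤ ((2 * r : ℕ) : ℝ) / (n : ℝ) := Nat.cast_div_le
    push_cast at h5 ⊢
    linarith
  calc ((Finset.univ.filter (fun y : Fin d → Fin l => (∀ i, ((y i : ℕ) : ZMod n) = w i) ∧ nd u y ≤ r)).card : ℝ)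
      ≤ (((2 * r / n + 1) ^ d : ℕ) : ℝ) := by exact_mod_cast h2.trans h3
    _ = ((2 * r / n + 1 : ℕ) : ℝ) ^ d := by rw [Nat.cast_pow]
    _ ≤ (2 * r / n + 1) ^ d := pow_le_pow_left₀ (Nat.cast_nonneg _) h4 d

/-- The weight of the distance `r`. -/
private noncomputable def S3_phi (k : ℕ) (a : ℝ) (r : ℕ) : ℝ :=
  1 / (1 + (r : ℝ)) ^ k * Real.exp (-(a * (r : ℝ)))

private lemma S3_nonneg (k : ℕ) (a : ℝ) (r : ℕ) : 0 ≤ S3_phi k a r := by
  unfold S3_phi
  positivity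

private lemma S3_anti (k : ℕ) {a : ℝ} (ha : 0 < a) {j r : ℕ} (h : j ≤ r) :
    S3_phi k a r ≤ S3_phi k a j := by
  unfold S3_phi
  have h1 : (j : ℝ) ≤ r := by exact_mod_cast h
  apply mul_le_mul
  · apply one_div_le_one_div_of_le (by positivity)
    exact pow_le_pow_left₀ (by positivity) (by linarith) k
  · apply Real.exp_le_exp.mpr
    have h2 := mul_le_mul_of_nonneg_left h1 ha.le
    linarith
  · positivity
  · positivity

private lemma S3_spread (k : ℕ) {a : ℝ} (ha : 0 < a) {r M : ℕ} (hr : 1 ≤ r) (hM : r ≤ M) :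
    S3_phi k a r ≤ ∑ j ∈ (Finset.Icc 1 M).filter (fun j => j ≤ r ∧ r ≤ 2 * j),
      2 / (j : ℝ) * S3_phi k a j := by
  have hr0 : (0 : ℝ) < r := by exact_mod_cast hr
  have hsub : Finset.Icc ((r + 1) / 2) r ⊆
      (Finset.Icc 1 M).filter (fun j => j ≤ r ∧ r ≤ 2 * j) := by
    intro j hj
    rw [Finset.mem_Icc] at hj
    rw [Finset.mem_filter, Finset.mem_Icc]
    refine ⟨⟨?_, ?_⟩, ?_, ?_⟩ <;> omega
  have hcard : (r : ℝ) / 2 ≤ ((Finset.Icc ((r + 1) / 2) r).card : ℝ) := by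
    rw [Nat.card_Icc, div_le_iff₀ (by norm_num : (0 : ℝ) < 2)]
    have h1 : r ≤ (r + 1 - (r + 1) / 2) * 2 := by omega
    exact_mod_cast h1
  calc S3_phi k a r = (r / 2 : ℝ) * (2 / (r : ℝ) * S3_phi k a r) := by
        field_simp
    _ ≤ ((Finset.Icc ((r + 1) / 2) r).card : ℝ) * (2 / (r : ℝ) * S3_phi k a r) := by
        apply mul_le_mul_of_nonneg_right hcard
        have := S3_nonneg k a r
        positivity
    _ = ∑ j ∈ Finset.Icc ((r + 1) / 2) r, 2 / (r : ℝ) * S3_phi k a r := by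
        rw [Finset.sum_const, nsmul_eq_mul]
    _ ≤ ∑ j ∈ Finset.Icc ((r + 1) / 2) r, 2 / (j : ℝ) * S3_phi k a j := by
        refine Finset.sum_le_sum fun j hj => ?_
        rw [Finset.mem_Icc] at hj
        have hj0 : (0 : ℝ) < j := by
          have : 0 < j := by omega
          exact_mod_cast this
        have hjr : (j : ℝ) ≤ r := by exact_mod_cast hj.2
        apply mul_le_mul
        · exact div_le_div_of_nonneg_left (by norm_num) hj0 hjr
        · exact S3_anti k ha hj.2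
        · exact S3_nonneg k a r
        · positivity
    _ ≤ _ := by
        refine Finset.sum_le_sum_of_subset_of_nonneg hsub fun j _ _ => ?_
        have := S3_nonneg k a j
        positivity

private lemma S3_term (hd : 2 ≤ d) {n : ℕ} (hn : 1 ≤ n) (a : ℝ) {j : ℕ} (hj : 1 ≤ j) :
    (8 * (j : ℝ) / n) ^ d * (2 / (j : ℝ) * S3_phi (d - 2) a j) ≤
      2 * 8 ^ d / (n : ℝ) ^ d * (((j : ℝ) + 1) * Real.exp (-(a * j))) := by
  have hj0 : (0 : ℝ) < j := by exact_mod_cast hj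
  have hn0 : (0 : ℝ) < n := by exact_mod_cast hn
  obtain ⟨e, rfl⟩ : ∃ e, d = e + 2 := ⟨d - 2, by omega⟩
  have he : e + 2 - 2 = e := by omega
  rw [he]
  unfold S3_phi
  have h1 : (j : ℝ) ^ (e + 1) ≤ (1 + (j : ℝ)) ^ (e + 1) :=
    pow_le_pow_left₀ hj0.le (by linarith) _
  have h2 : (j : ℝ) ^ (e + 1) / (1 + (j : ℝ)) ^ e ≤ (j : ℝ) + 1 := by
    rw [div_le_iff₀ (by positivity)]
    calc (j : ℝ) ^ (e + 1) ≤ (1 + (j : ℝ)) ^ (e + 1) := h1
      _ = ((j : ℝ) + 1) * (1 + (j : ℝ)) ^ e := by ring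
  calc (8 * (j : ℝ) / n) ^ (e + 2) * (2 / (j : ℝ) * (1 / (1 + (j : ℝ)) ^ e *
        Real.exp (-(a * (j : ℝ)))))
      = 2 * 8 ^ (e + 2) / (n : ℝ) ^ (e + 2) * ((j : ℝ) ^ (e + 1) / (1 + (j : ℝ)) ^ e *
        Real.exp (-(a * j))) := by
        rw [div_pow, mul_pow]
        have h3 : (j : ℝ) ^ (e + 2) = (j : ℝ) ^ (e + 1) * j := by ring
        rw [h3]
        field_simp
    _ ≤ 2 * 8 ^ (e + 2) / (n : ℝ) ^ (e + 2) * (((j : ℝ) + 1) * Real.exp (-(a * j))) := by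
        apply mul_le_mul_of_nonneg_left _ (by positivity)
        exact mul_le_mul_of_nonneg_right h2 (Real.exp_pos _).le

/-- Row S3. The sum over the points of a class at distance at least `n/2`. `φ r = (1+r)^(-(d-2)) exp (-a r)` is decreasing; for `r ≥ 1`: `φ r ≤ ∑ over j with j ≤ r ≤ 2 j of (2/j) φ j` (at least `r/2` values of `j`, and `2/j ≥ 2/r`). So the sum is at most
`∑ over 1 ≤ j ≤ l of (2/j) φ j #{y of the class, n ≤ 2 nd u y, j ≤ nd u y ≤ 2 j}`; if there is such a `y` then `n ≤ 4 j`, and the number is at most `(4 j/n + 1)^d ≤ (8 j/n)^d` (`cos_count`); so it is at most `2 8^d/n^d ∑ (j+1) exp (-a j)` (`j^(d-1) (1+j)^(-(d-2)) ≤ j + 1`), `sum_exp`. -/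
theorem cos_sum (hd : 2 ≤ d) {n : ℕ} (hn : 1 ≤ n) {a : ℝ} (ha : 0 < a) (ha1 : a ≤ 1) (w : Fin d → ZMod n) (u : Fin d → Fin l) :
    ∑ y ∈ Finset.univ.filter (fun y : Fin d → Fin l => (∀ i, ((y i : ℕ) : ZMod n) = w i) ∧ n ≤ 2 * nd u y), ek (d - 2) a u y ≤
      8 ^ (d + 1) / (a ^ 2 * (n : ℝ) ^ d) := by
  classical
  have hn0 : (0 : ℝ) < n := by exact_mod_cast hn
  set S := Finset.univ.filter (fun y : Fin d → Fin l =>
    (∀ i, ((y i : ℕ) : ZMod n) = w i) ∧ n ≤ 2 * nd u y) with hS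
  obtain ⟨M, hM⟩ : ∃ M : ℕ, ∀ y : Fin d → Fin l, nd u y ≤ M :=
    ⟨Finset.univ.sup (fun y : Fin d → Fin l => nd u y), fun y =>
      Finset.le_sup (f := fun y : Fin d → Fin l => nd u y) (Finset.mem_univ y)⟩
  have hcnt : ∀ j ∈ Finset.Icc 1 M,
      ((S.filter (fun y => j ≤ nd u y ∧ nd u y ≤ 2 * j)).card : ℝ) ≤ (8 * (j : ℝ) / n) ^ d := by
    intro j hj
    rcases Finset.eq_empty_or_nonempty (S.filter (fun y => j ≤ nd u y ∧ nd u y ≤ 2 * j)) with
      h0 | ⟨y, hy⟩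
    · rw [h0, Finset.card_empty, Nat.cast_zero]
      positivity
    · rw [Finset.mem_filter, hS, Finset.mem_filter] at hy
      have hnj : n ≤ 4 * j := by omega
      have hnj' : (1 : ℝ) ≤ 4 * (j : ℝ) / n := by
        rw [le_div_iff₀ hn0, one_mul]
        exact_mod_cast hnj
      have h1 : ((S.filter (fun y => j ≤ nd u y ∧ nd u y ≤ 2 * j)).card : ℝ) ≤
          ((Finset.univ.filter (fun y : Fin d → Fin l =>
            (∀ i, ((y i : ℕ) : ZMod n) = w i) ∧ nd u y ≤ 2 * j)).card : ℝ) := by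
        have h2 : S.filter (fun y => j ≤ nd u y ∧ nd u y ≤ 2 * j) ⊆
            Finset.univ.filter (fun y : Fin d → Fin l =>
            (∀ i, ((y i : ℕ) : ZMod n) = w i) ∧ nd u y ≤ 2 * j) := by
          intro z hz
          rw [Finset.mem_filter, hS, Finset.mem_filter] at hz
          rw [Finset.mem_filter]
          exact ⟨Finset.mem_univ _, hz.1.2.1, hz.2.2⟩
        exact_mod_cast Finset.card_le_card h2
      refine h1.trans ((cos_count hn w u (2 * j)).trans ?_)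
      apply pow_le_pow_left₀ (by positivity)
      push_cast
      have e1 : 2 * (2 * (j : ℝ)) / n = 4 * (j : ℝ) / n := by ring
      have e2 : 8 * (j : ℝ) / n = 4 * (j : ℝ) / n + 4 * (j : ℝ) / n := by ring
      rw [e1, e2]
      linarith
  calc ∑ y ∈ S, ek (d - 2) a u y
      ≤ ∑ y ∈ S, ∑ j ∈ (Finset.Icc 1 M).filter (fun j => j ≤ nd u y ∧ nd u y ≤ 2 * j),
          2 / (j : ℝ) * S3_phi (d - 2) a j := by
        refine Finset.sum_le_sum fun y hy => ?_
        rw [hS, Finset.mem_filter] at hy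
        have h1 : ek (d - 2) a u y = S3_phi (d - 2) a (nd u y) := rfl
        rw [h1]
        exact S3_spread (d - 2) ha (by omega) (hM y)
    _ = ∑ j ∈ Finset.Icc 1 M, ∑ y ∈ S,
          if j ≤ nd u y ∧ nd u y ≤ 2 * j then 2 / (j : ℝ) * S3_phi (d - 2) a j else 0 := by
        rw [Finset.sum_comm]
        refine Finset.sum_congr rfl fun y _ => ?_
        rw [Finset.sum_filter]
    _ = ∑ j ∈ Finset.Icc 1 M, ((S.filter (fun y => j ≤ nd u y ∧ nd u y ≤ 2 * j)).card : ℝ) *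
          (2 / (j : ℝ) * S3_phi (d - 2) a j) := by
        refine Finset.sum_congr rfl fun j _ => ?_
        rw [← Finset.sum_filter, Finset.sum_const, nsmul_eq_mul]
    _ ≤ ∑ j ∈ Finset.Icc 1 M, 2 * 8 ^ d / (n : ℝ) ^ d *
          (((j : ℝ) + 1) * Real.exp (-(a * j))) := by
        refine Finset.sum_le_sum fun j hj => ?_
        have hj1 : 1 ≤ j := (Finset.mem_Icc.mp hj).1
        refine le_trans (mul_le_mul_of_nonneg_right (hcnt j hj) ?_) (S3_term hd hn a hj1)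
        have := S3_nonneg (d - 2) a j
        positivity
    _ = 2 * 8 ^ d / (n : ℝ) ^ d * ∑ j ∈ Finset.Icc 1 M,
          (((j : ℝ) + 1) * Real.exp (-(a * j))) := by
        rw [Finset.mul_sum]
    _ ≤ 2 * 8 ^ d / (n : ℝ) ^ d * (4 / a ^ 2) := by
        apply mul_le_mul_of_nonneg_left _ (by positivity)
        refine le_trans ?_ (sum_exp ha ha1 (M + 1))
        refine Finset.sum_le_sum_of_subset_of_nonneg ?_ fun j _ _ => by positivity
        intro j hj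
        rw [Finset.mem_Icc] at hj
        rw [Finset.mem_range]
        omega
    _ = 8 ^ (d + 1) / (a ^ 2 * (n : ℝ) ^ d) := by
        have h8 : (8 : ℝ) ^ (d + 1) = 2 * 8 ^ d * 4 := by ring
        rw [h8]
        field_simp

private lemma S4_le (x y : Fin d → Fin l) (i : Fin d) :
    ((x i : ℕ) - (y i : ℕ)) + ((y i : ℕ) - (x i : ℕ)) ≤ nd x y :=
  Finset.le_sup (f := fun i => ((x i : ℕ) - (y i : ℕ)) + ((y i : ℕ) - (x i : ℕ)))
    (Finset.mem_univ i)

private lemma S4_uniq {n : ℕ} {w : Fin d → ZMod n} {u y z : Fin d → Fin l}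
    (hy : y ∈ (Finset.univ.filter (fun y : Fin d → Fin l =>
      ∀ i, ((y i : ℕ) : ZMod n) = w i)).filter (fun y => ¬ n ≤ 2 * nd u y))
    (hz : z ∈ (Finset.univ.filter (fun y : Fin d → Fin l =>
      ∀ i, ((y i : ℕ) : ZMod n) = w i)).filter (fun y => ¬ n ≤ 2 * nd u y)) : y = z := by
  rw [Finset.mem_filter, Finset.mem_filter] at hy hz
  funext i
  have h1 := S4_le u y i
  have h2 := S4_le u z i
  have h3 : ((y i : ℕ) : ZMod n) = ((z i : ℕ) : ZMod n) := by rw [hy.1.2 i, hz.1.2 i]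
  rw [ZMod.natCast_eq_natCast_iff] at h3
  have h4 := (Nat.modEq_iff_dvd).1 h3
  have h5 : ((z i : ℕ) : ℤ) - ((y i : ℕ) : ℤ) = 0 := by
    apply Int.eq_zero_of_abs_lt_dvd h4
    rw [abs_lt]
    have h6 := hy.2
    have h7 := hz.2
    constructor <;> omega
  apply Fin.ext
  omega

private lemma S4_td {n : ℕ} [NeZero n] {w : Fin d → ZMod n} {u z : Fin d → Fin l}
    (h1 : ∀ i, ((z i : ℕ) : ZMod n) = w i) (h2 : 2 * nd u z < n) :
    td (fun i => ((u i : ℕ) : ZMod n)) w = nd u z := by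
  unfold td nd
  refine Finset.sup_congr rfl fun i _ => ?_
  have h3 := S4_le u z i
  have h4 : (((u i : ℕ) : ZMod n) - w i).valMinAbs = ((u i : ℕ) : ℤ) - ((z i : ℕ) : ℤ) := by
    rw [ZMod.valMinAbs_spec]
    constructor
    · rw [← h1 i]
      push_cast
      ring
    · rw [Set.mem_Ioc]
      constructor <;> omega
  rw [h4]
  omega

/-- Row S4. The whole class: at most one point with `2 nd u y < n` (two points of a class are at distance at least `n`), and for it `td (u mod n) w = nd u y`: the coordinates `((u i - y i : ℤ) : ZMod n)` have `valMinAbs = u i - y i` as `2 |u i - y i| < n` (`ZMod.valMinAbs_spec`,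
`ZMod.valMinAbs_def_pos`, or `ZMod.coe_valMinAbs` and uniqueness). `ek ≤ fk`. The other points: `cos_sum`. -/
theorem class_sum (hd : 2 ≤ d) {n : ℕ} [NeZero n] {a : ℝ} (ha : 0 < a) (ha1 : a ≤ 1) (w : Fin d → ZMod n) (u : Fin d → Fin l) :
    ∑ y ∈ Finset.univ.filter (fun y : Fin d → Fin l => ∀ i, ((y i : ℕ) : ZMod n) = w i), ek (d - 2) a u y ≤
      tk (d - 2) (fun i => ((u i : ℕ) : ZMod n)) w + 8 ^ (d + 1) / (a ^ 2 * (n : ℝ) ^ d) := by
  have hn : 1 ≤ n := Nat.one_le_iff_ne_zero.2 (NeZero.ne n)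
  have hsplit := Finset.sum_filter_add_sum_filter_not
    (Finset.univ.filter (fun y : Fin d → Fin l => ∀ i, ((y i : ℕ) : ZMod n) = w i))
    (fun y => n ≤ 2 * nd u y) (fun y => ek (d - 2) a u y)
  rw [← hsplit, Finset.filter_filter, add_comm]
  refine add_le_add ?_ (cos_sum hd hn ha ha1 w u)
  have htk0 : 0 ≤ tk (d - 2) (fun i => ((u i : ℕ) : ZMod n)) w := by
    unfold tk
    positivity
  rcases Finset.eq_empty_or_nonempty ((Finset.univ.filter (fun y : Fin d → Fin l =>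
      ∀ i, ((y i : ℕ) : ZMod n) = w i)).filter (fun y => ¬ n ≤ 2 * nd u y)) with he | ⟨z, hz⟩
  · rw [he, Finset.sum_empty]
    exact htk0
  · have hB : (Finset.univ.filter (fun y : Fin d → Fin l =>
        ∀ i, ((y i : ℕ) : ZMod n) = w i)).filter (fun y => ¬ n ≤ 2 * nd u y) = {z} := by
      refine Finset.eq_singleton_iff_unique_mem.2 ⟨hz, fun y hy => ?_⟩
      exact S4_uniq hy hz
    rw [hB, Finset.sum_singleton]
    rw [Finset.mem_filter, Finset.mem_filter] at hz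
    obtain ⟨⟨-, hz1⟩, hz2⟩ := hz
    have htd : td (fun i => ((u i : ℕ) : ZMod n)) w = nd u z := S4_td hz1 (by omega)
    have h1 : ek (d - 2) a u z ≤ fk (d - 2) u z := by
      unfold ek
      have h2 : Real.exp (-(a * (nd u z : ℝ))) ≤ 1 := by
        rw [Real.exp_le_one_iff]
        have : 0 ≤ a * (nd u z : ℝ) := by positivity
        linarith
      have h3 : 0 ≤ fk (d - 2) u z := by
        unfold fk
        positivity
      exact mul_le_of_le_one_right h3 h2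
    refine h1.trans (le_of_eq ?_)
    unfold fk tk
    rw [htd]

private lemma S5_far {n : ℕ} (u z y : Fin d → Fin l)
    (h : ∀ i, ((y i : ℕ) : ZMod n) = ((z i : ℕ) : ZMod n)) (hne : y ≠ z) :
    n ≤ 2 * nd u y ∨ n ≤ 2 * nd u z := by
  have h1 : ∃ i, y i ≠ z i := by
    by_contra hc
    push Not at hc
    exact hne (funext hc)
  obtain ⟨i, hi⟩ := h1
  have h2 : ((y i : ℕ) : ZMod n) = ((z i : ℕ) : ZMod n) := h i
  rw [ZMod.natCast_eq_natCast_iff] at h2
  have h3 : (y i : ℕ) ≠ (z i : ℕ) := fun hc => hi (Fin.ext hc)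
  have h4 : (n : ℤ) ∣ ((z i : ℕ) : ℤ) - ((y i : ℕ) : ℤ) := (Nat.modEq_iff_dvd).1 h2
  have h5 : (n : ℤ) ≤ |((z i : ℕ) : ℤ) - ((y i : ℕ) : ℤ)| := by
    apply Int.le_of_dvd
    · rw [abs_pos]
      omega
    · rwa [dvd_abs]
  have h6 : n ≤ ((y i : ℕ) - (z i : ℕ) + ((z i : ℕ) - (y i : ℕ))) := by
    rcases abs_cases (((z i : ℕ) : ℤ) - ((y i : ℕ) : ℤ)) with h | h <;> omega
  have h7 : ((y i : ℕ) - (z i : ℕ) + ((z i : ℕ) - (y i : ℕ))) ≤ nd y z := by
    unfold nd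
    exact Finset.le_sup (f := fun i => ((y i : ℕ) - (z i : ℕ) + ((z i : ℕ) - (y i : ℕ)))) (Finset.mem_univ i)
  have h8 := nd_tri y u z
  rw [nd_symm y u] at h8
  omega

private lemma S5_half (hd : 2 ≤ d) {n : ℕ} (hn : 1 ≤ n) {a : ℝ} (ha : 0 < a) (ha1 : a ≤ 1) (u : Fin d → Fin l) :
    ∑ z, ∑ y ∈ Finset.univ.filter (fun y : Fin d → Fin l => (∀ i, ((y i : ℕ) : ZMod n) = ((z i : ℕ) : ZMod n)) ∧ n ≤ 2 * nd u y),
      ek (d - 2) a u z * ek (d - 2) a u y ≤
      ((d * 2 ^ d : ℝ) * (4 / a ^ 2)) * (8 ^ (d + 1) / (a ^ 2 * (n : ℝ) ^ d)) := by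
  have hK : (0 : ℝ) ≤ 8 ^ (d + 1) / (a ^ 2 * (n : ℝ) ^ d) := by positivity
  calc ∑ z, ∑ y ∈ Finset.univ.filter (fun y : Fin d → Fin l => (∀ i, ((y i : ℕ) : ZMod n) = ((z i : ℕ) : ZMod n)) ∧ n ≤ 2 * nd u y),
      ek (d - 2) a u z * ek (d - 2) a u y
      ≤ ∑ z, ek (d - 2) a u z * (8 ^ (d + 1) / (a ^ 2 * (n : ℝ) ^ d)) := by
        refine Finset.sum_le_sum (fun z _ => ?_)
        rw [← Finset.mul_sum]
        exact mul_le_mul_of_nonneg_left
          (cos_sum hd hn ha ha1 (fun i => ((z i : ℕ) : ZMod n)) u) (ek_nonneg _ _ _ _)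
    _ = (∑ z, ek (d - 2) a u z) * (8 ^ (d + 1) / (a ^ 2 * (n : ℝ) ^ d)) := by rw [Finset.sum_mul]
    _ ≤ _ := mul_le_mul_of_nonneg_right (sum_ek hd ha ha1 u) hK

/-- Row S5. For `y ≠ z` in the same class: `nd z y ≥ n`, so `n ≤ 2 nd u y` or `n ≤ 2 nd u z`; by symmetry at most `2 ∑ z, ek u z ∑ over y of the class of z with n ≤ 2 nd u y of ek u y`; `sum_ek`, `cos_sum`. -/
theorem pair_sum (hd : 2 ≤ d) {n : ℕ} (hn : 1 ≤ n) {a : ℝ} (ha : 0 < a) (ha1 : a ≤ 1) (u : Fin d → Fin l) :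
    ∑ z, ∑ y ∈ Finset.univ.filter (fun y : Fin d → Fin l => (∀ i, ((y i : ℕ) : ZMod n) = ((z i : ℕ) : ZMod n)) ∧ y ≠ z), ek (d - 2) a u z * ek (d - 2) a u y ≤
      2 * ((d * 2 ^ d : ℝ) * (4 / a ^ 2)) * (8 ^ (d + 1) / (a ^ 2 * (n : ℝ) ^ d)) := by
  classical
  have hhalf := S5_half hd hn ha ha1 u
  have hnn : ∀ z y : Fin d → Fin l, 0 ≤ ek (d - 2) a u z * ek (d - 2) a u y :=
    fun z y => mul_nonneg (ek_nonneg _ _ _ _) (ek_nonneg _ _ _ _)
  have key : ∑ z, ∑ y ∈ Finset.univ.filter (fun y : Fin d → Fin l => (∀ i, ((y i : ℕ) : ZMod n) = ((z i : ℕ) : ZMod n)) ∧ y ≠ z), ek (d - 2) a u z * ek (d - 2) a u y ≤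
      ∑ z, ∑ y ∈ Finset.univ.filter (fun y : Fin d → Fin l => (∀ i, ((y i : ℕ) : ZMod n) = ((z i : ℕ) : ZMod n)) ∧ n ≤ 2 * nd u y), ek (d - 2) a u z * ek (d - 2) a u y +
      ∑ z, ∑ y ∈ Finset.univ.filter (fun y : Fin d → Fin l => (∀ i, ((y i : ℕ) : ZMod n) = ((z i : ℕ) : ZMod n)) ∧ n ≤ 2 * nd u z), ek (d - 2) a u z * ek (d - 2) a u y := by
    rw [← Finset.sum_add_distrib]
    refine Finset.sum_le_sum (fun z _ => ?_)
    rw [Finset.sum_filter, Finset.sum_filter, Finset.sum_filter, ← Finset.sum_add_distrib]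
    refine Finset.sum_le_sum (fun y _ => ?_)
    have h0 := hnn z y
    by_cases hc : ∀ i, ((y i : ℕ) : ZMod n) = ((z i : ℕ) : ZMod n)
    · by_cases hne : y ≠ z
      · rcases S5_far u z y hc hne with h | h
        · rw [if_pos ⟨hc, hne⟩, if_pos ⟨hc, h⟩]
          split_ifs <;> linarith
        · rw [if_pos ⟨hc, hne⟩, if_pos (c := (∀ i, ((y i : ℕ) : ZMod n) = ((z i : ℕ) : ZMod n)) ∧ n ≤ 2 * nd u z) ⟨hc, h⟩]
          split_ifs <;> linarith
      · rw [if_neg (fun h => hne h.2)]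
        split_ifs <;> linarith
    · rw [if_neg (fun h => hc h.1)]
      split_ifs <;> linarith
  have hswap : ∑ z, ∑ y ∈ Finset.univ.filter (fun y : Fin d → Fin l => (∀ i, ((y i : ℕ) : ZMod n) = ((z i : ℕ) : ZMod n)) ∧ n ≤ 2 * nd u z), ek (d - 2) a u z * ek (d - 2) a u y =
      ∑ z, ∑ y ∈ Finset.univ.filter (fun y : Fin d → Fin l => (∀ i, ((y i : ℕ) : ZMod n) = ((z i : ℕ) : ZMod n)) ∧ n ≤ 2 * nd u y), ek (d - 2) a u z * ek (d - 2) a u y := by
    simp only [Finset.sum_filter]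
    rw [Finset.sum_comm]
    refine Finset.sum_congr rfl (fun z _ => Finset.sum_congr rfl (fun y _ => ?_))
    have hiff : ((∀ i, ((z i : ℕ) : ZMod n) = ((y i : ℕ) : ZMod n)) ∧ n ≤ 2 * nd u y) ↔
        ((∀ i, ((y i : ℕ) : ZMod n) = ((z i : ℕ) : ZMod n)) ∧ n ≤ 2 * nd u y) :=
      ⟨fun h => ⟨fun i => (h.1 i).symm, h.2⟩, fun h => ⟨fun i => (h.1 i).symm, h.2⟩⟩
    by_cases hc : (∀ i, ((y i : ℕ) : ZMod n) = ((z i : ℕ) : ZMod n)) ∧ n ≤ 2 * nd u y
    · rw [if_pos hc, if_pos (hiff.2 hc), mul_comm]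
    · rw [if_neg hc, if_neg (fun h => hc (hiff.1 h))]
  rw [hswap] at key
  linarith

/-- Row S5. A neighbour: `1 + nd u z ≤ 2 (1 + nd u x)`, `exp (-a nd u x) ≤ exp a exp (-a nd u z)`, `exp a ≤ 3`, `2^(d-2) ≤ 2^d`. -/
lemma ek_nb {a : ℝ} (ha : 0 < a) (ha1 : a ≤ 1) (u x z : Fin d → Fin l) (h : nd x z ≤ 1) : ek (d - 2) a u x ≤ 3 * 2 ^ d * ek (d - 2) a u z := by
  have h1 : nd u z ≤ nd u x + 1 := (nd_tri u x z).trans (by omega)
  have h2 : (nd u z : ℝ) ≤ (nd u x : ℝ) + 1 := by exact_mod_cast h1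
  have hx0 : (0 : ℝ) ≤ (nd u x : ℝ) := by positivity
  have hz0 : (0 : ℝ) ≤ (nd u z : ℝ) := by positivity
  have h3 : fk (d - 2) u x ≤ 2 ^ d * fk (d - 2) u z := by
    unfold fk
    rw [mul_one_div, div_le_div_iff₀ (by positivity) (by positivity), one_mul]
    calc (1 + (nd u z : ℝ)) ^ (d - 2) ≤ (2 * (1 + (nd u x : ℝ))) ^ (d - 2) :=
          pow_le_pow_left₀ (by positivity) (by linarith) _
      _ = 2 ^ (d - 2) * (1 + (nd u x : ℝ)) ^ (d - 2) := mul_pow _ _ _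
      _ ≤ 2 ^ d * (1 + (nd u x : ℝ)) ^ (d - 2) := by
          apply mul_le_mul_of_nonneg_right _ (by positivity)
          exact pow_le_pow_right₀ (by norm_num) (Nat.sub_le d 2)
  have h4 : Real.exp (-(a * (nd u x : ℝ))) ≤ 3 * Real.exp (-(a * (nd u z : ℝ))) := by
    have h5 : Real.exp (-(a * (nd u x : ℝ))) ≤ Real.exp (a + -(a * (nd u z : ℝ))) := by
      apply Real.exp_le_exp.2
      have := mul_le_mul_of_nonneg_left h2 ha.le
      linarith
    have h6 : Real.exp a ≤ 3 := by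
      have h7 : Real.exp a ≤ Real.exp 1 := Real.exp_le_exp.2 ha1
      have h8 := Real.exp_one_lt_d9
      linarith
    rw [Real.exp_add] at h5
    refine h5.trans ?_
    exact mul_le_mul_of_nonneg_right h6 (Real.exp_pos _).le
  unfold ek
  have hf : 0 ≤ fk (d - 2) u x := by unfold fk; positivity
  have hf' : 0 ≤ 2 ^ d * fk (d - 2) u z := by unfold fk; positivity
  calc fk (d - 2) u x * Real.exp (-(a * (nd u x : ℝ)))
      ≤ (2 ^ d * fk (d - 2) u z) * (3 * Real.exp (-(a * (nd u z : ℝ)))) :=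
        mul_le_mul h3 h4 (Real.exp_pos _).le hf'
    _ = 3 * 2 ^ d * (fk (d - 2) u z * Real.exp (-(a * (nd u z : ℝ)))) := by ring

end Pool.Agent.PERC29.QQ
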