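import Pool.Agent.Lib.MP_29e17e_pr.Q.Ex
import Pool.Agent.Lib.MP_29e17e_pr.Q.Ly
import Pool.Agent.Lib.MP_29e17e_pr.Q.Su
import Pool.Agent.Lib.MP_29e17e_pr.Y.Lx
import Pool.Agent.Lib.MP_29e17e_pr.Z.Df

namespace Pool.Agent.PERC29
end Pool.Agent.PERC29
namespace Pool.Agent.PERC29.AE
end Pool.Agent.PERC29.AE
namespace Pool.Agent.PERC29.OB
end Pool.Agent.PERC29.OB

set_option autoImplicit false
set_option linter.unusedSectionVars false

/-! Rows 29c-C1 .. C5: the torus `(ℤ/n)^d` and the box of side `2 N + 1`, `n^d ≤ N`. -/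

open Finset

namespace Pool.Agent.PERC29.QQ

open Pool.Agent.PERC29 Pool.Agent.PERC29.AE Pool.Agent.PERC29.OB

/-- The projection of the box of side `2 N + 1` to the torus; the centre goes to `0`. -/
def pr (d n N : ℕ) (x : Fin d → Fin (2 * N + 1)) : Fin d → ZMod n := fun i => ((x i : ℕ) : ZMod n) - (N : ZMod n)

private lemma C1_one {n : ℕ} (hn : 2 ≤ n) : (1 : ZMod n) ≠ 0 := by
  intro h
  have h1 : ((1 : ℕ) : ZMod n) = 0 := by rw [Nat.cast_one]; exact h
  rw [CharP.cast_eq_zero_iff (ZMod n) n 1, Nat.dvd_one] at h1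
  omega

private lemma C1_two {n : ℕ} (hn : 3 ≤ n) : (1 : ZMod n) + 1 ≠ 0 := by
  intro h
  have h1 : ((2 : ℕ) : ZMod n) = 0 := by
    rw [← h]
    push_cast
    ring
  rw [CharP.cast_eq_zero_iff (ZMod n) n 2] at h1
  have h2 := Nat.le_of_dvd (by norm_num) h1
  omega

private lemma C1_up {d n N : ℕ} {x y : Fin d → Fin (2 * N + 1)} {i : Fin d}
    (h : (x i : ℕ) + 1 = (y i : ℕ)) (h' : ∀ j, j ≠ i → x j = y j) :
    pr d n N y = pr d n N x + Pi.single i 1 := by
  funext j
  by_cases hj : j = i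
  · subst hj
    show ((y j : ℕ) : ZMod n) - (N : ZMod n) =
      ((x j : ℕ) : ZMod n) - (N : ZMod n) + (Pi.single j (1 : ZMod n) : Fin d → ZMod n) j
    rw [← h, Pi.single_eq_same]
    push_cast
    ring
  · show ((y j : ℕ) : ZMod n) - (N : ZMod n) =
      ((x j : ℕ) : ZMod n) - (N : ZMod n) + (Pi.single i (1 : ZMod n) : Fin d → ZMod n) j
    rw [h' j hj, Pi.single_eq_of_ne hj, add_zero]

private lemma C1_ne {d n : ℕ} (hn : 2 ≤ n) (a : Fin d → ZMod n) (i : Fin d) :
    a ≠ a + Pi.single i 1 := by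
  intro h
  have h1 := congrFun h i
  rw [Pi.add_apply, Pi.single_eq_same] at h1
  exact C1_one hn (left_eq_add.1 h1)

/-- Row C1. `y i = x i + 1` for one `i` and the other coordinates are equal; `1 ≠ 0` in `ZMod n`. -/
lemma pr_adj {d n N : ℕ} (hn : 2 ≤ n) {x y : Fin d → Fin (2 * N + 1)} (h : (boxG d (2 * N + 1)).Adj x y) :
    (torG d n).Adj (pr d n N x) (pr d n N y) := by
  obtain ⟨i, h | h, h'⟩ := h
  · have h1 := C1_up (n := n) h h'
    refine ⟨?_, i, Or.inl h1⟩
    rw [h1]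
    exact C1_ne hn _ _
  · have h1 := C1_up (n := n) h (fun j hj => (h' j hj).symm)
    refine ⟨?_, i, Or.inr h1⟩
    rw [h1]
    exact (C1_ne hn _ _).symm

/-- The projection as a homomorphism of graphs. -/
def prH (d n N : ℕ) (hn : 2 ≤ n) : boxG d (2 * N + 1) →g torG d n where
  toFun := pr d n N
  map_rel' := fun h => pr_adj hn h

lemma pr_ctr (d n N : ℕ) : pr d n N (ctr d N) = 0 := by
  funext i
  simp [pr, ctr]

/-- Row C1. `step`: `nd` of neighbours is at most one (`nd_tri`). `lift`: `nd (ctr) x < n^d ≤ N`, so `0 < x i < 2 N` for all `i`; `w = pr x ± e_i`, take `z = x ± e_i`. `star`: `s(pr x, pr z) = s(pr x, pr z')`, so `pr z = pr z'` (`Sym2.congr_right`), and both are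
neighbours of `x`: `z = x ± e_i`, `z' = x ± e_j`, and for `n ≥ 3` the elements `1`, `-1`, `0` of `ZMod n` are different, so `z = z'`. -/
theorem cov_box {d n N : ℕ} [NeZero n] (hn : 3 ≤ n) (hN : n ^ d ≤ N) :
    Cov (gends (torG d n)) (gends (boxG d (2 * N + 1))) (pr d n N) (prH d n N (Nat.le_of_succ_le hn)).mapEdgeSet (fun x => nd (ctr d N) x) (ctr d N) := by
  have hadj : ∀ (e' : (boxG d (2 * N + 1)).edgeSet) (x z : Fin d → Fin (2 * N + 1)),
      gends (boxG d (2 * N + 1)) e' = s(x, z) → (boxG d (2 * N + 1)).Adj x z := by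
    intro e' x z h
    have h1 := e'.2
    have h2 : (e' : Sym2 (Fin d → Fin (2 * N + 1))) = s(x, z) := h
    rw [h2, SimpleGraph.mem_edgeSet] at h1
    exact h1
  refine ⟨fun e' => rfl, ?_, ?_, ?_, ?_, Subtype.val_injective, ?_⟩
  · show nd (ctr d N) (ctr d N) = 0
    unfold nd
    refine Nat.le_zero.1 (Finset.sup_le fun i _ => ?_)
    omega
  · intro e' x z h
    obtain ⟨i, hi, h'⟩ := hadj e' x z h
    have h1 : nd x z ≤ 1 := by
      unfold nd
      refine Finset.sup_le fun j _ => ?_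
      by_cases hj : j = i
      · subst hj
        omega
      · rw [h' j hj]
        omega
    have h2 := nd_tri (ctr d N) x z
    show nd (ctr d N) z ≤ nd (ctr d N) x + 1
    omega
  · intro x hx e w he
    have hx' : nd (ctr d N) x < N := by
      have h1 : Fintype.card (Fin d → ZMod n) = n ^ d := by
        rw [Fintype.card_fun, ZMod.card, Fintype.card_fin]
      have h2 : nd (ctr d N) x < Fintype.card (Fin d → ZMod n) := hx
      rw [h1] at h2
      omega
    have hb : ∀ i, 0 < (x i : ℕ) ∧ (x i : ℕ) < 2 * N := by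
      intro i
      have h1 : ((ctr d N i : ℕ) - (x i : ℕ)) + ((x i : ℕ) - (ctr d N i : ℕ)) ≤ nd (ctr d N) x :=
        Finset.le_sup (f := fun i => ((ctr d N i : ℕ) - (x i : ℕ)) + ((x i : ℕ) - (ctr d N i : ℕ)))
          (Finset.mem_univ i)
      have h2 : (ctr d N i : ℕ) = N := rfl
      rw [h2] at h1
      omega
    have hta : (torG d n).Adj (pr d n N x) w := by
      have h1 := e.2
      have h2 : (e : Sym2 (Fin d → ZMod n)) = s(pr d n N x, w) := he
      rw [h2, SimpleGraph.mem_edgeSet] at h1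
      exact h1
    have key : ∃ z, (boxG d (2 * N + 1)).Adj x z ∧ pr d n N z = w := by
      obtain ⟨-, i, h | h⟩ := hta
      · have hlt : (x i : ℕ) + 1 < 2 * N + 1 := by
          have := (hb i).2
          omega
        refine ⟨Function.update x i ⟨(x i : ℕ) + 1, hlt⟩, ⟨i, Or.inl ?_, ?_⟩, ?_⟩
        · rw [Function.update_self]
        · intro j hj
          rw [Function.update_of_ne hj]
        · rw [h]
          apply C1_up
          · rw [Function.update_self]
          · intro j hj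
            rw [Function.update_of_ne hj]
      · have hlt : (x i : ℕ) - 1 < 2 * N + 1 := by
          have := (hb i).2
          omega
        have hpos := (hb i).1
        have hz : ((Function.update x i ⟨(x i : ℕ) - 1, hlt⟩ i : Fin (2 * N + 1)) : ℕ) + 1 =
            (x i : ℕ) := by
          rw [Function.update_self]
          show (x i : ℕ) - 1 + 1 = (x i : ℕ)
          omega
        refine ⟨Function.update x i ⟨(x i : ℕ) - 1, hlt⟩, ⟨i, Or.inr hz, ?_⟩, ?_⟩
        · intro j hj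
          rw [Function.update_of_ne hj]
        · have h1 := C1_up (n := n) hz fun j hj => by rw [Function.update_of_ne hj]
          rw [h1] at h
          exact add_right_cancel h
    obtain ⟨z, hz, hzw⟩ := key
    refine ⟨⟨s(x, z), hz⟩, z, rfl, hzw, ?_⟩
    apply Subtype.ext
    show s(pr d n N x, pr d n N z) = (e : Sym2 (Fin d → ZMod n))
    rw [hzw]
    exact he.symm
  · intro x z z' e1 e2 h1 h2 h3
    have h4 : s(pr d n N x, pr d n N z) = s(pr d n N x, pr d n N z') := by
      have h5 := congrArg Subtype.val h3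
      have h6 : Sym2.map (pr d n N) (gends (boxG d (2 * N + 1)) e1) =
        Sym2.map (pr d n N) (gends (boxG d (2 * N + 1)) e2) := h5
      rw [h1, h2] at h6
      exact h6
    rw [Sym2.congr_right] at h4
    have hz : z = z' := by
      obtain ⟨i, hi, hi'⟩ := hadj e1 x z h1
      obtain ⟨j, hj, hj'⟩ := hadj e2 x z' h2
      have h10 := C1_one (n := n) (by omega)
      have h20 := C1_two hn
      have hc := congrFun h4 i
      have hc' : ((z i : ℕ) : ZMod n) = ((z' i : ℕ) : ZMod n) := by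
        have h5 : ((z i : ℕ) : ZMod n) - (N : ZMod n) = ((z' i : ℕ) : ZMod n) - (N : ZMod n) := hc
        exact sub_left_injective h5
      by_cases hij : i = j
      · subst hij
        have hzi : (z i : ℕ) = (z' i : ℕ) := by
          rcases hi with hi | hi <;> rcases hj with hj | hj
          · omega
          · exfalso
            rw [← hi] at hc'
            have h5 : ((x i : ℕ) : ZMod n) = ((z' i : ℕ) : ZMod n) + 1 := by
              rw [← hj]
              push_cast
              ring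
            push_cast at hc'
            rw [h5] at hc'
            apply h20
            linear_combination hc'
          · exfalso
            rw [← hj] at hc'
            have h5 : ((x i : ℕ) : ZMod n) = ((z i : ℕ) : ZMod n) + 1 := by
              rw [← hi]
              push_cast
              ring
            push_cast at hc'
            rw [h5] at hc'
            apply h20
            linear_combination -hc'
          · omega
        funext k
        by_cases hk : k = i
        · subst hk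
          exact Fin.ext hzi
        · rw [← hi' k hk, ← hj' k hk]
      · exfalso
        have h6 : x i = z' i := hj' i hij
        rw [← h6] at hc'
        rcases hi with hi | hi
        · rw [← hi] at hc'
          push_cast at hc'
          apply h10
          linear_combination hc'
        · rw [← hi] at hc'
          push_cast at hc'
          apply h10
          linear_combination -hc'
    subst hz
    exact Subtype.ext (h1.trans h2.symm)
  · intro e w h
    have h1 := e.2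
    have h2 : (e : Sym2 (Fin d → ZMod n)) = s(w, w) := h
    rw [h2, SimpleGraph.mem_edgeSet] at h1
    exact h1.ne rfl

section two

variable {d n N : ℕ} [NeZero n] [Fintype (torG d n).edgeSet] [Fintype (boxG d (2 * N + 1)).edgeSet]

/-- The lift of the cluster of `0`. -/
noncomputable def SF (d n N : ℕ) [NeZero n] [Fintype (torG d n).edgeSet] (hn : 2 ≤ n) (ω : (torG d n).edgeSet → Bool) : Finset (Fin d → Fin (2 * N + 1)) :=
  Sf (gends (boxG d (2 * N + 1))) (pr d n N) (prH d n N hn).mapEdgeSet (ctr d N) ω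

/-- The number of wraps. -/
noncomputable def WW (d n N : ℕ) [Fintype (boxG d (2 * N + 1)).edgeSet] (S : Finset (Fin d → Fin (2 * N + 1))) : ℝ :=
  ((Wr (gends (boxG d (2 * N + 1))) (pr d n N) S Finset.univ).card : ℝ)

open scoped Classical in
/-- Row C2. `cmp_up` with `G S = if k ≤ |S| then 1 else 0`, `|Sf| = |cu 0|` (`Sf_cl`, `pr_ctr`). -/
theorem tail_up (hn : 3 ≤ n) (hN : n ^ d ≤ N) {p : ℝ} (h0 : 0 ≤ p) (h1 : p ≤ 1) (k : ℝ) :
    fT d n p k ≤ Ex p (fun ω => if k ≤ cz (gends (boxG d (2 * N + 1))) ω (ctr d N) then (1 : ℝ) else 0) := by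
  have hc := cov_box hn hN
  have h := cmp_up (ends' := gends (boxG d (2 * N + 1))) (π := pr d n N)
    (ρ := (prH d n N (by omega)).mapEdgeSet) (o := ctr d N) h0 h1
    (fun S => if k ≤ (S.card : ℝ) then (1 : ℝ) else 0) (fun S S' hSS => by
      have hcard : (S.card : ℝ) ≤ (S'.card : ℝ) := by exact_mod_cast Finset.card_le_card hSS
      by_cases hk : k ≤ (S.card : ℝ)
      · rw [if_pos hk, if_pos (hk.trans hcard)]
      · rw [if_neg hk]; split_ifs <;> norm_num)
  unfold fT
  refine le_trans (le_of_eq (Ex_congr fun ω => ?_)) h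
  have hcd : cz (gends (torG d n)) ω 0 =
      ((Sf (gends (boxG d (2 * N + 1))) (pr d n N) (prH d n N (by omega)).mapEdgeSet (ctr d N) ω).card : ℝ) := by
    obtain ⟨hi, him⟩ := Sf_cl hc ω
    rw [pr_ctr] at him
    unfold cz
    rw [← him, Finset.card_image_of_injOn hi]
  simp only [hcd]

/-- Row C2. `cmp_up` with `G S = |S|`. -/
theorem mean_up (hn : 3 ≤ n) (hN : n ^ d ≤ N) {p : ℝ} (h0 : 0 ≤ p) (h1 : p ≤ 1) :
    Ex p (fun ω => cz (gends (torG d n)) ω 0) ≤ Ex p (fun ω => cz (gends (boxG d (2 * N + 1))) ω (ctr d N)) := by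
  have hc := cov_box hn hN
  have h := cmp_up (ends' := gends (boxG d (2 * N + 1))) (π := pr d n N)
    (ρ := (prH d n N (by omega)).mapEdgeSet) (o := ctr d N) h0 h1
    (fun S => (S.card : ℝ)) (fun S S' hSS => by exact_mod_cast Finset.card_le_card hSS)
  refine le_trans (le_of_eq (Ex_congr fun ω => ?_)) h
  obtain ⟨hi, him⟩ := Sf_cl hc ω
  rw [pr_ctr] at him
  unfold cz
  rw [← him, Finset.card_image_of_injOn hi]

/-- Row C3. `cmp_up` with `G S = if w ∈ S.image π then 1 else 0`; `w ∈ (cu o).image π` gives `y` with `π y = w`, `y ∈ cu o`: union bound. -/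
theorem ta_up (hn : 3 ≤ n) (hN : n ^ d ≤ N) {p : ℝ} (h0 : 0 ≤ p) (h1 : p ≤ 1) (w : Fin d → ZMod n) :
    ta (gends (torG d n)) p 0 w ≤ ∑ y ∈ Finset.univ.filter (fun y => pr d n N y = w), ta (gends (boxG d (2 * N + 1))) p (ctr d N) y := by
  have hc := cov_box (d := d) (n := n) (N := N) hn hN
  have e1 : ta (gends (torG d n)) p 0 w = Ex p (fun ω => (fun S : Finset (Fin d → Fin (2 * N + 1)) =>
      if w ∈ S.image (pr d n N) then (1 : ℝ) else 0) (Sf (gends (boxG d (2 * N + 1))) (pr d n N)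
        (prH d n N (by omega)).mapEdgeSet (ctr d N) ω)) := by
    unfold ta
    apply Ex_congr
    intro ω
    have h := (Sf_cl hc ω).2
    rw [pr_ctr] at h
    simp only [h]
  rw [e1]
  refine (cmp_up h0 h1 (fun S : Finset (Fin d → Fin (2 * N + 1)) =>
      if w ∈ S.image (pr d n N) then (1 : ℝ) else 0) ?_).trans ?_
  · intro S S' hS
    by_cases h : w ∈ S.image (pr d n N)
    · have h' : w ∈ S'.image (pr d n N) := Finset.image_subset_image hS h
      simp only [h, h', if_true, le_refl]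
    · simp only [h, if_false]
      split_ifs <;> norm_num
  · have e2 : ∑ y ∈ Finset.univ.filter (fun y => pr d n N y = w), ta (gends (boxG d (2 * N + 1))) p (ctr d N) y =
        Ex p (fun ω => ∑ y ∈ Finset.univ.filter (fun y => pr d n N y = w),
          (if y ∈ cu (gends (boxG d (2 * N + 1))) ω (ctr d N) then (1 : ℝ) else 0)) := by
      rw [Ex_sum]
      rfl
    rw [e2]
    apply Ex_mono h0 h1
    intro ω
    have hnn : ∀ y ∈ Finset.univ.filter (fun y => pr d n N y = w),
        (0 : ℝ) ≤ (if y ∈ cu (gends (boxG d (2 * N + 1))) ω (ctr d N) then (1 : ℝ) else 0) := by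
      intro y _
      split_ifs <;> norm_num
    by_cases h : w ∈ (cu (gends (boxG d (2 * N + 1))) ω (ctr d N)).image (pr d n N)
    · rw [if_pos h]
      obtain ⟨y, hy, hyw⟩ := Finset.mem_image.1 h
      refine le_trans ?_ (Finset.single_le_sum hnn (Finset.mem_filter.2 ⟨Finset.mem_univ y, hyw⟩))
      rw [if_pos hy]
    · rw [if_neg h]
      exact Finset.sum_nonneg hnn

/-- Row C3. `ta_up` with `class_sum` (`u = ctr`, class of `w i + N`; `tk` is invariant under translations: `td` depends on the differences), and translation invariance of `ta` on the torus (`ta_map` with the translation, see `tor_trans`). -/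
theorem UT_of (hd : 2 ≤ d) (hn : 3 ≤ n) (hN : n ^ d ≤ N) {p C a : ℝ} (h0 : 0 ≤ p) (h1 : p ≤ 1) (hC : 0 ≤ C) (ha : 0 < a) (ha1 : a ≤ 1)
    (hE : ∀ x y, ta (gends (boxG d (2 * N + 1))) p x y ≤ C * ek (d - 2) a x y) (x w : Fin d → ZMod n) :
    ta (gends (torG d n)) p x w ≤ C * (tk (d - 2) x w + 8 ^ (d + 1) / (a ^ 2 * (n : ℝ) ^ d)) := by
  have e1 : ta (gends (torG d n)) p x w = ta (gends (torG d n)) p 0 (w - x) := by
    have hG : ∀ a b : Fin d → ZMod n, (torG d n).Adj (a + x) (b + x) ↔ (torG d n).Adj a b := by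
      intro a b
      have h1 : ∀ (u v : Fin d → ZMod n) (i : Fin d),
          (v + x = u + x + Pi.single i 1 ↔ v = u + Pi.single i 1) := by
        intro u v i
        rw [add_right_comm, add_left_inj]
      simp only [torG, ne_eq, add_left_inj, h1]
    have h := ta_map (torG d n) (⟨Equiv.addRight x, fun {a b} => hG a b⟩ : torG d n ≃g torG d n) p 0 (w - x)
    have h2 : (⟨Equiv.addRight x, fun {a b} => hG a b⟩ : torG d n ≃g torG d n) 0 = x := by
      change (0 : Fin d → ZMod n) + x = x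
      rw [zero_add]
    have h3 : (⟨Equiv.addRight x, fun {a b} => hG a b⟩ : torG d n ≃g torG d n) (w - x) = w := by
      change w - x + x = w
      rw [sub_add_cancel]
    rw [h2, h3] at h
    exact h
  rw [e1]
  refine (ta_up hn hN h0 h1 (w - x)).trans ?_
  have e2 : Finset.univ.filter (fun y => pr d n N y = w - x) =
      Finset.univ.filter (fun y : Fin d → Fin (2 * N + 1) => ∀ i, ((y i : ℕ) : ZMod n) = w i - x i + (N : ZMod n)) := by
    ext y
    simp only [Finset.mem_filter, Finset.mem_univ, true_and]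
    constructor
    · intro h i
      have h4 := congrFun h i
      simp only [pr, Pi.sub_apply] at h4
      rw [← h4]
      ring
    · intro h
      funext i
      simp only [pr, Pi.sub_apply]
      rw [h i]
      ring
  have e3 : tk (d - 2) (fun i => ((ctr d N i : ℕ) : ZMod n)) (fun i => w i - x i + (N : ZMod n)) = tk (d - 2) x w := by
    have h5 : td (fun i => ((ctr d N i : ℕ) : ZMod n)) (fun i => w i - x i + (N : ZMod n)) = td x w := by
      unfold td
      refine Finset.sup_congr rfl fun i _ => ?_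
      have h6 : ((ctr d N i : ℕ) : ZMod n) - (w i - x i + (N : ZMod n)) = x i - w i := by
        simp only [ctr]
        ring
      rw [h6]
    unfold tk
    rw [h5]
  have h7 := class_sum (l := 2 * N + 1) hd (n := n) ha ha1 (fun i => w i - x i + (N : ZMod n)) (ctr d N)
  rw [e3] at h7
  rw [e2]
  refine le_trans (Finset.sum_le_sum fun y _ => hE (ctr d N) y) ?_
  rw [← Finset.mul_sum]
  exact mul_le_mul_of_nonneg_left h7 hC

private lemma C4_nd {d l : ℕ} {x z : Fin d → Fin l} (h : (boxG d l).Adj x z) : nd x z ≤ 1 := by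
  obtain ⟨i, hi, hj⟩ := h
  unfold nd
  refine Finset.sup_le fun j _ => ?_
  by_cases hji : j = i
  · subst hji
    omega
  · rw [hj j hji]
    omega

open scoped Classical in
private lemma C4_deg {d l : ℕ} (z : Fin d → Fin l) :
    ∑ x : Fin d → Fin l, (if (boxG d l).Adj x z then (1 : ℝ) else 0) ≤ 2 * d := by
  have h1 : ∀ x : {x // (boxG d l).Adj x z}, ∃ q : Fin d × Bool,
      ((q.2 = true ∧ (x.1 q.1 : ℕ) + 1 = z q.1) ∨ (q.2 = false ∧ (z q.1 : ℕ) + 1 = x.1 q.1)) ∧
        ∀ j, j ≠ q.1 → x.1 j = z j := by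
    rintro ⟨x, i, h | h, hj⟩
    · exact ⟨(i, true), Or.inl ⟨rfl, h⟩, hj⟩
    · exact ⟨(i, false), Or.inr ⟨rfl, h⟩, hj⟩
  choose f hf using h1
  have hinj : Function.Injective f := by
    intro x y hxy
    have hx := hf x
    have hy := hf y
    rw [← hxy] at hy
    apply Subtype.ext
    funext j
    by_cases hj : j = (f x).1
    · subst hj
      apply Fin.ext
      rcases hx.1 with a | a
      · rcases hy.1 with b | b
        · have := a.2
          have := b.2
          omega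
        · have hc := a.1
          rw [b.1] at hc
          exact absurd hc (by decide)
      · rcases hy.1 with b | b
        · have hc := b.1
          rw [a.1] at hc
          exact absurd hc (by decide)
        · have := a.2
          have := b.2
          omega
    · rw [hx.2 j hj, hy.2 j hj]
  have h2 := Fintype.card_le_of_injective f hinj
  rw [Fintype.card_subtype, Fintype.card_prod, Fintype.card_fin, Fintype.card_bool] at h2
  rw [Finset.sum_boole]
  have h3 : (((Finset.univ.filter (fun x => (boxG d l).Adj x z)).card : ℕ) : ℝ) ≤ ((d * 2 : ℕ) : ℝ) := by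
    exact_mod_cast h2
  rw [Nat.cast_mul, Nat.cast_ofNat] at h3
  linarith

open scoped Classical in
/-- The relation of the two points of a wrap. -/
private def C4_Q (d n N : ℕ) (t : (Fin d → Fin (2 * N + 1)) × (Fin d → Fin (2 * N + 1)) × (Fin d → Fin (2 * N + 1))) : Prop :=
  ((∀ i, ((t.2.2 i : ℕ) : ZMod n) = ((t.2.1 i : ℕ) : ZMod n)) ∧ t.2.2 ≠ t.2.1) ∧ (boxG d (2 * N + 1)).Adj t.1 t.2.1

private lemma C4_pr {x y : Fin d → Fin (2 * N + 1)} :
    pr d n N y = pr d n N x ↔ ∀ i, ((y i : ℕ) : ZMod n) = ((x i : ℕ) : ZMod n) := by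
  unfold pr
  constructor
  · intro h i
    have := congrFun h i
    exact sub_left_injective this
  · intro h
    funext i
    rw [h i]

open scoped Classical in
private lemma C4_WW (S : Finset (Fin d → Fin (2 * N + 1))) :
    WW d n N S = ∑ t, (if C4_Q d n N t then (1 : ℝ) else 0) * ((if t.1 ∈ S then (1 : ℝ) else 0) * (if t.2.2 ∈ S then 1 else 0)) := by
  unfold WW Wr
  rw [Finset.card_filter, Nat.cast_sum]
  refine Finset.sum_congr rfl fun t _ => ?_
  rw [Nat.cast_ite, Nat.cast_one, Nat.cast_zero]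
  have hE : (∃ e' ∈ (Finset.univ : Finset (boxG d (2 * N + 1)).edgeSet), gends (boxG d (2 * N + 1)) e' = s(t.1, t.2.1)) ↔
      (boxG d (2 * N + 1)).Adj t.1 t.2.1 := by
    constructor
    · rintro ⟨e, -, he⟩
      have h2 : s(t.1, t.2.1) ∈ (boxG d (2 * N + 1)).edgeSet := he ▸ e.2
      exact h2
    · intro h
      exact ⟨⟨s(t.1, t.2.1), h⟩, Finset.mem_univ _, rfl⟩
  by_cases hQ : C4_Q d n N t
  · have hQ' := hQ
    unfold C4_Q at hQ'
    rw [if_pos hQ, one_mul]
    by_cases h1 : t.1 ∈ S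
    · by_cases h2 : t.2.2 ∈ S
      · rw [if_pos h1, if_pos h2, one_mul, if_pos]
        exact ⟨h1, h2, C4_pr.2 hQ'.1.1, hQ'.1.2, hE.2 hQ'.2⟩
      · rw [if_pos h1, if_neg h2, mul_zero, if_neg]
        exact fun h => h2 h.2.1
    · rw [if_neg h1, zero_mul, if_neg]
      exact fun h => h1 h.1
  · rw [if_neg hQ, zero_mul, if_neg]
    intro h
    exact hQ ⟨⟨C4_pr.1 h.2.2.1, h.2.2.2.1⟩, hE.1 h.2.2.2.2⟩

open scoped Classical in
private lemma C4_inner (hd : 2 ≤ d) (hn : 1 ≤ n) {p C a : ℝ} (h0 : 0 ≤ p) (h1 : p ≤ 1) (hC : 0 ≤ C) (ha : 0 < a) (ha1 : a ≤ 1)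
    (hE : ∀ x y, ta (gends (boxG d (2 * N + 1))) p x y ≤ C * ek (d - 2) a x y) (u : Fin d → Fin (2 * N + 1)) :
    ∑ t, (if C4_Q d n N t then (1 : ℝ) else 0) *
      (ta (gends (boxG d (2 * N + 1))) p u t.1 * ta (gends (boxG d (2 * N + 1))) p u t.2.2) ≤
      2 * d * (3 * 2 ^ d) * C ^ 2 * (2 * ((d * 2 ^ d : ℝ) * (4 / a ^ 2)) * (8 ^ (d + 1) / (a ^ 2 * (n : ℝ) ^ d))) := by
  have hps := pair_sum hd hn ha ha1 u
  have hek : ∀ x y : Fin d → Fin (2 * N + 1), 0 ≤ ek (d - 2) a x y := fun x y => ek_nonneg _ _ _ _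
  have hta : ∀ x y, 0 ≤ ta (gends (boxG d (2 * N + 1))) p x y := fun x y => ta_nonneg h0 h1 x y
  have hterm : ∀ x z y : Fin d → Fin (2 * N + 1), (if C4_Q d n N (x, z, y) then (1 : ℝ) else 0) *
      (ta (gends (boxG d (2 * N + 1))) p u x * ta (gends (boxG d (2 * N + 1))) p u y) ≤
      (if (boxG d (2 * N + 1)).Adj x z then (1 : ℝ) else 0) *
        (if (∀ i, ((y i : ℕ) : ZMod n) = ((z i : ℕ) : ZMod n)) ∧ y ≠ z then
          (3 * 2 ^ d) * C ^ 2 * (ek (d - 2) a u z * ek (d - 2) a u y) else 0) := by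
    intro x z y
    by_cases hQ : C4_Q d n N (x, z, y)
    · have hQ' := hQ
      unfold C4_Q at hQ'
      have hadj : (boxG d (2 * N + 1)).Adj x z := hQ'.2
      have hcl : (∀ i, ((y i : ℕ) : ZMod n) = ((z i : ℕ) : ZMod n)) ∧ y ≠ z := hQ'.1
      rw [if_pos hQ, if_pos hadj, if_pos hcl, one_mul, one_mul]
      have e1 : ta (gends (boxG d (2 * N + 1))) p u x ≤ C * ((3 * 2 ^ d) * ek (d - 2) a u z) :=
        (hE u x).trans (mul_le_mul_of_nonneg_left (ek_nb ha ha1 u x z (C4_nd hadj)) hC)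
      have e2 := hE u y
      calc ta (gends (boxG d (2 * N + 1))) p u x * ta (gends (boxG d (2 * N + 1))) p u y ≤
          (C * ((3 * 2 ^ d) * ek (d - 2) a u z)) * (C * ek (d - 2) a u y) :=
            mul_le_mul e1 e2 (hta u y) (mul_nonneg hC (mul_nonneg (by positivity) (hek u z)))
        _ = _ := by ring
    · rw [if_neg hQ, zero_mul]
      refine mul_nonneg (by split_ifs <;> norm_num) ?_
      split_ifs
      · have := hek u z
        have := hek u y
        positivity
      · exact le_rfl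
  rw [Fintype.sum_prod_type]
  calc ∑ x, ∑ s : (Fin d → Fin (2 * N + 1)) × (Fin d → Fin (2 * N + 1)), (if C4_Q d n N (x, s) then (1 : ℝ) else 0) *
        (ta (gends (boxG d (2 * N + 1))) p u x * ta (gends (boxG d (2 * N + 1))) p u s.2)
      = ∑ x, ∑ z, ∑ y, (if C4_Q d n N (x, z, y) then (1 : ℝ) else 0) *
        (ta (gends (boxG d (2 * N + 1))) p u x * ta (gends (boxG d (2 * N + 1))) p u y) :=
        Finset.sum_congr rfl fun x _ => by rw [Fintype.sum_prod_type]
    _ ≤ ∑ x, ∑ z, ∑ y, (if (boxG d (2 * N + 1)).Adj x z then (1 : ℝ) else 0) *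
        (if (∀ i, ((y i : ℕ) : ZMod n) = ((z i : ℕ) : ZMod n)) ∧ y ≠ z then
          (3 * 2 ^ d) * C ^ 2 * (ek (d - 2) a u z * ek (d - 2) a u y) else 0) :=
        Finset.sum_le_sum fun x _ => Finset.sum_le_sum fun z _ => Finset.sum_le_sum fun y _ => hterm x z y
    _ = ∑ z, (∑ x, (if (boxG d (2 * N + 1)).Adj x z then (1 : ℝ) else 0)) *
        ∑ y, (if (∀ i, ((y i : ℕ) : ZMod n) = ((z i : ℕ) : ZMod n)) ∧ y ≠ z then
          (3 * 2 ^ d) * C ^ 2 * (ek (d - 2) a u z * ek (d - 2) a u y) else 0) := by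
        rw [Finset.sum_comm]
        refine Finset.sum_congr rfl fun z _ => ?_
        rw [Finset.sum_mul]
        exact Finset.sum_congr rfl fun x _ => by rw [Finset.mul_sum]
    _ ≤ ∑ z, (2 * d : ℝ) *
        ∑ y, (if (∀ i, ((y i : ℕ) : ZMod n) = ((z i : ℕ) : ZMod n)) ∧ y ≠ z then
          (3 * 2 ^ d) * C ^ 2 * (ek (d - 2) a u z * ek (d - 2) a u y) else 0) := by
        refine Finset.sum_le_sum fun z _ => mul_le_mul_of_nonneg_right (C4_deg z) (Finset.sum_nonneg fun y _ => ?_)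
        split_ifs
        · have := hek u z
          have := hek u y
          positivity
        · exact le_rfl
    _ = 2 * d * (3 * 2 ^ d) * C ^ 2 * ∑ z, ∑ y ∈ Finset.univ.filter (fun y : Fin d → Fin (2 * N + 1) =>
          (∀ i, ((y i : ℕ) : ZMod n) = ((z i : ℕ) : ZMod n)) ∧ y ≠ z), ek (d - 2) a u z * ek (d - 2) a u y := by
        rw [Finset.mul_sum]
        refine Finset.sum_congr rfl fun z _ => ?_
        rw [Finset.sum_filter, Finset.mul_sum, Finset.mul_sum]
        refine Finset.sum_congr rfl fun y _ => ?_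
        split_ifs
        · ring
        · ring
    _ ≤ _ := by
        refine mul_le_mul_of_nonneg_left ?_ (by positivity)
        refine le_trans (le_of_eq ?_) hps
        refine Finset.sum_congr rfl fun z _ => Finset.sum_congr ?_ fun y _ => rfl
        ext y
        simp only [Finset.mem_filter]

open scoped Classical in
/-- Row C4. The mean number of wraps of the cluster of a vertex `o` in the box. `|Wr (cu o) univ| = ∑ over t with π t3 = π t2, t3 ≠ t2, t1 ~ t2 of 1[t1 ∈ cu o] 1[t3 ∈ cu o]`, `tree_graph`: at most `∑ u, ta o u ∑ t, ta u t1 ta u t3`; `ta u t1 ≤ C ek u t1 ≤ C 3 2^d ek u t2` (`ek_nb`), at most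
`2 d` vertices `t1` for each `t2`; `pair_sum`; `∑ u, ta o u ≤ C ∑ ek ≤ C d 2^d 4/a²` (`sum_ek`). -/
theorem Wr_mean (hd : 2 ≤ d) (hn : 1 ≤ n) {p C a : ℝ} (h0 : 0 ≤ p) (h1 : p ≤ 1) (hC : 0 ≤ C) (ha : 0 < a) (ha1 : a ≤ 1)
    (hE : ∀ x y, ta (gends (boxG d (2 * N + 1))) p x y ≤ C * ek (d - 2) a x y) (o : Fin d → Fin (2 * N + 1)) :
    Ex p (fun ω => WW d n N (cu (gends (boxG d (2 * N + 1))) ω o)) ≤
      C * ((d * 2 ^ d : ℝ) * (4 / a ^ 2)) * (2 * d * (3 * 2 ^ d) * C ^ 2 * (2 * ((d * 2 ^ d : ℝ) * (4 / a ^ 2)) * (8 ^ (d + 1) / (a ^ 2 * (n : ℝ) ^ d)))) := by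
  have hS : 0 ≤ (d * 2 ^ d : ℝ) * (4 / a ^ 2) := by positivity
  have hX : 0 ≤ 2 * d * (3 * 2 ^ d) * C ^ 2 * (2 * ((d * 2 ^ d : ℝ) * (4 / a ^ 2)) * (8 ^ (d + 1) / (a ^ 2 * (n : ℝ) ^ d))) := by
    positivity
  have e1 : Ex p (fun ω => WW d n N (cu (gends (boxG d (2 * N + 1))) ω o)) =
      ∑ t, (if C4_Q d n N t then (1 : ℝ) else 0) * Ex p (fun ω =>
        (if t.1 ∈ cu (gends (boxG d (2 * N + 1))) ω o then (1 : ℝ) else 0) *
          (if t.2.2 ∈ cu (gends (boxG d (2 * N + 1))) ω o then 1 else 0)) := by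
    rw [Ex_congr fun ω => C4_WW (n := n) (cu (gends (boxG d (2 * N + 1))) ω o), Ex_sum]
    exact Finset.sum_congr rfl fun t _ => by rw [Ex_mul_left]
  have e2 : ∑ t, (if C4_Q d n N t then (1 : ℝ) else 0) * Ex p (fun ω =>
        (if t.1 ∈ cu (gends (boxG d (2 * N + 1))) ω o then (1 : ℝ) else 0) *
          (if t.2.2 ∈ cu (gends (boxG d (2 * N + 1))) ω o then 1 else 0)) ≤
      ∑ t, (if C4_Q d n N t then (1 : ℝ) else 0) * ∑ u, ta (gends (boxG d (2 * N + 1))) p o u *
        (ta (gends (boxG d (2 * N + 1))) p u t.1 * ta (gends (boxG d (2 * N + 1))) p u t.2.2) := by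
    refine Finset.sum_le_sum fun t _ => mul_le_mul_of_nonneg_left ?_ (by split_ifs <;> norm_num)
    exact tree_graph h0 h1 o t.1 t.2.2
  have e3 : ∑ t, (if C4_Q d n N t then (1 : ℝ) else 0) * ∑ u, ta (gends (boxG d (2 * N + 1))) p o u *
        (ta (gends (boxG d (2 * N + 1))) p u t.1 * ta (gends (boxG d (2 * N + 1))) p u t.2.2) =
      ∑ u, ta (gends (boxG d (2 * N + 1))) p o u * ∑ t, (if C4_Q d n N t then (1 : ℝ) else 0) *
        (ta (gends (boxG d (2 * N + 1))) p u t.1 * ta (gends (boxG d (2 * N + 1))) p u t.2.2) := by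
    rw [Finset.sum_congr rfl fun t _ => Finset.mul_sum _ _ _, Finset.sum_comm]
    refine Finset.sum_congr rfl fun u _ => ?_
    rw [Finset.mul_sum]
    exact Finset.sum_congr rfl fun t _ => by ring
  have e4 : ∑ u, ta (gends (boxG d (2 * N + 1))) p o u ≤ C * ((d * 2 ^ d : ℝ) * (4 / a ^ 2)) := by
    calc ∑ u, ta (gends (boxG d (2 * N + 1))) p o u ≤ ∑ u, C * ek (d - 2) a o u :=
          Finset.sum_le_sum fun u _ => hE o u
      _ = C * ∑ u, ek (d - 2) a o u := by rw [Finset.mul_sum]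
      _ ≤ _ := mul_le_mul_of_nonneg_left (sum_ek hd ha ha1 o) hC
  rw [e1]
  refine e2.trans ?_
  rw [e3]
  calc ∑ u, ta (gends (boxG d (2 * N + 1))) p o u * ∑ t, (if C4_Q d n N t then (1 : ℝ) else 0) *
        (ta (gends (boxG d (2 * N + 1))) p u t.1 * ta (gends (boxG d (2 * N + 1))) p u t.2.2) ≤
      ∑ u, ta (gends (boxG d (2 * N + 1))) p o u * (2 * d * (3 * 2 ^ d) * C ^ 2 * (2 * ((d * 2 ^ d : ℝ) * (4 / a ^ 2)) * (8 ^ (d + 1) / (a ^ 2 * (n : ℝ) ^ d)))) :=
        Finset.sum_le_sum fun u _ => mul_le_mul_of_nonneg_left (C4_inner hd hn h0 h1 hC ha ha1 hE u) (ta_nonneg h0 h1 o u)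
    _ = (∑ u, ta (gends (boxG d (2 * N + 1))) p o u) * (2 * d * (3 * 2 ^ d) * C ^ 2 * (2 * ((d * 2 ^ d : ℝ) * (4 / a ^ 2)) * (8 ^ (d + 1) / (a ^ 2 * (n : ℝ) ^ d)))) := by
        rw [Finset.sum_mul]
    _ ≤ _ := mul_le_mul_of_nonneg_right e4 hX

/-- Row C5: more points, more wraps. -/
private lemma C5_WW {d n N : ℕ} [Fintype (boxG d (2 * N + 1)).edgeSet] {S S' : Finset (Fin d → Fin (2 * N + 1))}
    (h : S ⊆ S') : WW d n N S ≤ WW d n N S' := by
  classical
  unfold WW
  have h2 : Wr (gends (boxG d (2 * N + 1))) (pr d n N) S Finset.univ ⊆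
      Wr (gends (boxG d (2 * N + 1))) (pr d n N) S' Finset.univ := by
    intro t ht
    unfold Wr at ht ⊢
    rw [Finset.mem_filter] at ht ⊢
    exact ⟨ht.1, h ht.2.1, h ht.2.2.1, ht.2.2.2⟩
  exact_mod_cast Finset.card_le_card h2

/-- Row C5: the constants. -/
private lemma C5_cst (d : ℕ) {C a m : ℝ} (hC : 0 ≤ C) (ha : 0 < a) (hm : 0 < m) :
    C * ((d * 2 ^ d : ℝ) * (4 / a ^ 2)) * (2 * d * (3 * 2 ^ d) * C ^ 2 *
      (2 * ((d * 2 ^ d : ℝ) * (4 / a ^ 2)) * (8 ^ (d + 1) / (a ^ 2 * m)))) ≤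
      8 ^ (6 * d + 8) * d ^ 3 * C ^ 3 / (a ^ 6 * m) := by
  have e1 : C * ((d * 2 ^ d : ℝ) * (4 / a ^ 2)) * (2 * d * (3 * 2 ^ d) * C ^ 2 *
      (2 * ((d * 2 ^ d : ℝ) * (4 / a ^ 2)) * (8 ^ (d + 1) / (a ^ 2 * m)))) =
      (192 * 8 ^ (2 * d + 1)) * ((d : ℝ) ^ 3 * C ^ 3) / (a ^ 6 * m) := by
    have e2 : (8 : ℝ) ^ (2 * d + 1) = (2 ^ d) ^ 3 * 8 ^ (d + 1) := by
      rw [← pow_mul, show d * 3 = 3 * d by ring, pow_mul, show (2 : ℝ) ^ 3 = 8 by norm_num, ← pow_add]
      congr 1
      ring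
    rw [e2]
    field_simp
    ring
  rw [e1]
  have h2 : (192 : ℝ) * 8 ^ (2 * d + 1) ≤ 8 ^ (6 * d + 8) := by
    calc (192 : ℝ) * 8 ^ (2 * d + 1) ≤ 8 ^ 3 * 8 ^ (2 * d + 1) := by
          apply mul_le_mul_of_nonneg_right (by norm_num) (by positivity)
      _ = 8 ^ (2 * d + 4) := by rw [← pow_add]; congr 1; ring
      _ ≤ 8 ^ (6 * d + 8) := pow_le_pow_right₀ (by norm_num) (by omega)
  apply div_le_div_of_nonneg_right _ (by positivity)
  calc (192 * 8 ^ (2 * d + 1)) * ((d : ℝ) ^ 3 * C ^ 3) ≤ 8 ^ (6 * d + 8) * ((d : ℝ) ^ 3 * C ^ 3) :=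
        mul_le_mul_of_nonneg_right h2 (by positivity)
    _ = _ := by ring

/-- Row C5. `cmp_up` with `G = WW`, `Wr_mean` with `o = ctr`, and the constants. -/
theorem WW_mean (hd : 2 ≤ d) (hn : 3 ≤ n) (hN : n ^ d ≤ N) {p C a : ℝ} (h0 : 0 ≤ p) (h1 : p ≤ 1) (hC : 0 ≤ C) (ha : 0 < a) (ha1 : a ≤ 1)
    (hE : ∀ x y, ta (gends (boxG d (2 * N + 1))) p x y ≤ C * ek (d - 2) a x y) :
    Ex p (fun ω => WW d n N (SF d n N (Nat.le_of_succ_le hn) ω)) ≤ 8 ^ (6 * d + 8) * d ^ 3 * C ^ 3 / (a ^ 6 * (n : ℝ) ^ d) := by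
  classical
  have hn1 : 1 ≤ n := by omega
  have hnd : (0 : ℝ) < (n : ℝ) ^ d := by
    have : (0 : ℝ) < n := by exact_mod_cast hn1
    positivity
  have key := cmp_up (ends' := gends (boxG d (2 * N + 1))) (π := pr d n N)
      (ρ := (prH d n N (by omega : 2 ≤ n)).mapEdgeSet) (o := ctr d N) h0 h1 (fun S => WW d n N S)
      (fun S S' h => C5_WW h)
  have h2 : Ex p (fun ω => WW d n N (SF d n N (by omega) ω)) ≤
      Ex p (fun ω => WW d n N (cu (gends (boxG d (2 * N + 1))) ω (ctr d N))) := by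
    convert key
    unfold SF
    congr 1
    first | rfl | exact Subsingleton.elim _ _
  exact (h2.trans (Wr_mean hd hn1 h0 h1 hC ha ha1 hE (ctr d N))).trans (C5_cst d hC ha hnd)

open scoped Classical in
/-- Row C5. `cmp_M` for the box and the torus; the tail in the box from the tail on a torus of side `2 N + 2` (`box_fT`, `T2_ceil` is not needed: `k` is a natural number), `green_M` gives `M = 7 C ε`. -/
theorem cmp_tor (hn : 3 ≤ n) (hN : n ^ d ≤ N) {p C ε h : ℝ} (h0 : 0 ≤ p) (h1 : p ≤ 1) (hC : 0 ≤ C) (hε : 0 < ε) (hε1 : ε ≤ 1) (hM : 7 * C * ε ≤ 1)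
    (hh0 : 0 ≤ h) (hh1 : h ≤ ε ^ 2)
    (hT : ∀ (m : ℕ) [NeZero m] [Fintype (torG d m).edgeSet] (x : Fin d → ZMod m) (k : ℕ), 1 ≤ k →
      Ex p (fun ω => if (k : ℝ) ≤ cz (gends (torG d m)) ω x then (1 : ℝ) else 0) ≤ C * (1 / Real.sqrt k + ε)) :
    Ex p (fun ω => 1 - (1 - h) ^ (cu (gends (boxG d (2 * N + 1))) ω (ctr d N)).card) ≤
      Ex p (fun ω => 1 - (1 - h) ^ (cu (gends (torG d n)) ω 0).card) +
      Ex p (fun ω => (1 - h) ^ (cu (gends (torG d n)) ω 0).card * min 1 (7 * C * ε * WW d n N (SF d n N (Nat.le_of_succ_le hn) ω))) := by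
  have hcov := cov_box (d := d) (n := n) (N := N) hn hN
  have hh2 : h ≤ 1 := hh1.trans (pow_le_one₀ hε.le hε1)
  have hMv : ∀ v, Ex p (fun ω => 1 - (1 - h) ^ (cu (gends (boxG d (2 * N + 1))) ω v).card) ≤ 7 * C * ε := by
    intro v
    refine green_M h0 h1 hC hε hε1 hh0 hh1 v (fun k hk => ?_)
    have : NeZero (2 * N + 2) := ⟨by omega⟩
    have : Fintype (torG d (2 * N + 2)).edgeSet := Fintype.ofFinite _
    exact (box_fT (n := 2 * N + 2) (by omega) h0 h1 v).trans (hT (2 * N + 2) 0 k hk)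
  have key := cmp_M hcov h0 h1 hh0 hh2 hM hMv
  rw [pr_ctr] at key
  convert key
  unfold WW SF
  congr 4
  first | rfl | exact Subsingleton.elim _ _

end two

end Pool.Agent.PERC29.QQ
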